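import Pool.Agent.H69.LQ.Targets1

set_option autoImplicit false

/-!
# MP_8f7db2_an: the ball minimizes `λ_{N+1}` in all dimensions `N ≥ N₀`

Blueprint: `/team-store/H69_LNN.md`. `N` is the dimension, `L` the second eigenvalue of the unit
ball, `p = ph N L 1`, `q = -p'(1)`.
-/

open MeasureTheory Metric Set
open scoped ENNReal

namespace Pool.Agent.H69.LNN

open Pool.Agent.H85.LK (E adm lam Ann)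
open Pool.Agent.H69.LQ

/-! ### Definitions: rays -/

/-- outer radius -/
noncomputable def bb (N : ℕ) : ℝ := 1 + 20 / Real.sqrt N

/-- inner radius -/
noncomputable def aa (N : ℕ) (K₁ : ℝ) : ℝ := Real.exp (-K₁ / N)

/-- the norm of the profile -/
noncomputable def NP (N : ℕ) (L : ℝ) : ℝ := ∫ r in (0 : ℝ)..1, r ^ (N - 3) * ph N L 1 r ^ 2

/-- the coefficient `β = q² / (N² NP)`, it is close to `1/2` -/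
noncomputable def be (N : ℕ) (L : ℝ) : ℝ := dph N L 1 1 ^ 2 / ((N : ℝ) ^ 2 * NP N L)

/-- the coefficient of the profile in a function on a ray -/
noncomputable def Tr (N : ℕ) (L : ℝ) (f : ℝ → ℝ) : ℝ :=
  (NP N L)⁻¹ * ∫ r in (0 : ℝ)..1, r ^ (N - 3) * (f r * ph N L 1 r)

/-- the mass on a ray -/
noncomputable def Mr (N : ℕ) (f : ℝ → ℝ) : ℝ := ∫ r in (0 : ℝ)..bb N, r ^ (N - 3) * f r ^ 2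

/-- the mass of the part orthogonal to the profile -/
noncomputable def Wr (N : ℕ) (L : ℝ) (f : ℝ → ℝ) : ℝ := Mr N f - NP N L * Tr N L f ^ 2

/-- the quadratic form on a ray -/
noncomputable def RR (N : ℕ) (L : ℝ) (f f' : ℝ → ℝ) : ℝ :=
  ∫ r in (0 : ℝ)..bb N, r ^ (N - 1) * (f' r ^ 2 + (((N : ℝ) - 1) / r ^ 2 - L) * f r ^ 2)

/-- volume on a ray -/
noncomputable def vr (N : ℕ) (S : Set ℝ) : ℝ :=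
  ∫ r in Ioo (0 : ℝ) (bb N) ∩ S, (N : ℝ) * r ^ (N - 1)

/-- functions on a ray -/
structure RF (N : ℕ) (f f' : ℝ → ℝ) : Prop where
  c1 : C1 f f'
  near : ∃ δ : ℝ, 0 < δ ∧ ∀ r, |r| ≤ δ → f r = 0
  far : ∀ r, bb N ≤ r → f r = 0

/-- truncated exponent -/
noncomputable def ht (t : ℝ) : ℝ := max t (-(3 / 2))

/-- coefficient of the mixed term -/
noncomputable def phi (t : ℝ) : ℝ := if -(3 / 2) ≤ t then t else -1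

/-- coefficient of the diagonal term -/
noncomputable def psi (t : ℝ) : ℝ := if -(3 / 2) ≤ t then t else -(4 / 3)

/-- the logarithmic variable on a ray -/
noncomputable def gx (N : ℕ) (f : ℝ → ℝ) (x : ℝ) : ℝ :=
  Real.exp (((N : ℝ) / 2 - 1) * x) * f (Real.exp x)

/-- the derivative of `gx` -/
noncomputable def gx' (N : ℕ) (f f' : ℝ → ℝ) (x : ℝ) : ℝ :=
  Real.exp (((N : ℝ) / 2 - 1) * x) *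
    (((N : ℝ) / 2 - 1) * f (Real.exp x) + Real.exp x * f' (Real.exp x))

/-- the profile in the logarithmic variable -/
noncomputable def Px (N : ℕ) (L x : ℝ) : ℝ := gx N (ph N L 1) x

noncomputable def Px' (N : ℕ) (L x : ℝ) : ℝ := gx' N (ph N L 1) (dph N L 1) x

/-- the potential in the logarithmic variable -/
noncomputable def qx (N : ℕ) (L x : ℝ) : ℝ := (N : ℝ) ^ 2 / 4 - L * Real.exp (2 * x)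

/-! ### Part 1: the profile -/

/-- (PE) the profile in the logarithmic variable. -/
def T_PE : Prop := ∀ (N : ℕ) (L : ℝ), 3 ≤ N → Fz N L →
  (∀ x, HasDerivAt (Px N L) (Px' N L x) x) ∧
  (∀ x, HasDerivAt (Px' N L) (qx N L x * Px N L x) x) ∧
  Px N L 0 = 0 ∧ Px' N L 0 = dph N L 1 1 ∧ (∀ x, x < 0 → 0 < Px N L x) ∧ dph N L 1 1 < 0

/-- (L1) lower bound for `L`. -/
def T_L1 : Prop := ∀ (N : ℕ) (L : ℝ), 3 ≤ N → Fz N L → (N : ℝ) ^ 2 / 4 ≤ L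

/-- (L2) upper bound for `L`. -/
def T_L2 : Prop := ∃ (C : ℝ) (N₀ : ℕ), 0 < C ∧ 3 ≤ N₀ ∧ ∀ (N : ℕ) (L : ℝ), N₀ ≤ N → Fz N L →
  L ≤ (N : ℝ) ^ 2 / 4 * (1 + C / Real.sqrt N)

/-- (NB) the norm of the profile. -/
def T_NB : Prop := ∀ (N : ℕ) (L : ℝ), 3 ≤ N → Fz N L →
  0 < NP N L ∧ 1 / 2 ≤ be N L ∧ be N L ≤ 2 * L / (N : ℝ) ^ 2

/-- (PN) the profile near the boundary. -/
def T_PN : Prop := ∀ K ε : ℝ, 1 ≤ K → 0 < ε → ∃ N₀ : ℕ, 3 ≤ N₀ ∧ ∀ (N : ℕ) (L x : ℝ), N₀ ≤ N →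
  Fz N L → |x| ≤ K / N →
    |Px' N L x - dph N L 1 1| ≤ ε * |dph N L 1 1| * ((N : ℝ) * x) ^ 2 ∧
    |Px N L x - dph N L 1 1 * x| ≤ ε * |dph N L 1 1| * |x| * ((N : ℝ) * x) ^ 2

/-- (HA) the profile in the inner ball. -/
def T_HA : Prop := ∀ K₁ : ℝ, 1 ≤ K₁ → ∃ N₀ : ℕ, 3 ≤ N₀ ∧ ∀ (N : ℕ) (L r : ℝ), N₀ ≤ N →
  Fz N L → 0 < r → r ≤ aa N K₁ →
    |dph N L 1 1| / N * (K₁ / 2 * Real.exp (K₁ / 2)) * r ≤ ph N L 1 r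

/-! ### Part 2: rays -/

/-- (CV) change of variables. -/
def T_CV : Prop := ∀ (N : ℕ) (L c d : ℝ) (f f' : ℝ → ℝ), 3 ≤ N → 0 < c → c ≤ d → C1 f f' →
  (∀ x, HasDerivAt (gx N f) (gx' N f f' x) x) ∧ Continuous (gx' N f f') ∧
  ∫ r in c..d, r ^ (N - 1) * (f' r ^ 2 + (((N : ℝ) - 1) / r ^ 2 - L) * f r ^ 2) =
    (∫ x in Real.log c..Real.log d, (gx' N f f' x ^ 2 + qx N L x * gx N f x ^ 2)) -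
      ((N : ℝ) / 2 - 1) * (gx N f (Real.log d) ^ 2 - gx N f (Real.log c) ^ 2) ∧
  ∫ r in c..d, r ^ (N - 3) * f r ^ 2 = ∫ x in Real.log c..Real.log d, gx N f x ^ 2

/-- (HY) Hardy's inequality on a ray. -/
def T_HY : Prop := ∀ (N : ℕ) (c : ℝ) (f f' : ℝ → ℝ), 3 ≤ N → 0 < c → C1 f f' →
  (N : ℝ) ^ 2 / 4 * (∫ r in (0 : ℝ)..c, r ^ (N - 3) * f r ^ 2) -
      ((N : ℝ) / 2 - 1) * (c ^ (N - 2) * f c ^ 2) ≤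
    ∫ r in (0 : ℝ)..c, r ^ (N - 1) * (f' r ^ 2 + ((N : ℝ) - 1) / r ^ 2 * f r ^ 2)

/-- (SI) functions which vanish at `c`. -/
def T_SI : Prop := ∀ (N : ℕ) (L c : ℝ) (f f' : ℝ → ℝ), 3 ≤ N → Fz N L → 0 < c → C1 f f' →
  f 0 = 0 → f c = 0 →
  L / c ^ 2 * (∫ r in (0 : ℝ)..c, r ^ (N - 1) * f r ^ 2) ≤
    ∫ r in (0 : ℝ)..c, r ^ (N - 1) * (f' r ^ 2 + ((N : ℝ) - 1) / r ^ 2 * f r ^ 2)

/-- (PW) Poincaré's inequality with a zero in every window. -/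
def T_PW : Prop := ∀ (X Y l : ℝ) (g g' : ℝ → ℝ), X ≤ Y → 0 < l → C1 g g' → g X = 0 →
  (∀ y, X ≤ y → y + l ≤ Y → ∃ z, y ≤ z ∧ z ≤ y + l ∧ g z = 0) →
  ∫ x in X..Y, g x ^ 2 ≤ l ^ 2 * ∫ x in X..Y, g' x ^ 2

/-- (WI) windows and volume: an interval of `S` in the logarithmic variable is short. -/
def T_WI : Prop := ∀ (N : ℕ) (S : Set ℝ) (y l : ℝ), 3 ≤ N → MeasurableSet S → 0 ≤ l →
  Real.exp (y + l) ≤ bb N → (∀ z, y ≤ z → z ≤ y + l → Real.exp z ∈ S) →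
  Real.exp (N * y) * (Real.exp (N * l) - 1) ≤ vr N S

/-- (RB) rays of large volume. -/
def T_RB : Prop := ∃ (C₀ : ℝ) (N₀ : ℕ), 1 ≤ C₀ ∧ 3 ≤ N₀ ∧ ∀ (N : ℕ) (L ρ : ℝ) (f f' : ℝ → ℝ)
  (S : Set ℝ), N₀ ≤ N → Fz N L → RF N f f' → MeasurableSet S → (∀ r, 0 < r → r ∉ S → f r = 0) →
  1 ≤ ρ → vr N S ≤ ρ → ρ ≤ bb N ^ N →
  -((N : ℝ) / 2 * (Real.log ρ + C₀)) * Mr N f ≤ RR N L f f'

/-- (IN) the inner part of a ray. -/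
def T_IN : Prop := ∀ K₁ : ℝ, 1 ≤ K₁ → ∃ N₀ : ℕ, 3 ≤ N₀ ∧ ∀ (N : ℕ) (L τ r₁ : ℝ)
  (f f' : ℝ → ℝ), N₀ ≤ N → Fz N L → RF N f f' → f (aa N K₁) = τ * ph N L 1 (aa N K₁) →
  0 ≤ r₁ → r₁ ≤ aa N K₁ → f r₁ = 0 →
  ∃ F : ℝ, 0 ≤ F ∧
    ∫ r in (0 : ℝ)..aa N K₁, r ^ (N - 1) * (f' r ^ 2 + (((N : ℝ) - 1) / r ^ 2 - L) * f r ^ 2) =
      F + aa N K₁ ^ (N - 1) * (dph N L 1 (aa N K₁) * ph N L 1 (aa N K₁)) * τ ^ 2 ∧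
    K₁ * N / 3 * (∫ r in (0 : ℝ)..aa N K₁, r ^ (N - 3) * (f r - τ * ph N L 1 r) ^ 2) ≤ F ∧
    K₁ ^ 2 * Real.exp K₁ / 8 * (dph N L 1 1 ^ 2 / N) * r₁ ^ N * τ ^ 2 ≤ F

/-- (OX) the outer part of a ray of small volume. -/
def T_OX : Prop := ∀ K K₁ : ℝ, 1 ≤ K → 1 ≤ K₁ → ∃ (c : ℝ) (N₀ : ℕ), 0 < c ∧ 3 ≤ N₀ ∧
  ∀ (N : ℕ) (L τ R : ℝ) (f f' : ℝ → ℝ) (S : Set ℝ), N₀ ≤ N → Fz N L → RF N f f' →
    MeasurableSet S → (∀ r, 0 < r → r ∉ S → f r = 0) → vr N S ≤ Real.exp K →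
    aa N K₁ ≤ R → R ≤ bb N → (∀ r, aa N K₁ ≤ r → r < R → r ∈ S) → f R = 0 →
    f (aa N K₁) = τ * ph N L 1 (aa N K₁) →
    R ^ N ≤ Real.exp K + 1 ∧
    -(Px' N L (Real.log R) * Px N L (Real.log R)) * τ ^ 2 +
        1 / 2 * (∫ x in -K₁ / N..Real.log R, (gx' N f f' x - τ * Px' N L x) ^ 2) +
        c * (N : ℝ) ^ 2 * (∫ x in Real.log R..Real.log (bb N), gx N f x ^ 2) ≤
      (∫ r in aa N K₁..bb N, r ^ (N - 1) * (f' r ^ 2 + (((N : ℝ) - 1) / r ^ 2 - L) * f r ^ 2)) +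
        aa N K₁ ^ (N - 1) * (dph N L 1 (aa N K₁) * ph N L 1 (aa N K₁)) * τ ^ 2

/-- (ZB) the part orthogonal to the profile. -/
def T_ZB : Prop := ∀ K K₁ c s : ℝ, 1 ≤ K → 1 ≤ K₁ → 0 < c → 0 < s → ∃ N₀ : ℕ, 3 ≤ N₀ ∧
  ∀ (N : ℕ) (L τ R : ℝ) (f f' : ℝ → ℝ), N₀ ≤ N → Fz N L → RF N f f' →
    aa N K₁ ≤ R → R ≤ bb N → R ^ N ≤ Real.exp K + 1 → f R = 0 →
    f (aa N K₁) = τ * ph N L 1 (aa N K₁) →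
    ∃ Z : ℝ, NP N L * (Tr N L f - τ) ^ 2 ≤ Z ∧ Wr N L f ≤ Z ∧
      N * Z ≤ N * (∫ r in (0 : ℝ)..aa N K₁, r ^ (N - 3) * (f r - τ * ph N L 1 r) ^ 2) +
        s * (∫ x in -K₁ / N..Real.log R, (gx' N f f' x - τ * Px' N L x) ^ 2) +
        s * (c * (N : ℝ) ^ 2 * (∫ x in Real.log R..Real.log (bb N), gx N f x ^ 2)) +
        s * (dph N L 1 1 ^ 2 / N) * (N * Real.log R) ^ 2 * τ ^ 2

/-- (RG) rays of small volume. -/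
def T_RG : Prop := ∀ K ε A G : ℝ, 1 ≤ K → 0 < ε → ε ≤ 1 → 1 ≤ A → 0 ≤ G → ∃ K₂ : ℝ, 1 ≤ K₂ ∧
  ∀ K₁ : ℝ, K₂ ≤ K₁ → ∃ N₀ : ℕ, 3 ≤ N₀ ∧ ∀ (N : ℕ) (L R r₁ : ℝ) (f f' : ℝ → ℝ) (S : Set ℝ),
    N₀ ≤ N → Fz N L → RF N f f' → MeasurableSet S → (∀ r, 0 < r → r ∉ S → f r = 0) →
    vr N S ≤ Real.exp K → aa N K₁ ≤ R → R ≤ bb N → (∀ r, aa N K₁ ≤ r → r < R → r ∈ S) →
    f R = 0 → 0 ≤ r₁ → r₁ ≤ aa N K₁ → f r₁ = 0 →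
    -((N : ℝ) * NP N L * (be N L * (ht (N * Real.log R) + ε * ht (N * Real.log R) ^ 2) -
        G * r₁ ^ N)) * Tr N L f ^ 2 + A * N * Wr N L f ≤ RR N L f f'

/-! ### Part 3: the cylinder -/

section

variable {N : ℕ}

/-- the coefficient of the profile as a function on the sphere (extended to the space) -/
noncomputable def TT (L : ℝ) (v : E N → ℝ) (y : E N) : ℝ := Tr N L (fun r => v (r • y))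

/-- test functions -/
structure TF (Ω : Set (E N)) (v : E N → ℝ) : Prop where
  smooth : ContDiff ℝ (⊤ : ℕ∞) v
  near : ∃ δ : ℝ, 0 < δ ∧ ∀ x, ‖x‖ ≤ δ → v x = 0
  far : ∀ x, bb N ≤ ‖x‖ → v x = 0
  off : ∀ x, x ∉ Ω → v x = 0

/-- the quadratic form -/
noncomputable def EL (L : ℝ) (v : E N → ℝ) : ℝ := (∫ x, ‖fderiv ℝ v x‖ ^ 2) - L * ∫ x, v x ^ 2

/-- the mass orthogonal to the profile on the ray `θ` -/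
noncomputable def WT (L : ℝ) (v : E N → ℝ) (θ : Sp N) : ℝ := Wr N L (fun r => rs v r θ)

/-- the points of `Ω` on a ray -/
def Sr (Ω : Set (E N)) (θ : Sp N) : Set ℝ := {r | r • (θ : E N) ∈ Ω}

/-- the volume of a ray -/
noncomputable def rho (Ω : Set (E N)) (θ : Sp N) : ℝ := vr N (Sr Ω θ)

/-- the volume of `Ω` on the ray beyond the first exit -/
noncomputable def ds (Ω : Set (E N)) (R : Sp N → ℝ) (θ : Sp N) : ℝ :=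
  ∫ r in Ioo (R θ) (bb N) ∩ Sr Ω θ, (N : ℝ) * r ^ (N - 1)

/-- the volume of the holes inside the ball of radius `a` -/
noncomputable def Hh (Ω : Set (E N)) (a : ℝ) (θ : Sp N) : ℝ :=
  ∫ r in Ioo 0 a \ Sr Ω θ, (N : ℝ) * r ^ (N - 1)

/-- the first exit `R` after `a` and the last hole `r₁` before `a` -/
structure Ey (Ω : Set (E N)) (a : ℝ) (R r₁ : Sp N → ℝ) : Prop where
  measR : Measurable R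
  meas1 : Measurable r₁
  lo : ∀ θ, a ≤ R θ
  hi : ∀ θ, R θ ≤ bb N
  ins : ∀ (θ : Sp N) (r : ℝ), a ≤ r → r < R θ → r • (θ : E N) ∈ Ω
  out : ∀ θ : Sp N, R θ < bb N → R θ • (θ : E N) ∉ Ω
  nn : ∀ θ, 0 ≤ r₁ θ
  le : ∀ θ, r₁ θ ≤ a
  hole : ∀ θ : Sp N, 0 < r₁ θ → r₁ θ • (θ : E N) ∉ Ω
  full : ∀ (θ : Sp N) (r : ℝ), r₁ θ < r → r < a → r • (θ : E N) ∈ Ω

/-- the exponent of the first exit -/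
noncomputable def hR (R : Sp N → ℝ) (θ : Sp N) : ℝ := N * Real.log (R θ)

/-- the rays of small volume -/
def Gk (K : ℝ) (ρ : Sp N → ℝ) : Set (Sp N) := {θ | ρ θ ≤ Real.exp K}

open Classical in
/-- the potential on the sphere -/
noncomputable def VV (L K G C₀ : ℝ) (ρ R r₁ : Sp N → ℝ) (θ : Sp N) : ℝ :=
  if ρ θ ≤ Real.exp K then
    be N L * (ht (hR R θ) + 1 / 1000 * ht (hR R θ) ^ 2) - G * r₁ θ ^ N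
  else 1 / 2 * (Real.log (ρ θ) + C₀)

/-- the quadratic form on the sphere -/
noncomputable def QQ (V : Sp N → ℝ) (T : E N → ℝ) : ℝ :=
  av (fun θ : Sp N => Gs T (θ : E N)) / N - ((N : ℝ) - 1) / N * av (fun θ => rs T 1 θ ^ 2) -
    av (fun θ => V θ * rs T 1 θ ^ 2)

end

/-- the volume of the unit ball -/
noncomputable def vB (N : ℕ) : ℝ := volume.real (ball (0 : E N) 1)

/-- (CF) the form in polar coordinates. -/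
def T_CF : Prop := ∀ (N : ℕ) (L : ℝ) (v : E N → ℝ), 3 ≤ N → TF univ v →
  (∀ θ, RF N (fun r => rs v r θ) (fun r => dr v r θ)) ∧
  BM (fun θ => RR N L (fun r => rs v r θ) (fun r => dr v r θ)) ∧
  BM (fun θ => Mr N (fun r => rs v r θ)) ∧ BM (fun θ => Tr N L (fun r => rs v r θ)) ∧
  BM (WT L v) ∧ (∀ θ, 0 < NP N L → 0 ≤ WT L v θ) ∧
  EL L v = ar N * (av (fun θ => RR N L (fun r => rs v r θ) (fun r => dr v r θ)) +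
    ((∫ r in (0 : ℝ)..bb N, r ^ (N - 3) * av (fun θ : Sp N => Gs (fun y => v (r • y)) (θ : E N))) -
      ((N : ℝ) - 1) * av (fun θ => Mr N (fun r => rs v r θ)))) ∧
  ∫ x, v x ^ 2 ≤ bb N ^ 2 * (ar N * av (fun θ => Mr N (fun r => rs v r θ))) ∧
  ∫ x, ‖fderiv ℝ v x‖ ^ 2 ≥ ((N : ℝ) - 2) ^ 2 / 4 * (ar N * av (fun θ => Mr N (fun r => rs v r θ)))

/-- (TS) the coefficient of the profile. -/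
def T_TS : Prop := ∀ (N : ℕ) (L : ℝ), 3 ≤ N →
  (∀ v : E N → ℝ, ContDiff ℝ (⊤ : ℕ∞) v → ContDiff ℝ (⊤ : ℕ∞) (TT L v)) ∧
  (∀ v w : E N → ℝ, Continuous v → Continuous w → ∀ y,
    TT L (fun x => v x + w x) y = TT L v y + TT L w y) ∧
  (∀ (k : ℝ) (v : E N → ℝ) (y : E N), TT L (fun x => k * v x) y = k * TT L v y) ∧
  ∀ u v : E N → ℝ, (∀ x, ‖x‖ ≤ 1 → u x = v x) → ∀ y, ‖y‖ ≤ 1 → TT L u y = TT L v y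

/-- (LSD) the logarithmic Sobolev inequality on the sphere. -/
def T_LSD : Prop := ∀ (N : ℕ) (f : E N → ℝ) (Φ : Sp N → ℝ), 3 ≤ N → ContDiff ℝ (⊤ : ℕ∞) f →
  BM Φ → av (fun θ => Φ θ * rs f 1 θ ^ 2) ≤
    2 / ((N : ℝ) - 2) * av (fun θ : Sp N => Gs f (θ : E N)) +
      Real.log (av fun θ => Real.exp (Φ θ)) * av (fun θ => rs f 1 θ ^ 2)

/-- (AG) the angular energy. -/
def T_AG : Prop := ∀ (N : ℕ) (L : ℝ) (v : E N → ℝ) (Φ : Sp N → ℝ), 3 ≤ N → Fz N L →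
  TF univ v → BM Φ →
  NP N L * av (fun θ : Sp N => Gs (TT L v) (θ : E N)) +
      ((N : ℝ) - 2) / 2 * (av (fun θ => Φ θ * WT L v θ) -
        Real.log (av fun θ => Real.exp (Φ θ)) * av (WT L v)) ≤
    ∫ r in (0 : ℝ)..bb N, r ^ (N - 3) * av (fun θ : Sp N => Gs (fun y => v (r • y)) (θ : E N))

/-- (RT) reduction to the sphere. -/
def T_RT : Prop := ∃ C₀ : ℝ, 1 ≤ C₀ ∧ ∀ K G : ℝ, 1 ≤ K → 0 ≤ G → ∃ K₂ : ℝ, 1 ≤ K₂ ∧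
  ∀ K₁ : ℝ, K₂ ≤ K₁ → ∃ (κ : ℝ) (N₀ : ℕ), 0 < κ ∧ 3 ≤ N₀ ∧
  ∀ (N : ℕ) (L : ℝ) (Ω : Set (E N)) (R r₁ : Sp N → ℝ) (v : E N → ℝ), N₀ ≤ N → Fz N L →
    IsOpen Ω → Ey Ω (aa N K₁) R r₁ →
    av ((Gk K (rho Ω))ᶜ.indicator (rho Ω)) ≤ κ → TF Ω v →
    ar N * (N * NP N L * QQ (VV L K G C₀ (rho Ω) R r₁) (TT L v) + N * av (WT L v)) ≤ EL L v

/-! ### Part 4: the far part -/

/-- (FC) removal of the far part. -/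
def T_FC : Prop := ∃ (κ : ℝ) (N₀ : ℕ), 0 < κ ∧ 3 ≤ N₀ ∧ ∀ (N : ℕ) (L : ℝ) (Ω : Set (E N))
  (v : E N → ℝ), N₀ ≤ N → Fz N L → IsOpen Ω →
  volume.real (Ω \ ball 0 1) ≤ κ * vB N → volume Ω ≠ ⊤ → ContDiff ℝ (⊤ : ℕ∞) v →
  HasCompactSupport v → tsupport v ⊆ Ω → (∃ δ : ℝ, 0 < δ ∧ ∀ x, ‖x‖ ≤ δ → v x = 0) →
  ∃ u y : E N → ℝ, TF Ω u ∧ Continuous y ∧ HasCompactSupport y ∧ (∀ x, ‖x‖ ≤ 1 → u x = v x) ∧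
    (∀ x, u x ^ 2 + y x ^ 2 = v x ^ 2) ∧
    EL L u - N / 8 * (∫ x in {x | 1 ≤ ‖x‖}, u x ^ 2) + N * (∫ x, y x ^ 2) ≤ EL L v

/-- (RT2) reduction to the sphere for arbitrary test functions. -/
def T_RT2 : Prop := ∃ C₀ : ℝ, 1 ≤ C₀ ∧ ∀ K G : ℝ, 1 ≤ K → 0 ≤ G → ∃ K₂ : ℝ, 1 ≤ K₂ ∧
  ∀ K₁ : ℝ, K₂ ≤ K₁ → ∃ (κ : ℝ) (N₀ : ℕ), 0 < κ ∧ 3 ≤ N₀ ∧
  ∀ (N : ℕ) (L : ℝ) (Ω : Set (E N)) (R r₁ : Sp N → ℝ) (v : E N → ℝ), N₀ ≤ N → Fz N L →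
    IsOpen Ω → volume Ω ≠ ⊤ → volume.real (symmDiff Ω (ball 0 1)) ≤ κ * vB N →
    Ey Ω (aa N K₁) R r₁ → ContDiff ℝ (⊤ : ℕ∞) v → HasCompactSupport v → tsupport v ⊆ Ω →
    (∃ δ : ℝ, 0 < δ ∧ ∀ x, ‖x‖ ≤ δ → v x = 0) →
    ∃ W : ℝ, 0 ≤ W ∧
      ∫ x, v x ^ 2 ≤ 4 * ar N * (NP N L * av (fun θ => rs (TT L v) 1 θ ^ 2) + W) ∧
      ar N * (N * NP N L * QQ (VV L K G C₀ (rho Ω) R r₁) (TT L v) + N / 2 * W) ≤ EL L v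

/-- (BL) the first eigenvalue of the ball. -/
def T_BL : Prop := ∀ (N : ℕ) (L : ℝ), 3 ≤ N → Fz N L →
  L ≤ (1 + 4 * ((N : ℝ) - 1) / ((N : ℝ) - 2) ^ 2) * lam N 1 (ball (0 : E N) 1) ∧
  lam N 1 (ball (0 : E N) 1) ≤ L - ((N : ℝ) - 1)

/-! ### Part 5: the sphere -/

/-- (GX) Green's formula for linear functions, and expansion of the angular energy. -/
def T_GX : Prop := ∀ (N : ℕ) (f g : E N → ℝ) (i : Fin N), 2 ≤ N → ContDiff ℝ (⊤ : ℕ∞) f →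
  ContDiff ℝ (⊤ : ℕ∞) g →
  av (fun θ : Sp N => Gb f (fun x => x i) (θ : E N)) =
    ((N : ℝ) - 1) * av (fun θ : Sp N => f (θ : E N) * (θ : E N) i) ∧
  av (fun θ : Sp N => Gs (fun x => f x + g x) (θ : E N)) =
    av (fun θ : Sp N => Gs f (θ : E N)) + 2 * av (fun θ : Sp N => Gb f g (θ : E N)) +
      av (fun θ : Sp N => Gs g (θ : E N)) ∧
  av (fun θ : Sp N => Gs (fun x => x i) (θ : E N)) = ((N : ℝ) - 1) / N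

/-- (L4) the part of degree `1` of a function, by Hölder's inequality. -/
def T_L4 : Prop := ∀ (N : ℕ) (F : Sp N → ℝ), 2 ≤ N → BM F →
  n1 F ≤ 2 * av (fun θ => |F θ| ^ (4 / 3 : ℝ)) ^ (3 / 2 : ℝ) ∧ n1 F ≤ av (fun θ => F θ ^ 2) ∧
  n1 F ≤ N * av (fun θ => |F θ|) ^ 2

/-- (TRU) smooth truncation. -/
def T_TRU : Prop := ∀ M : ℝ, 0 < M → ∃ t t' : ℝ → ℝ, ContDiff ℝ (⊤ : ℕ∞) t ∧
  (∀ x, HasDerivAt t (t' x) x) ∧ (∀ x, 0 ≤ t' x ∧ t' x ≤ 1) ∧ (∀ x, |x| ≤ M → t x = x) ∧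
  ∀ x, |t x| ≤ 2 * M

/-- (VP) the form with a positive potential. -/
def T_VP : Prop := ∀ s : ℝ, 0 < s → s ≤ 1 → ∃ (κ : ℝ) (N₀ : ℕ), 0 < κ ∧ 3 ≤ N₀ ∧
  ∀ (N : ℕ) (ω : E N → ℝ) (V : Sp N → ℝ), N₀ ≤ N → ContDiff ℝ (⊤ : ℕ∞) ω → BM V →
    (∀ θ, 0 ≤ V θ) → av (fun θ => Real.exp (2 * N / ((N : ℝ) - 2) * V θ)) ≤ 1 + κ →
    (1 - s) * (((N : ℝ) - 1) / N * n1 (rs ω 1) + 2 * n2 (rs ω 1) + 3 * n3 (rs ω 1)) -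
        s * av (fun θ => rs ω 1 θ ^ 2) ≤
      av (fun θ : Sp N => Gs ω (θ : E N)) / N - av (fun θ => V θ * rs ω 1 θ ^ 2)

/-- (N2) the parts of degree `2` of the functions `φ θ_i`. -/
def T_N2 : Prop := ∀ (N : ℕ) (φ : Sp N → ℝ) (t : ℝ), 2 ≤ N → BM φ → 0 < t →
  ∑ i, n2 (fun θ => φ θ * (θ : E N) i) ≤
    (1 + t) * n1 φ + (1 + 1 / t) * (3 / ((N : ℝ) + 4)) * av (fun θ => φ θ ^ 2)

/-- (XN) mixed terms. -/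
def T_XN : Prop := ∀ (N : ℕ) (F ω : Sp N → ℝ) (c₁ c₂ c₃ : ℝ), 2 ≤ N → BM F → BM ω →
  av ω = 0 → 0 < c₁ → 0 < c₂ → 0 < c₃ →
  -(n1 F / c₁ + n2 F / c₂ + n3 F / c₃) ≤
    2 * av (fun θ => F θ * ω θ) + c₁ * n1 ω + c₂ * n2 ω + c₃ * n3 ω

section

variable {N : ℕ}

/-- the data on the sphere: `ρ` volume of the rays, `R` first exit, `d` volume beyond the first
exit, `H` volume of the inner holes, `Hb` bound for the holes, `k` moments, `kf` far moments -/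
structure MD (K κ κ' far k₀ : ℝ) (ρ R d H Hb k kf : Sp N → ℝ) : Prop where
  bρ : BM ρ
  bR : BM R
  bd : BM d
  bH : BM H
  bHb : BM Hb
  bk : BM k
  bkf : BM kf
  Rlb : ∃ δ : ℝ, 0 < δ ∧ ∀ θ, δ ≤ R θ
  rel : ∀ θ, R θ ^ N + d θ = ρ θ + H θ
  d0 : ∀ θ, 0 ≤ d θ ∧ d θ ≤ ρ θ
  H0 : ∀ θ, 0 ≤ H θ ∧ H θ ≤ Hb θ
  H1 : ∀ θ, H θ ≤ 1
  cl : av (fun θ => |ρ θ - 1|) ≤ κ
  clH : av H ≤ κ
  vol : far - κ' ≤ 1 - av ρ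
  far0 : 0 ≤ far
  far1 : far ≤ κ
  k'0 : 0 ≤ κ'
  k'1 : κ' ≤ κ
  cen : ∀ j, av (fun θ => k θ * (θ : E N) j) = 0
  kf0 : ∀ θ, 0 ≤ kf θ
  kf1 : av kf ≤ Real.exp (-Real.sqrt N) * far
  ka : ∀ θ, |hR R θ| ≤ 1 / 4 → |k θ - k₀ - kf θ - hR R θ| ≤
    4 * hR R θ ^ 2 + K / N * |hR R θ| + 2 * d θ + 2 * Real.sqrt (Hb θ)
  kb : ∀ θ, |k θ - k₀ - kf θ| ≤ 10 * Real.sqrt (max (ρ θ) 1)

/-- the right-hand side of the main inequality on the sphere -/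
noncomputable def MM (K C₀ : ℝ) (ρ R : Sp N → ℝ) : ℝ :=
  -av ((Gk K ρ).indicator fun θ => psi (hR R θ)) -
    (1 / 4 + 1 / 50) * (av ((Gk K ρ).indicator fun θ => phi (hR R θ) ^ 2) +
      n1 ((Gk K ρ).indicator fun θ => phi (hR R θ))) -
    1 / 500 * av ((Gk K ρ).indicator fun θ => ht (hR R θ) ^ 2) -
    av ((Gk K ρ)ᶜ.indicator fun θ =>
      (Real.log (ρ θ) + C₀) + 100 * (Real.log (ρ θ) + C₀) ^ 2)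

/-- the distance from the ball on the sphere -/
noncomputable def Dst (K : ℝ) (ρ R d : Sp N → ℝ) : ℝ :=
  av ((Gk K ρ).indicator fun θ => min (hR R θ ^ 2) 1) + av ((Gk K ρ).indicator d) +
    av ((Gk K ρ)ᶜ.indicator ρ)

end

/-- (VI) the volume identity. -/
def T_VI : Prop := ∀ (N : ℕ) (K : ℝ) (ρ R d H : Sp N → ℝ), 2 ≤ N → BM ρ → BM R → BM d → BM H →
  (∃ δ : ℝ, 0 < δ ∧ ∀ θ, δ ≤ R θ) → (∀ θ, R θ ^ N + d θ = ρ θ + H θ) →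
  -av ((Gk K ρ).indicator fun θ => psi (hR R θ)) =
    av ((Gk K ρ).indicator fun θ => R θ ^ N - 1 - psi (hR R θ)) + av ((Gk K ρ).indicator d) +
      av ((Gk K ρ)ᶜ.indicator fun θ => ρ θ - 1) - av ((Gk K ρ).indicator H) + (1 - av ρ)

/-- (MI1) the main inequality on the sphere if much volume lies beyond the first exit. -/
def T_MI1 : Prop := ∀ C₀ : ℝ, 1 ≤ C₀ → ∃ K₃ : ℝ, 1 ≤ K₃ ∧ ∀ K z : ℝ, K₃ ≤ K → 0 < z →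
  ∃ (κ : ℝ) (N₀ : ℕ), 0 < κ ∧ 3 ≤ N₀ ∧
  ∀ (N : ℕ) (κ' far k₀ : ℝ) (ρ R d H Hb k kf : Sp N → ℝ), N₀ ≤ N →
    MD K κ κ' far k₀ ρ R d H Hb k kf →
    z ≤ av ((Gk K ρ).indicator d) + av ((Gk K ρ)ᶜ.indicator ρ) →
    1 / 100 * Dst K ρ R d + 1 / 4 * far - κ' - 10 * av ((Gk K ρ).indicator Hb) ≤ MM K C₀ ρ R

/-- (MI2) the main inequality on the sphere if little volume lies beyond the first exit. -/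
def T_MI2 : Prop := ∀ C₀ : ℝ, 1 ≤ C₀ → ∃ K₃ : ℝ, 1 ≤ K₃ ∧ ∀ K : ℝ, K₃ ≤ K →
  ∃ (κ z : ℝ) (N₀ : ℕ), 0 < κ ∧ 0 < z ∧ 3 ≤ N₀ ∧
  ∀ (N : ℕ) (κ' far k₀ : ℝ) (ρ R d H Hb k kf : Sp N → ℝ), N₀ ≤ N →
    MD K κ κ' far k₀ ρ R d H Hb k kf →
    av ((Gk K ρ).indicator d) + av ((Gk K ρ)ᶜ.indicator ρ) ≤ z →
    1 / 100 * Dst K ρ R d + 1 / 4 * far - κ' - 10 * av ((Gk K ρ).indicator Hb) ≤ MM K C₀ ρ R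

/-- (MI) the main inequality on the sphere. -/
def T_MI : Prop := ∀ C₀ : ℝ, 1 ≤ C₀ → ∃ K₃ : ℝ, 1 ≤ K₃ ∧ ∀ K : ℝ, K₃ ≤ K →
  ∃ (κ : ℝ) (N₀ : ℕ), 0 < κ ∧ 3 ≤ N₀ ∧
  ∀ (N : ℕ) (κ' far k₀ : ℝ) (ρ R d H Hb k kf : Sp N → ℝ), N₀ ≤ N →
    MD K κ κ' far k₀ ρ R d H Hb k kf →
    1 / 100 * Dst K ρ R d + 1 / 4 * far - κ' - 10 * av ((Gk K ρ).indicator Hb) ≤ MM K C₀ ρ R

/-- (VT) exponential integrability of the positive part of the potential. -/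
def T_VT : Prop := ∀ C₀ K κ₁ : ℝ, 1 ≤ C₀ → 1 ≤ K → 0 < κ₁ → ∃ (κ : ℝ) (N₀ : ℕ), 0 < κ ∧ 3 ≤ N₀ ∧
  ∀ (N : ℕ) (L : ℝ) (ρ R d H : Sp N → ℝ), N₀ ≤ N → Fz N L → BM ρ → BM R → BM d → BM H →
    (∃ δ : ℝ, 0 < δ ∧ ∀ θ, δ ≤ R θ) → (∀ θ, R θ ^ N + d θ = ρ θ + H θ) → (∀ θ, 0 ≤ d θ) →
    (∀ θ, 0 ≤ H θ ∧ H θ ≤ 1) → (∀ θ, 0 ≤ ρ θ ∧ ρ θ ≤ bb N ^ N) →
    av (fun θ => |ρ θ - 1|) ≤ κ → av H ≤ κ →
    ∃ V : Sp N → ℝ, BM V ∧ (∀ θ, 0 ≤ V θ) ∧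
      av (fun θ => Real.exp (2 * N / ((N : ℝ) - 2) * V θ)) ≤ 1 + κ₁ ∧
      (∀ θ, ρ θ ≤ Real.exp K → be N L * max (hR R θ) 0 + 2 * be N L * (1 / 1000) *
        ht (hR R θ) ^ 2 ≤ V θ + 3 / 1000) ∧
      ∀ θ, Real.exp K < ρ θ → 1 / 2 * (Real.log (ρ θ) + C₀) ≤ V θ

/-- (A4) the sum over the directions. -/
def T_A4 : Prop := ∀ (C₀ K G : ℝ), 1 ≤ C₀ → 1 ≤ K → 0 ≤ G → ∃ K₂ : ℝ, 1 ≤ K₂ ∧
  ∀ K₁ : ℝ, K₂ ≤ K₁ → ∃ (κ : ℝ) (N₀ : ℕ), 0 < κ ∧ 3 ≤ N₀ ∧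
  ∀ (N : ℕ) (L : ℝ) (ρ R d H r₁ : Sp N → ℝ) (T : Fin N → E N → ℝ), N₀ ≤ N → Fz N L →
    BM ρ → BM R → BM d → BM H → BM r₁ →
    (∃ δ : ℝ, 0 < δ ∧ ∀ θ, δ ≤ R θ) → (∀ θ, R θ ^ N + d θ = ρ θ + H θ) → (∀ θ, 0 ≤ d θ) →
    (∀ θ, 0 ≤ H θ ∧ H θ ≤ 1) → (∀ θ, 0 ≤ ρ θ ∧ ρ θ ≤ bb N ^ N) →
    (∀ θ, 0 ≤ r₁ θ ∧ r₁ θ ≤ aa N K₁) →
    av (fun θ => |ρ θ - 1|) ≤ κ → av H ≤ κ →
    (∀ i, ContDiff ℝ (⊤ : ℕ∞) (T i) ∧ av (rs (T i) 1) = 0 ∧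
      ∀ j, c1 (rs (T i) 1) j = if i = j then 1 else 0) →
    be N L * (MM K C₀ ρ R + G / 2 * av ((Gk K ρ).indicator fun θ => r₁ θ ^ N)) ≤
      ∑ i, QQ (VV L K G C₀ ρ R r₁) (T i)

/-- (A5) positivity in degree at least `2`. -/
def T_A5 : Prop := ∀ (C₀ K G : ℝ), 1 ≤ C₀ → 1 ≤ K → 0 ≤ G → ∃ K₂ : ℝ, 1 ≤ K₂ ∧
  ∀ K₁ : ℝ, K₂ ≤ K₁ → ∃ (κ : ℝ) (N₀ : ℕ), 0 < κ ∧ 3 ≤ N₀ ∧
  ∀ (N : ℕ) (L : ℝ) (ρ R d H r₁ : Sp N → ℝ) (T : E N → ℝ), N₀ ≤ N → Fz N L →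
    BM ρ → BM R → BM d → BM H → BM r₁ →
    (∃ δ : ℝ, 0 < δ ∧ ∀ θ, δ ≤ R θ) → (∀ θ, R θ ^ N + d θ = ρ θ + H θ) → (∀ θ, 0 ≤ d θ) →
    (∀ θ, 0 ≤ H θ ∧ H θ ≤ 1) → (∀ θ, 0 ≤ ρ θ ∧ ρ θ ≤ bb N ^ N) →
    (∀ θ, 0 ≤ r₁ θ ∧ r₁ θ ≤ aa N K₁) →
    av (fun θ => |ρ θ - 1|) ≤ κ → av H ≤ κ →
    ContDiff ℝ (⊤ : ℕ∞) T → av (rs T 1) = 0 → (∀ j, c1 (rs T 1) j = 0) →
    1 / 2 * av (fun θ => rs T 1 θ ^ 2) ≤ QQ (VV L K G C₀ ρ R r₁) T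

/-- (A3) one function. -/
def T_A3 : Prop := ∀ (C₀ K G : ℝ), 1 ≤ C₀ → 1 ≤ K → 0 ≤ G → ∃ K₂ : ℝ, 1 ≤ K₂ ∧
  ∀ K₁ : ℝ, K₂ ≤ K₁ → ∃ (κ : ℝ) (N₀ : ℕ), 0 < κ ∧ 3 ≤ N₀ ∧
  ∀ (N : ℕ) (L : ℝ) (ρ R d H r₁ : Sp N → ℝ) (T : E N → ℝ), N₀ ≤ N → Fz N L →
    BM ρ → BM R → BM d → BM H → BM r₁ →
    (∃ δ : ℝ, 0 < δ ∧ ∀ θ, δ ≤ R θ) → (∀ θ, R θ ^ N + d θ = ρ θ + H θ) → (∀ θ, 0 ≤ d θ) →
    (∀ θ, 0 ≤ H θ ∧ H θ ≤ 1) → (∀ θ, 0 ≤ ρ θ ∧ ρ θ ≤ bb N ^ N) →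
    (∀ θ, 0 ≤ r₁ θ ∧ r₁ θ ≤ aa N K₁) →
    av (fun θ => |ρ θ - 1|) ≤ κ → av H ≤ κ → ContDiff ℝ (⊤ : ℕ∞) T →
    be N L * (MM K C₀ ρ R + G / 2 * av ((Gk K ρ).indicator fun θ => r₁ θ ^ N)) *
        av (rs T 1) ^ 2 + 1 / 1000 * (av (fun θ => rs T 1 θ ^ 2) - av (rs T 1) ^ 2) ≤
      QQ (VV L K G C₀ ρ R r₁) T + ((N : ℝ) - 1) / N * av (fun θ => rs T 1 θ ^ 2)

/-! ### Part 6: volumes and moments -/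

/-- (VE) the first exit and the last hole. -/
def T_VE : Prop := ∀ (N : ℕ) (Ω : Set (E N)) (a : ℝ), 3 ≤ N → IsOpen Ω → 0 < a → a ≤ 1 →
  ∃ R r₁, Ey Ω a R r₁

/-- (VR) the volume of a ray. -/
def T_VR : Prop := ∀ (N : ℕ) (Ω : Set (E N)) (a : ℝ) (R r₁ : Sp N → ℝ), 3 ≤ N → IsOpen Ω →
  0 < a → a ≤ 1 → Ey Ω a R r₁ → BM (rho Ω) ∧ BM R ∧ BM r₁ ∧ BM (ds Ω R) ∧ BM (Hh Ω a) ∧
    ∀ θ, R θ ^ N + ds Ω R θ = rho Ω θ + Hh Ω a θ ∧ 0 ≤ ds Ω R θ ∧ ds Ω R θ ≤ rho Ω θ ∧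
      0 ≤ Hh Ω a θ ∧ Hh Ω a θ ≤ r₁ θ ^ N ∧ rho Ω θ ≤ bb N ^ N

/-- (VM) means of the volumes of the rays. -/
def T_VM : Prop := ∀ (N : ℕ) (Ω : Set (E N)) (a : ℝ), 3 ≤ N → IsOpen Ω → volume Ω ≠ ⊤ →
  0 < a → a ≤ 1 →
  vB N * av (rho Ω) = volume.real (Ω ∩ ball 0 (bb N)) ∧
  vB N * av (fun θ => |rho Ω θ - 1|) ≤ volume.real (symmDiff Ω (ball 0 1)) ∧
  vB N * av (Hh Ω a) ≤ volume.real (ball (0 : E N) 1 \ Ω)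

/-- (VS) the missing part of the unit ball. -/
def T_VS : Prop := ∀ (N : ℕ) (Ω : Set (E N)) (a K : ℝ) (R r₁ : Sp N → ℝ), 3 ≤ N → IsOpen Ω →
  volume Ω ≠ ⊤ → 0 < a → a ≤ 1 → 1 ≤ K → Ey Ω a R r₁ →
  volume.real (ball (0 : E N) 1 \ Ω) ≤ vB N *
    (Real.sqrt (Dst K (rho Ω) R (ds Ω R)) + Dst K (rho Ω) R (ds Ω R) +
      av ((Gk K (rho Ω)).indicator fun θ => r₁ θ ^ N))

/-- (KC) the moments. -/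
def T_KC : Prop := ∃ (K₄ : ℝ) (N₀ : ℕ), 1 ≤ K₄ ∧ 3 ≤ N₀ ∧ ∀ (N : ℕ) (Ω : Set (E N)) (a : ℝ)
  (R r₁ : Sp N → ℝ), N₀ ≤ N → IsOpen Ω → volume Ω ≠ ⊤ → 0 < a → a ≤ 1 → Ey Ω a R r₁ →
  (∀ i, ∫ x in Ω, x i * Real.exp (-(N / 4) * ‖x‖ ^ 2) = 0) →
  ∃ (k₀ : ℝ) (k kf : Sp N → ℝ), BM k ∧ BM kf ∧ (∀ j, av (fun θ => k θ * (θ : E N) j) = 0) ∧
    (∀ θ, 0 ≤ kf θ) ∧
    av kf ≤ Real.exp (-Real.sqrt N) * (volume.real (Ω \ ball 0 (bb N)) / vB N) ∧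
    (∀ θ, |hR R θ| ≤ 1 / 4 → |k θ - k₀ - kf θ - hR R θ| ≤
      4 * hR R θ ^ 2 + K₄ / N * |hR R θ| + 2 * ds Ω R θ + 2 * Real.sqrt (r₁ θ ^ N)) ∧
    ∀ θ, |k θ - k₀ - kf θ| ≤ 10 * Real.sqrt (max (rho Ω θ) 1)

/-- (MD) the data of a set. -/
def T_MD : Prop := ∃ K₄ : ℝ, 1 ≤ K₄ ∧ ∀ K κ : ℝ, K₄ ≤ K → 0 < κ → ∃ (κ₁ : ℝ) (N₀ : ℕ), 0 < κ₁ ∧
  3 ≤ N₀ ∧ ∀ (N : ℕ) (Ω : Set (E N)) (a κ' : ℝ) (R r₁ : Sp N → ℝ), N₀ ≤ N → IsOpen Ω →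
  volume Ω ≠ ⊤ → 0 < a → a ≤ 1 → Ey Ω a R r₁ →
  (∀ i, ∫ x in Ω, x i * Real.exp (-(N / 4) * ‖x‖ ^ 2) = 0) →
  volume.real (symmDiff Ω (ball 0 1)) ≤ κ₁ * vB N → 0 ≤ κ' → κ' ≤ κ₁ →
  volume.real Ω ≤ (1 + κ') * vB N →
  ∃ (k₀ : ℝ) (k kf : Sp N → ℝ), MD K κ κ' (volume.real (Ω \ ball 0 (bb N)) / vB N) k₀
    (rho Ω) R (ds Ω R) (Hh Ω a) (fun θ => r₁ θ ^ N) k kf

/-! ### Part 7: the centre -/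

/-- (CG) critical points of the Gaussian potential. -/
def T_CG : Prop := ∀ (N : ℕ) (Ω : Set (E N)), 2 ≤ N → MeasurableSet Ω → volume Ω ≠ ⊤ →
  0 < volume Ω → ∃ o : E N, (∀ z : E N, ∫ x in Ω, Real.exp (-(N / 4) * ‖x - z‖ ^ 2) ≤
    ∫ x in Ω, Real.exp (-(N / 4) * ‖x - o‖ ^ 2)) ∧
    ∀ i, ∫ x in Ω, (x i - o i) * Real.exp (-(N / 4) * ‖x - o‖ ^ 2) = 0

/-- (CN) the centre, dimension-free. -/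
def T_CN : Prop := ∀ s : ℝ, 0 < s → ∃ (κ : ℝ) (N₀ : ℕ), 0 < κ ∧ 3 ≤ N₀ ∧ ∀ (N : ℕ)
  (Ω : Set (E N)) (c : E N), N₀ ≤ N → IsOpen Ω → volume Ω ≠ ⊤ →
  volume.real (symmDiff Ω (ball c 1)) ≤ κ * vB N → ∃ o : E N,
    volume.real (symmDiff Ω (ball o 1)) ≤ s * vB N ∧
    ∀ i, ∫ x in Ω, (x i - o i) * Real.exp (-(N / 4) * ‖x - o‖ ^ 2) = 0

/-! ### Part 8: the local theorems -/

/-- (CAP) a point has capacity zero. -/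
def T_CAP : Prop := ∀ (N n : ℕ) (Ω : Set (E N)) (o : E N) (γ ε : ℝ), 3 ≤ N → 1 ≤ n → IsOpen Ω →
  γ ∈ adm N n Ω → 0 < ε → γ + ε ∈ adm N n (Ω \ {o})

/-- (LM) dimension-free local minimality for centred sets. -/
def T_LM0 : Prop := ∃ (κ : ℝ) (N₀ : ℕ), 0 < κ ∧ 3 ≤ N₀ ∧ ∀ (N : ℕ) (L γ : ℝ) (Ω : Set (E N)),
  N₀ ≤ N → Fz N L → IsOpen Ω → volume Ω = volume (ball (0 : E N) 1) →
  volume.real (symmDiff Ω (ball 0 1)) ≤ κ * vB N →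
  (∀ i, ∫ x in Ω, x i * Real.exp (-(N / 4) * ‖x‖ ^ 2) = 0) → (0 : E N) ∉ Ω →
  γ ∈ adm N (N + 1) Ω → L ≤ γ

/-- (LM) dimension-free local minimality. -/
def T_LM : Prop := ∃ (κ : ℝ) (N₀ : ℕ), 0 < κ ∧ 3 ≤ N₀ ∧ ∀ (N : ℕ) (L γ : ℝ) (Ω : Set (E N))
  (c : E N), N₀ ≤ N → Fz N L → IsOpen Ω → volume Ω = volume (ball (0 : E N) 1) →
  volume.real (symmDiff Ω (ball c 1)) ≤ κ * vB N → γ ∈ adm N (N + 1) Ω → L ≤ γ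

/-- (LS0) dimension-free local stability of the first eigenvalue for centred sets. -/
def T_LS0 : Prop := ∃ δ₀ : ℝ, 0 < δ₀ ∧ ∀ δ : ℝ, 0 < δ → δ ≤ δ₀ → ∃ (c z : ℝ) (N₀ : ℕ), 0 < c ∧
  0 < z ∧ 3 ≤ N₀ ∧ ∀ (N : ℕ) (L γ : ℝ) (Ω : Set (E N)), N₀ ≤ N → Fz N L → IsOpen Ω →
  volume Ω ≠ ⊤ → volume.real Ω ≤ (1 + z) * vB N →
  volume.real (symmDiff Ω (ball 0 1)) ≤ δ₀ * vB N →
  δ * vB N ≤ volume.real (symmDiff Ω (ball 0 1)) →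
  (∀ i, ∫ x in Ω, x i * Real.exp (-(N / 4) * ‖x‖ ^ 2) = 0) → (0 : E N) ∉ Ω →
  γ ∈ adm N 1 Ω → L - N + c * N ≤ γ

/-- (LS) dimension-free local stability of the first eigenvalue. -/
def T_LS : Prop := ∃ δ₀ : ℝ, 0 < δ₀ ∧ ∀ δ : ℝ, 0 < δ → δ ≤ δ₀ → ∃ (c z : ℝ) (N₀ : ℕ), 0 < c ∧
  0 < z ∧ 3 ≤ N₀ ∧ ∀ (N : ℕ) (Ω : Set (E N)), N₀ ≤ N → IsOpen Ω →
  volume Ω ≠ ⊤ → volume.real Ω ≤ (1 + z) * vB N →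
  (∃ o : E N, volume.real (symmDiff Ω (ball o 1)) ≤ δ₀ * vB N) →
  (∀ o : E N, δ * vB N ≤ volume.real (symmDiff Ω (ball o 1))) →
  lam N 1 (ball (0 : E N) 1) + c * N ≤ lam N 1 Ω

/-! ### Part 9: the global part -/

/-- (C1) the first eigenvalue is close to the first eigenvalue of the ball. -/
def T_C1 : Prop := ∀ ε : ℝ, 0 < ε → ∃ N₀ : ℕ, 3 ≤ N₀ ∧ ∀ (N : ℕ) (Ω : Set (E N)), N₀ ≤ N →
  IsOpen Ω → volume Ω = volume (ball (0 : E N) 1) →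
  lam N (N + 1) Ω ≤ lam N (N + 1) (ball (0 : E N) 1) →
  lam N 1 Ω ≤ lam N 1 (ball (0 : E N) 1) + ε * N

/-- (C2) the path. -/
def T_C2 : Prop := ∀ (N : ℕ) (d z : ℝ) (Ω : Set (E N)), 1 ≤ N → 0 < d → 0 < z → IsOpen Ω →
  volume Ω = volume (ball (0 : E N) 1) →
  (∀ o : E N, d * vB N < volume.real (symmDiff Ω (ball o 1))) →
  ∃ Ω' : Set (E N), IsOpen Ω' ∧ Bornology.IsBounded Ω' ∧ volume.real Ω' ≤ (1 + z) * vB N ∧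
    (∀ o : E N, (d - z) * vB N ≤ volume.real (symmDiff Ω' (ball o 1))) ∧
    (∃ o : E N, volume.real (symmDiff Ω' (ball o 1)) ≤ (d + z) * vB N) ∧
    lam N 1 Ω' ≤ lam N 1 Ω + z

/-- (CL) closeness to a ball. -/
def T_CL : Prop := ∀ δ : ℝ, 0 < δ → ∃ N₀ : ℕ, 3 ≤ N₀ ∧ ∀ (N : ℕ) (Ω : Set (E N)), N₀ ≤ N →
  IsOpen Ω → volume Ω = volume (ball (0 : E N) 1) →
  lam N (N + 1) Ω ≤ lam N (N + 1) (ball (0 : E N) 1) →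
  ∃ o : E N, volume.real (symmDiff Ω (ball o 1)) ≤ δ * vB N

/-- (LNN) the theorem. -/
def T_LNN : Prop := ∃ N₀ : ℕ, ∀ (N : ℕ) (r : ℝ) (Ω : Set (E N)), N₀ ≤ N → 0 < r → IsOpen Ω →
  volume Ω = volume (ball (0 : E N) r) → lam N (N + 1) (ball (0 : E N) r) ≤ lam N (N + 1) Ω

end Pool.Agent.H69.LNN
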