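import Pool.Agent.H69.LNN.Targets

set_option autoImplicit false

/-!
# MP_8f7db2_an: quantitative form in all dimensions `N ≥ N₀`
-/

open MeasureTheory Metric Set
open scoped ENNReal

namespace Pool.Agent.H69.LNN

open Pool.Agent.H85.LK (E adm lam Ann)
open Pool.Agent.H69.LQ

/-- (A4Q) the sum over the directions, with remainder. -/
def T_A4Q : Prop := ∀ (C₀ K G : ℝ), 1 ≤ C₀ → 1 ≤ K → 0 ≤ G → ∃ K₂ : ℝ, 1 ≤ K₂ ∧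
  ∀ K₁ : ℝ, K₂ ≤ K₁ → ∃ (κ : ℝ) (N₀ : ℕ), 0 < κ ∧ 3 ≤ N₀ ∧
  ∀ (N : ℕ) (L : ℝ) (ρ R d H r₁ : Sp N → ℝ) (T : Fin N → E N → ℝ), N₀ ≤ N → Fz N L →
    BM ρ → BM R → BM d → BM H → BM r₁ →
    (∃ δ : ℝ, 0 < δ ∧ ∀ θ, δ ≤ R θ) → (∀ θ, R θ ^ N + d θ = ρ θ + H θ) → (∀ θ, 0 ≤ d θ) →
    (∀ θ, 0 ≤ H θ ∧ H θ ≤ 1) → (∀ θ, 0 ≤ ρ θ ∧ ρ θ ≤ bb N ^ N) →
    (∀ θ, 0 ≤ r₁ θ ∧ r₁ θ ≤ aa N K₁) →
    av (fun θ => |ρ θ - 1|) ≤ κ → av H ≤ κ →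
    (∀ i, ContDiff ℝ (⊤ : ℕ∞) (T i) ∧ av (rs (T i) 1) = 0 ∧
      ∀ j, c1 (rs (T i) 1) j = if i = j then 1 else 0) →
    be N L * (MM K C₀ ρ R + G / 2 * av ((Gk K ρ).indicator fun θ => r₁ θ ^ N)) +
      1 / 200 * ((∑ i, av (fun θ => rs (T i) 1 θ ^ 2)) - 1) ≤
      ∑ i, QQ (VV L K G C₀ ρ R r₁) (T i)

/-- (LMQ0) quantitative dimension-free local minimality for centred sets. -/
def T_LMQ0 : Prop := ∃ (κ c : ℝ) (N₀ : ℕ), 0 < κ ∧ 0 < c ∧ 3 ≤ N₀ ∧ ∀ (N : ℕ) (L γ : ℝ)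
  (Ω : Set (E N)), N₀ ≤ N → Fz N L → IsOpen Ω → volume Ω = volume (ball (0 : E N) 1) →
  volume.real (symmDiff Ω (ball 0 1)) ≤ κ * vB N →
  (∀ i, ∫ x in Ω, x i * Real.exp (-(N / 4) * ‖x‖ ^ 2) = 0) → (0 : E N) ∉ Ω →
  γ ∈ adm N (N + 1) Ω → L + c * N * (volume.real (symmDiff Ω (ball 0 1)) / vB N) ^ 2 ≤ γ

/-- (LMQ) quantitative dimension-free local minimality. -/
def T_LMQ : Prop := ∃ (κ c : ℝ) (N₀ : ℕ), 0 < κ ∧ 0 < c ∧ 3 ≤ N₀ ∧ ∀ (N : ℕ) (L : ℝ)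
  (Ω : Set (E N)) (z : E N), N₀ ≤ N → Fz N L → IsOpen Ω →
  volume Ω = volume (ball (0 : E N) 1) → volume.real (symmDiff Ω (ball z 1)) ≤ κ * vB N →
  ∃ o : E N, ∀ γ ∈ adm N (N + 1) Ω,
    L + c * N * (volume.real (symmDiff Ω (ball o 1)) / vB N) ^ 2 ≤ γ

/-- (C1Q) the first eigenvalue is close to the first eigenvalue of the ball. -/
def T_C1Q : Prop := ∀ ε : ℝ, 0 < ε → ∃ (η : ℝ) (N₀ : ℕ), 0 < η ∧ 3 ≤ N₀ ∧ ∀ (N : ℕ)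
  (Ω : Set (E N)), N₀ ≤ N → IsOpen Ω → volume Ω = volume (ball (0 : E N) 1) →
  lam N (N + 1) Ω ≤ lam N (N + 1) (ball (0 : E N) 1) + η * N →
  lam N 1 Ω ≤ lam N 1 (ball (0 : E N) 1) + ε * N

/-- (CLQ) closeness to a ball. -/
def T_CLQ : Prop := ∀ δ : ℝ, 0 < δ → ∃ (η : ℝ) (N₀ : ℕ), 0 < η ∧ 3 ≤ N₀ ∧ ∀ (N : ℕ)
  (Ω : Set (E N)), N₀ ≤ N → IsOpen Ω → volume Ω = volume (ball (0 : E N) 1) →
  lam N (N + 1) Ω ≤ lam N (N + 1) (ball (0 : E N) 1) + η * N →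
  ∃ o : E N, volume.real (symmDiff Ω (ball o 1)) ≤ δ * vB N

/-- (LNQ) the quantitative theorem. -/
def T_LNQ : Prop := ∃ (c : ℝ) (N₀ : ℕ), 0 < c ∧ ∀ (N : ℕ) (r : ℝ) (Ω : Set (E N)), N₀ ≤ N →
  0 < r → IsOpen Ω → volume Ω = volume (ball (0 : E N) r) → ∃ o : E N,
    lam N (N + 1) (ball (0 : E N) r) *
      (1 + c / N * (volume.real (symmDiff Ω (ball o r)) / volume.real (ball (0 : E N) r)) ^ 2) ≤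
      lam N (N + 1) Ω

end Pool.Agent.H69.LNN
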