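import Pool.Agent.H69.LQ.Lib
import Pool.Agent.H69.LNN.Targets

set_option autoImplicit false

/-!
# MP_8f7db2_an, all dimensions: closed facts on bounded measurable functions on the sphere
-/

open MeasureTheory Metric Set
open scoped ENNReal

namespace Pool.Agent.H69.LNN

open Pool.Agent.H85.LK (E adm lam Ann)
open Pool.Agent.H69.LQ

variable {N : ℕ}

/-! ### Bounded measurable functions -/

theorem BM_ind {F : Sp N → ℝ} (hF : BM F) {s : Set (Sp N)} (hs : MeasurableSet s) :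
    BM (s.indicator F) := by
  obtain ⟨h1, M, hM⟩ := hF
  refine ⟨h1.indicator hs, M, fun θ => ?_⟩
  by_cases h : θ ∈ s
  · rw [indicator_of_mem h]; exact hM θ
  · rw [indicator_of_notMem h, abs_zero]; exact (abs_nonneg _).trans (hM θ)

/-- a measurable function, bounded on the range of `F`, composed with `F` -/
theorem BM_comp_le {F : Sp N → ℝ} (hF : BM F) {g : ℝ → ℝ} (hg : Measurable g)
    (hb : ∀ M : ℝ, ∃ C : ℝ, ∀ t, |t| ≤ M → |g t| ≤ C) : BM (fun θ => g (F θ)) := by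
  obtain ⟨h1, M, hM⟩ := hF
  obtain ⟨C, hC⟩ := hb M
  exact ⟨hg.comp h1, C, fun θ => hC _ (hM θ)⟩

theorem BM_max {F G : Sp N → ℝ} (hF : BM F) (hG : BM G) : BM (fun θ => max (F θ) (G θ)) := by
  obtain ⟨h1, M, hM⟩ := hF
  obtain ⟨h2, M', hM'⟩ := hG
  refine ⟨h1.max h2, M + M', fun θ => ?_⟩
  have a1 := hM θ
  have a2 := hM' θ
  have b1 := abs_nonneg (F θ)
  have b2 := abs_nonneg (G θ)
  show |max (F θ) (G θ)| ≤ _
  rcases le_total (F θ) (G θ) with h | h
  · rw [max_eq_right h]; linarith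
  · rw [max_eq_left h]; linarith

theorem BM_min {F G : Sp N → ℝ} (hF : BM F) (hG : BM G) : BM (fun θ => min (F θ) (G θ)) := by
  obtain ⟨h1, M, hM⟩ := hF
  obtain ⟨h2, M', hM'⟩ := hG
  refine ⟨h1.min h2, M + M', fun θ => ?_⟩
  have a1 := hM θ
  have a2 := hM' θ
  have b1 := abs_nonneg (F θ)
  have b2 := abs_nonneg (G θ)
  show |min (F θ) (G θ)| ≤ _
  rcases le_total (F θ) (G θ) with h | h
  · rw [min_eq_left h]; linarith
  · rw [min_eq_right h]; linarith

open Classical in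
theorem BM_ite {p : Sp N → Prop} {F G : Sp N → ℝ} (hp : MeasurableSet {θ | p θ}) (hF : BM F)
    (hG : BM G) : BM (fun θ => if p θ then F θ else G θ) := by
  obtain ⟨h1, M, hM⟩ := hF
  obtain ⟨h2, M', hM'⟩ := hG
  refine ⟨Measurable.ite hp h1 h2, M + M', fun θ => ?_⟩
  have a1 := hM θ
  have a2 := hM' θ
  have b1 := abs_nonneg (F θ)
  have b2 := abs_nonneg (G θ)
  show |if p θ then F θ else G θ| ≤ _
  by_cases h : p θ
  · rw [if_pos h]; linarith
  · rw [if_neg h]; linarith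

theorem meas_ht : Measurable ht := measurable_id.max measurable_const

theorem meas_phi : Measurable phi :=
  Measurable.ite (measurableSet_le measurable_const measurable_id) measurable_id measurable_const

theorem meas_psi : Measurable psi :=
  Measurable.ite (measurableSet_le measurable_const measurable_id) measurable_id measurable_const

theorem ht_of_le {t : ℝ} (h : -(3 / 2) ≤ t) : ht t = t := max_eq_left h

theorem ht_of_lt {t : ℝ} (h : t < -(3 / 2)) : ht t = -(3 / 2) := max_eq_right h.le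

theorem phi_of_le {t : ℝ} (h : -(3 / 2) ≤ t) : phi t = t := if_pos h

theorem phi_of_lt {t : ℝ} (h : t < -(3 / 2)) : phi t = -1 := if_neg (not_le.mpr h)

theorem psi_of_le {t : ℝ} (h : -(3 / 2) ≤ t) : psi t = t := if_pos h

theorem psi_of_lt {t : ℝ} (h : t < -(3 / 2)) : psi t = -(4 / 3) := if_neg (not_le.mpr h)

theorem ht_ge (t : ℝ) : -(3 / 2) ≤ ht t := le_max_right _ _

theorem le_ht (t : ℝ) : t ≤ ht t := le_max_left _ _

theorem abs_ht_le (t : ℝ) : |ht t| ≤ |t| + 3 / 2 := by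
  rcases le_or_gt (-(3 / 2)) t with h | h
  · rw [ht_of_le h]; linarith
  · rw [ht_of_lt h, abs_neg, abs_of_pos (by norm_num : (0 : ℝ) < 3 / 2)]
    linarith [abs_nonneg t]

theorem abs_phi_le (t : ℝ) : |phi t| ≤ |t| + 1 := by
  rcases le_or_gt (-(3 / 2)) t with h | h
  · rw [phi_of_le h]; linarith
  · rw [phi_of_lt h, abs_neg, abs_one]
    linarith [abs_nonneg t]

theorem abs_psi_le (t : ℝ) : |psi t| ≤ |t| + 4 / 3 := by
  rcases le_or_gt (-(3 / 2)) t with h | h
  · rw [psi_of_le h]; linarith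
  · rw [psi_of_lt h, abs_neg, abs_of_pos (by norm_num : (0 : ℝ) < 4 / 3)]
    linarith [abs_nonneg t]

theorem BM_ht {F : Sp N → ℝ} (hF : BM F) : BM (fun θ => ht (F θ)) :=
  BM_comp_le hF meas_ht fun M => ⟨M + 3 / 2, fun t h => (abs_ht_le t).trans (by linarith)⟩

theorem BM_phi {F : Sp N → ℝ} (hF : BM F) : BM (fun θ => phi (F θ)) :=
  BM_comp_le hF meas_phi fun M => ⟨M + 1, fun t h => (abs_phi_le t).trans (by linarith)⟩

theorem BM_psi {F : Sp N → ℝ} (hF : BM F) : BM (fun θ => psi (F θ)) :=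
  BM_comp_le hF meas_psi fun M => ⟨M + 4 / 3, fun t h => (abs_psi_le t).trans (by linarith)⟩

/-- the exponent of the first exit is bounded and measurable -/
theorem BM_hR {R : Sp N → ℝ} (h0 : BM R) (h : ∃ δ : ℝ, 0 < δ ∧ ∀ θ, δ ≤ R θ) : BM (hR R) := by
  obtain ⟨h1, M, hM⟩ := h0
  obtain ⟨δ, hδ, hl⟩ := h
  refine ⟨(Real.measurable_log.comp h1).const_mul _, N * (|Real.log δ| + |Real.log M|),
    fun θ => ?_⟩
  have a1 : Real.log δ ≤ Real.log (R θ) := Real.log_le_log hδ (hl θ)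
  have a2 : Real.log (R θ) ≤ Real.log M :=
    Real.log_le_log (lt_of_lt_of_le hδ (hl θ)) ((le_abs_self _).trans (hM θ))
  have a3 : |Real.log (R θ)| ≤ |Real.log δ| + |Real.log M| := by
    rw [abs_le]
    constructor
    · linarith [neg_abs_le (Real.log δ), abs_nonneg (Real.log M)]
    · linarith [le_abs_self (Real.log M), abs_nonneg (Real.log δ)]
  show |(N : ℝ) * Real.log (R θ)| ≤ _
  rw [abs_mul, abs_of_nonneg (Nat.cast_nonneg N : (0 : ℝ) ≤ N)]
  exact mul_le_mul_of_nonneg_left a3 (Nat.cast_nonneg N)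

/-- `R ^ N = exp (hR R)` -/
theorem exp_hR {R : Sp N → ℝ} {θ : Sp N} (h : 0 < R θ) : Real.exp (hR R θ) = R θ ^ N := by
  rw [hR, mul_comm, Real.exp_mul, Real.exp_log h, Real.rpow_natCast]

theorem meas_Gk {K : ℝ} {ρ : Sp N → ℝ} (h : BM ρ) : MeasurableSet (Gk K ρ) :=
  measurableSet_le h.1 measurable_const

theorem mem_Gk {K : ℝ} {ρ : Sp N → ℝ} {θ : Sp N} : θ ∈ Gk K ρ ↔ ρ θ ≤ Real.exp K := Iff.rfl

theorem not_mem_Gk {K : ℝ} {ρ : Sp N → ℝ} {θ : Sp N} : θ ∉ Gk K ρ ↔ Real.exp K < ρ θ := by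
  rw [mem_Gk, not_le]

/-! ### Means -/

/-- additivity over a set and its complement -/
theorem av_ind_add {F : Sp N → ℝ} (hF : BM F) {s : Set (Sp N)} (hs : MeasurableSet s) :
    av (s.indicator F) + av (sᶜ.indicator F) = av F := by
  rw [← av_add (BM_ind hF hs) (BM_ind hF hs.compl)]
  congr 1
  funext θ
  by_cases h : θ ∈ s
  · have h2 : θ ∉ sᶜ := fun h' => h' h
    rw [indicator_of_mem h, indicator_of_notMem h2, add_zero]
  · have h2 : θ ∈ sᶜ := h
    rw [indicator_of_notMem h, indicator_of_mem h2, zero_add]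

theorem av_ind_mono {F G : Sp N → ℝ} (hF : BM F) (hG : BM G) {s : Set (Sp N)}
    (hs : MeasurableSet s) (h : ∀ θ ∈ s, F θ ≤ G θ) : av (s.indicator F) ≤ av (s.indicator G) :=
  av_mono (BM_ind hF hs) (BM_ind hG hs) fun θ => by
    by_cases h' : θ ∈ s
    · rw [indicator_of_mem h', indicator_of_mem h']; exact h θ h'
    · rw [indicator_of_notMem h', indicator_of_notMem h']

theorem av_ind_nonneg {F : Sp N → ℝ} {s : Set (Sp N)} (h : ∀ θ ∈ s, 0 ≤ F θ) :
    0 ≤ av (s.indicator F) :=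
  av_nonneg fun _ => indicator_nonneg h _

theorem av_ind_le {F G : Sp N → ℝ} (hF : BM F) (hG : BM G) {s : Set (Sp N)}
    (hs : MeasurableSet s) (h : ∀ θ ∈ s, F θ ≤ G θ) (h0 : ∀ θ, 0 ≤ G θ) :
    av (s.indicator F) ≤ av G :=
  av_mono (BM_ind hF hs) hG fun θ => by
    by_cases h' : θ ∈ s
    · rw [indicator_of_mem h']; exact h θ h'
    · rw [indicator_of_notMem h']; exact h0 θ

end Pool.Agent.H69.LNN
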