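import Pool.Agent.H69.LNN.Lib

set_option autoImplicit false

/-!
# MP_8f7db2_an, all dimensions: pointwise inequalities for the potential, scaling of the norms
-/

open MeasureTheory Metric Set
open scoped ENNReal

namespace Pool.Agent.H69.LNN

open Pool.Agent.H85.LK (E adm lam Ann)
open Pool.Agent.H69.LQ

/-- rays of small volume -/
theorem pt_small (b g V h s w : ℝ) (hb : 0 ≤ b) (hg : 0 ≤ g)
    (hV : b * max h 0 + 2 * b * (1 / 1000) * ht h ^ 2 ≤ V + 3 / 1000) :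
    (b * (ht h + 1 / 1000 * ht h ^ 2) - g) * (s + w) ^ 2 ≤
      b * psi h * s ^ 2 + 2 * b * phi h * (s * w) + (V + 3 / 1000) * w ^ 2 +
        b / 500 * ht h ^ 2 * s ^ 2 - g * (1 / 2 * s ^ 2 - w ^ 2) := by
  have h1 : g * (1 / 2 * s ^ 2 - w ^ 2) ≤ g * (s + w) ^ 2 :=
    mul_le_mul_of_nonneg_left (by nlinarith [sq_nonneg (s + 2 * w)]) hg
  have h2 : b * (1 / 1000 * ht h ^ 2) * (s + w) ^ 2 ≤
      b * (1 / 1000 * ht h ^ 2) * (2 * s ^ 2 + 2 * w ^ 2) :=
    mul_le_mul_of_nonneg_left (by nlinarith [sq_nonneg (s - w)]) (by positivity)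
  have h3 : b * ht h * (s + w) ^ 2 ≤
      b * psi h * s ^ 2 + 2 * b * phi h * (s * w) + b * max h 0 * w ^ 2 := by
    rcases le_or_gt (-(3 / 2)) h with hh | hh
    · rw [ht_of_le hh, psi_of_le hh, phi_of_le hh]
      have : b * h * w ^ 2 ≤ b * max h 0 * w ^ 2 :=
        mul_le_mul_of_nonneg_right (mul_le_mul_of_nonneg_left (le_max_left _ _) hb) (sq_nonneg _)
      nlinarith
    · rw [ht_of_lt hh, psi_of_lt hh, phi_of_lt hh, max_eq_right (by linarith)]
      have : 0 ≤ b * ((1 / 6) * (s + 3 * w) ^ 2) := by positivity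
      nlinarith
  have h4 : (b * max h 0 + 2 * b * (1 / 1000) * ht h ^ 2) * w ^ 2 ≤ (V + 3 / 1000) * w ^ 2 :=
    mul_le_mul_of_nonneg_right hV (sq_nonneg _)
  nlinarith

/-- rays of large volume -/
theorem pt_large (l V s w : ℝ) (hV : l ≤ V) :
    l * (s + w) ^ 2 ≤ (l + 200 * l ^ 2) * s ^ 2 + (V + 1 / 200) * w ^ 2 := by
  have h1 : l * w ^ 2 ≤ V * w ^ 2 := mul_le_mul_of_nonneg_right hV (sq_nonneg _)
  nlinarith [sq_nonneg (200 * l * s - w)]

variable {N : ℕ}

/-- scaling of the norms -/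
theorem c1_const_mul (k : ℝ) (F : Sp N → ℝ) (j : Fin N) :
    c1 (fun θ => k * F θ) j = k * c1 F j := by
  unfold c1
  have : (fun θ : Sp N => k * F θ * (θ : E N) j) = fun θ => k * (F θ * (θ : E N) j) := by
    funext θ; ring
  rw [this, av_const_mul]; ring

theorem c2_const_mul (k : ℝ) (F : Sp N → ℝ) (j l : Fin N) :
    c2 (fun θ => k * F θ) j l = k * c2 F j l := by
  unfold c2
  have : (fun θ : Sp N => k * F θ * ((θ : E N) j * (θ : E N) l)) =
      fun θ => k * (F θ * ((θ : E N) j * (θ : E N) l)) := by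
    funext θ; ring
  rw [this, av_const_mul, av_const_mul]
  split_ifs <;> ring

theorem r3_const_mul (k : ℝ) (F : Sp N → ℝ) (θ : Sp N) :
    r3 (fun θ => k * F θ) θ = k * r3 F θ := by
  unfold r3
  simp only [c1_const_mul, c2_const_mul, av_const_mul, mul_sub, Finset.mul_sum, mul_assoc]

theorem n1_const_mul (k : ℝ) (F : Sp N → ℝ) : n1 (fun θ => k * F θ) = k ^ 2 * n1 F := by
  unfold n1
  simp only [c1_const_mul, mul_pow, ← Finset.mul_sum]
  ring

theorem n2_const_mul (k : ℝ) (F : Sp N → ℝ) : n2 (fun θ => k * F θ) = k ^ 2 * n2 F := by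
  unfold n2
  simp only [c2_const_mul, mul_pow, ← Finset.mul_sum]
  ring

theorem n3_const_mul (k : ℝ) (F : Sp N → ℝ) : n3 (fun θ => k * F θ) = k ^ 2 * n3 F := by
  unfold n3
  simp only [r3_const_mul, mul_pow]
  rw [av_const_mul]

theorem n0_nonneg (F : Sp N → ℝ) : 0 ≤ n0 F := sq_nonneg _

theorem n1_nonneg (F : Sp N → ℝ) : 0 ≤ n1 F :=
  div_nonneg (Finset.sum_nonneg fun _ _ => sq_nonneg _) (Nat.cast_nonneg N)

theorem n2_nonneg (F : Sp N → ℝ) : 0 ≤ n2 F :=
  mul_nonneg (by positivity)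
    (Finset.sum_nonneg fun _ _ => Finset.sum_nonneg fun _ _ => sq_nonneg _)

theorem n3_nonneg (F : Sp N → ℝ) : 0 ≤ n3 F := av_nonneg fun _ => sq_nonneg _

/-- `n1` vanishes if the coefficients of degree one vanish -/
theorem n1_eq_zero {F : Sp N → ℝ} (h : ∀ j, c1 F j = 0) : n1 F = 0 := by
  unfold n1
  simp [h]

end Pool.Agent.H69.LNN
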