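import Pool.Agent.H69.LNN.A4b
import Pool.Agent.H69.LNN.Targets2

set_option autoImplicit false

/-!
# MP_8f7db2_an, all dimensions: the sum over the directions, with remainder
-/

open MeasureTheory Metric Set
open scoped ENNReal

namespace Pool.Agent.H69.LNN

open Pool.Agent.H85.LK (E adm lam Ann)
open Pool.Agent.H69.LQ

variable {N : ℕ}

/-- the inequality for one direction -/
theorem a4q_one (hMO : T_MO) (hPY : T_PY) (hGX : T_GX) (hXN : T_XN) (hN : 3 ≤ N) (b : ℝ)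
    (f V W M : Sp N → ℝ) (g : Sp N → ℝ) (T : E N → ℝ) (i : Fin N) (hb : 0 ≤ b)
    (hf : BM f) (hV : BM V) (hW : BM W) (hM : BM M) (hg : BM g)
    (hT : ContDiff ℝ (⊤ : ℕ∞) T) (hT0 : av (rs T 1) = 0)
    (hT1 : ∀ j, c1 (rs T 1) j = if i = j then 1 else 0)
    (hg1 : ∀ θ, g θ ≤ 1 / 1000)
    (hpt : ∀ (θ : Sp N) (s w : ℝ), W θ * (s + w) ^ 2 ≤ M θ * s ^ 2 + 2 * b * f θ * (s * w) +
      (V θ + 1 / 200) * w ^ 2 + g θ * w ^ 2)
    (hVP : ∀ ω : E N → ℝ, ContDiff ℝ (⊤ : ℕ∞) ω →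
      (1 - 1 / 1000) * (((N : ℝ) - 1) / N * n1 (rs ω 1) + 2 * n2 (rs ω 1) + 3 * n3 (rs ω 1)) -
        1 / 1000 * av (fun θ => rs ω 1 θ ^ 2) ≤
      av (fun θ : Sp N => Gs ω (θ : E N)) / N - av (fun θ => V θ * rs ω 1 θ ^ 2)) :
    -av (fun θ => M θ * (θ : E N) i ^ 2) - b ^ 2 * (n2 (fun θ => f θ * (θ : E N) i) / (98 / 100) +
      n3 (fun θ => f θ * (θ : E N) i) / (197 / 100)) +
      1 / 200 * (av (fun θ => rs T 1 θ ^ 2) - 1 / N) ≤ QQ W T := by
  have hN0 : (0 : ℝ) < N := by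
    have : 0 < N := by omega
    exact_mod_cast this
  have hN2 : 2 ≤ N := by omega
  have hcoord : ContDiff ℝ (⊤ : ℕ∞) (fun x : E N => x i) := by fun_prop
  set ω : E N → ℝ := fun x => T x - x i with hω
  have hωs : ContDiff ℝ (⊤ : ℕ∞) ω := hT.sub hcoord
  have hcT : Continuous fun θ : Sp N => rs T 1 θ := by
    unfold rs
    exact hT.continuous.comp (by fun_prop)
  have hbT : BM (rs T 1) := BM_cont hcT
  have hbω : BM (rs ω 1) := by
    apply BM_cont
    unfold rs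
    exact hωs.continuous.comp (by fun_prop)
  have hrs : ∀ θ : Sp N, rs ω 1 θ = rs T 1 θ - (θ : E N) i := by
    intro θ
    simp [rs, hω, one_smul]
  have hrsT : ∀ θ : Sp N, rs T 1 θ = (θ : E N) i + rs ω 1 θ := by
    intro θ; rw [hrs]; ring
  have hx : BM fun θ : Sp N => (θ : E N) i := BM_coord i
  obtain ⟨m1, m2, m3, -, -⟩ := hMO N hN2
  have h0 : av (rs ω 1) = 0 := by
    have : rs ω 1 = fun θ => rs T 1 θ - (θ : E N) i := by funext θ; exact hrs θ
    rw [this, av_sub hbT hx, hT0, m2 i]; ring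
  have h1 : ∀ j, c1 (rs ω 1) j = 0 := by
    intro j
    have e1 : (fun θ : Sp N => rs ω 1 θ * (θ : E N) j) =
        fun θ => rs T 1 θ * (θ : E N) j - (θ : E N) i * (θ : E N) j := by
      funext θ; rw [hrs]; ring
    unfold c1
    rw [e1, av_sub (hbT.mul (BM_coord j)) (hx.mul (BM_coord j)), m3 i j, mul_sub]
    have e2 : (N : ℝ) * av (fun θ : Sp N => rs T 1 θ * (θ : E N) j) = if i = j then 1 else 0 :=
      hT1 j
    rw [e2]
    split_ifs
    · field_simp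
      ring
    · ring
  have hn1 : n1 (rs ω 1) = 0 := n1_eq_zero h1
  -- the angular energy
  obtain ⟨g1, g2, -⟩ := hGX N ω (fun x => x i) i hN2 hωs hcoord
  obtain ⟨-, -, g3⟩ := hGX N ω (fun x => x i) i hN2 hωs hcoord
  have eT : T = fun x => ω x + x i := by funext x; simp [hω]
  have eω : av (fun θ : Sp N => ω (θ : E N) * (θ : E N) i) = 0 := by
    have e1 := h1 i
    unfold c1 at e1
    have e2 : av (fun θ : Sp N => rs ω 1 θ * (θ : E N) i) = 0 :=
      (mul_eq_zero.mp e1).resolve_left hN0.ne'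
    have e3 : (fun θ : Sp N => ω (θ : E N) * (θ : E N) i) =
        fun θ : Sp N => rs ω 1 θ * (θ : E N) i := by
      funext θ; simp [rs, one_smul]
    rw [e3, e2]
  have eG : av (fun θ : Sp N => Gs T (θ : E N)) =
      av (fun θ : Sp N => Gs ω (θ : E N)) + ((N : ℝ) - 1) / N := by
    have e1 : (fun θ : Sp N => Gs T (θ : E N)) =
        fun θ : Sp N => Gs (fun x => ω x + x i) (θ : E N) := by
      rw [← eT]
    rw [e1, g2, g1, g3, eω]; ring
  have eS : av (fun θ => rs T 1 θ ^ 2) = av (fun θ => rs ω 1 θ ^ 2) + 1 / N := by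
    have e1 : (fun θ => rs T 1 θ ^ 2) = fun θ : Sp N => rs ω 1 θ ^ 2 +
        (2 * (rs ω 1 θ * (θ : E N) i) + (θ : E N) i * (θ : E N) i) := by
      funext θ; rw [hrsT]; ring
    have e2 : av (fun θ : Sp N => rs ω 1 θ * (θ : E N) i) = 0 := by
      rw [← eω]; congr 1; funext θ; simp [rs, one_smul]
    rw [e1, av_add (hbω.pow 2) (((hbω.mul hx).const_mul 2).add (hx.mul hx)),
      av_add ((hbω.mul hx).const_mul 2) (hx.mul hx), av_const_mul, e2, m3 i i, if_pos rfl]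
    ring
  -- the potential
  have eV : av (fun θ => W θ * rs T 1 θ ^ 2) ≤ av (fun θ => M θ * (θ : E N) i ^ 2) +
      2 * b * av (fun θ => (f θ * (θ : E N) i) * rs ω 1 θ) + av (fun θ => V θ * rs ω 1 θ ^ 2) +
      (1 / 200 + 1 / 1000) * av (fun θ => rs ω 1 θ ^ 2) := by
    have b1 := hM.mul (hx.pow 2)
    have b2 := (hf.mul hx).mul hbω
    have b3 := hV.mul (hbω.pow 2)
    have b4 := hbω.pow 2
    have e1 : av (fun θ => W θ * rs T 1 θ ^ 2) ≤ av (fun θ => M θ * (θ : E N) i ^ 2 +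
      (2 * b * ((f θ * (θ : E N) i) * rs ω 1 θ) + (V θ * rs ω 1 θ ^ 2 +
      (1 / 200 + 1 / 1000) * rs ω 1 θ ^ 2))) := by
      apply av_mono (hW.mul (hbT.pow 2)) (b1.add ((b2.const_mul _).add (b3.add (b4.const_mul _))))
      intro θ
      have e2 := hpt θ ((θ : E N) i) (rs ω 1 θ)
      have e3 : g θ * rs ω 1 θ ^ 2 ≤ 1 / 1000 * rs ω 1 θ ^ 2 :=
        mul_le_mul_of_nonneg_right (hg1 θ) (sq_nonneg _)
      rw [hrsT θ]
      linarith
    rw [av_add b1 ((b2.const_mul _).add (b3.add (b4.const_mul _))),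
      av_add (b2.const_mul _) (b3.add (b4.const_mul _)), av_add b3 (b4.const_mul _),
      av_const_mul, av_const_mul] at e1
    linarith
  -- the parts of different degree
  obtain ⟨p1, -⟩ := hPY N (rs ω 1) hN2 hbω
  have p2 : n0 (rs ω 1) = 0 := by unfold n0; rw [h0]; norm_num
  rw [p2, hn1, zero_add, zero_add] at p1
  have v1 := hVP ω hωs
  rw [hn1, p1] at v1
  have x1 := xn_lim hXN hN2 (F := fun θ => -b * (f θ * (θ : E N) i)) (ω := rs ω 1)
    (c₂ := 98 / 100) (c₃ := 197 / 100) ((hf.mul hx).const_mul _) hbω h0 hn1 (by norm_num)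
    (by norm_num)
  rw [n2_const_mul, n3_const_mul] at x1
  have x2 : av (fun θ => -b * (f θ * (θ : E N) i) * rs ω 1 θ) =
      -b * av (fun θ => (f θ * (θ : E N) i) * rs ω 1 θ) := by
    rw [← av_const_mul]; congr 1; funext θ; ring
  rw [x2] at x1
  have q2 := n2_nonneg (rs ω 1)
  have q3 := n3_nonneg (rs ω 1)
  have hNN : ((N : ℝ) - 1) / N ≤ 1 := by rw [div_le_one hN0]; linarith
  have hNN' : ((N : ℝ) - 1) / N * (n2 (rs ω 1) + n3 (rs ω 1)) ≤ n2 (rs ω 1) + n3 (rs ω 1) := by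
    nlinarith
  unfold QQ
  rw [eG, eS]
  rw [p1] at eV ⊢
  rw [show n2 (rs ω 1) + n3 (rs ω 1) + 1 / (N : ℝ) - 1 / N = n2 (rs ω 1) + n3 (rs ω 1) by ring]
  have k1 : (av (fun θ : Sp N => Gs ω (θ : E N)) + ((N : ℝ) - 1) / N) / N -
      ((N : ℝ) - 1) / N * (n2 (rs ω 1) + n3 (rs ω 1) + 1 / N) =
      av (fun θ : Sp N => Gs ω (θ : E N)) / N -
        ((N : ℝ) - 1) / N * (n2 (rs ω 1) + n3 (rs ω 1)) := by
    field_simp
    ring
  rw [k1]
  have k2 : (-b) ^ 2 * n2 (fun θ => f θ * (θ : E N) i) / (98 / 100) +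
      (-b) ^ 2 * n3 (fun θ => f θ * (θ : E N) i) / (197 / 100) =
      b ^ 2 * (n2 (fun θ => f θ * (θ : E N) i) / (98 / 100) +
      n3 (fun θ => f θ * (θ : E N) i) / (197 / 100)) := by ring
  rw [k2] at x1
  linarith


end Pool.Agent.H69.LNN
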