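import Pool.Agent.H69.LNN.A4Q

set_option autoImplicit false

/-!
# MP_8f7db2_an, all dimensions: the sum over the directions, with remainder, conclusion
-/

open MeasureTheory Metric Set
open scoped ENNReal

namespace Pool.Agent.H69.LNN

open Pool.Agent.H85.LK (E adm lam Ann)
open Pool.Agent.H69.LQ

variable {N : ℕ}

theorem pf_A4Q (hMO : T_MO) (hPY : T_PY) (hL2 : T_L2) (hNB : T_NB) (hGX : T_GX) (hVP : T_VP)
    (hN2 : T_N2) (hXN : T_XN) (hVT : T_VT) : T_A4Q := by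
  intro C₀ K G hC₀ hK hG
  obtain ⟨κP, N₁, hκP, hN₁, hP⟩ := hVP (1 / 1000) (by norm_num) (by norm_num)
  obtain ⟨κ, N₂, hκ, hN₂, hVT'⟩ := hVT C₀ K κP hC₀ hK hκP
  obtain ⟨N₃, hN₃, hB⟩ := be_bounds hL2 hNB
  refine ⟨max 1 (Real.log (1000 * (G + 1))), le_max_left _ _, fun K₁ hK₁ =>
    ⟨κ, max (max N₁ N₂) (max N₃ 60000), hκ,
      hN₁.trans ((le_max_left _ _).trans (le_max_left _ _)), ?_⟩⟩
  intro N L ρ R d H r₁ T hN hL hρ bR hd hH hr hRl hrel hd0 hH1 hρ1 hr1 hcl hclH hT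
  have hNN₁ : N₁ ≤ N := ((le_max_left _ _).trans (le_max_left _ _)).trans hN
  have hNN₂ : N₂ ≤ N := ((le_max_right _ _).trans (le_max_left _ _)).trans hN
  have hNN₃ : N₃ ≤ N := ((le_max_left _ _).trans (le_max_right _ _)).trans hN
  have hNN₄ : 60000 ≤ N := ((le_max_right _ _).trans (le_max_right _ _)).trans hN
  have hN3 : 3 ≤ N := hN₁.trans hNN₁
  have hN2' : 2 ≤ N := by omega
  obtain ⟨-, hb1, hb2⟩ := hB N L hNN₃ hL
  set b : ℝ := be N L with hbdef
  have hb0 : 0 ≤ b := by linarith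
  obtain ⟨V, hV, hV0, hVe, hVs, hVl⟩ := hVT' N L ρ R d H hNN₂ hL hρ bR hd hH hRl hrel hd0 hH1 hρ1
    hcl hclH
  have hVP' := fun ω hω => hP N ω V hNN₁ hω hV hV0 hVe
  have mG := meas_Gk (K := K) hρ
  have bh := BM_hR bR hRl
  set f : Sp N → ℝ := (Gk K ρ).indicator fun θ => phi (hR R θ) with hf
  have bf : BM f := BM_ind (BM_phi bh) mG
  set iψ : Sp N → ℝ := (Gk K ρ).indicator fun θ => psi (hR R θ) with hiψ
  have bψ : BM iψ := BM_ind (BM_psi bh) mG
  set iht : Sp N → ℝ := (Gk K ρ).indicator fun θ => ht (hR R θ) ^ 2 with hiht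
  have bht : BM iht := BM_ind ((BM_ht bh).pow 2) mG
  set ir : Sp N → ℝ := (Gk K ρ).indicator fun θ => r₁ θ ^ N with hir
  have br : BM ir := BM_ind (hr.pow N) mG
  set il : Sp N → ℝ := (Gk K ρ)ᶜ.indicator fun θ => Real.log (ρ θ) + C₀ with hil
  have bl : BM il := BM_log hρ K C₀
  set M : Sp N → ℝ := fun θ => b * iψ θ + (b / 500 * iht θ + (-(G / 2) * ir θ +
    (1 / 2 * il θ + 50 * il θ ^ 2))) with hM
  have bM : BM M := (bψ.const_mul _).add ((bht.const_mul _).add ((br.const_mul _).add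
    ((bl.const_mul _).add ((bl.pow 2).const_mul _))))
  have bW : BM (VV L K G C₀ ρ R r₁) := BM_VV hρ bR hRl hr
  have hGe : G * Real.exp (-K₁) ≤ 1 / 1000 := exp_small hG ((le_max_right _ _).trans hK₁)
  have hrN : ∀ θ, 0 ≤ r₁ θ ^ N ∧ r₁ θ ^ N ≤ Real.exp (-K₁) := by
    intro θ
    refine ⟨pow_nonneg (hr1 θ).1 _, ?_⟩
    rw [← aa_pow (N := N) (by omega)]
    exact pow_le_pow_left₀ (hr1 θ).1 (hr1 θ).2 N
  have hg1 : ∀ θ, G * ir θ ≤ 1 / 1000 := by
    intro θ
    by_cases h : θ ∈ Gk K ρ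
    · rw [hir, indicator_of_mem h]
      exact (mul_le_mul_of_nonneg_left (hrN θ).2 hG).trans hGe
    · rw [hir, indicator_of_notMem h]; norm_num
  have hpt : ∀ (θ : Sp N) (s w : ℝ), VV L K G C₀ ρ R r₁ θ * (s + w) ^ 2 ≤
      M θ * s ^ 2 + 2 * b * f θ * (s * w) + (V θ + 1 / 200) * w ^ 2 + (G * ir θ) * w ^ 2 := by
    intro θ s w
    by_cases h : θ ∈ Gk K ρ
    · have h2 : θ ∉ (Gk K ρ)ᶜ := fun h' => h' h
      have e1 := pt_small b (G * r₁ θ ^ N) (V θ) (hR R θ) s w hb0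
        (mul_nonneg hG (hrN θ).1) (hVs θ h)
      rw [VV_small h]
      simp only [hM, hf, hiψ, hiht, hir, hil, indicator_of_mem h, indicator_of_notMem h2]
      linarith [sq_nonneg w]
    · have h2 : θ ∈ (Gk K ρ)ᶜ := h
      have e1 := pt_large (1 / 2 * (Real.log (ρ θ) + C₀)) (V θ) s w (hVl θ (not_mem_Gk.mp h))
      rw [VV_large (not_mem_Gk.mp h)]
      simp only [hM, hf, hiψ, hiht, hir, hil, indicator_of_mem h2, indicator_of_notMem h]
      linarith [sq_nonneg w]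
  have hone : ∀ i : Fin N, -av (fun θ => M θ * (θ : E N) i ^ 2) -
      b ^ 2 * (n2 (fun θ => f θ * (θ : E N) i) / (98 / 100) +
      n3 (fun θ => f θ * (θ : E N) i) / (197 / 100)) +
      1 / 200 * (av (fun θ => rs (T i) 1 θ ^ 2) - 1 / N) ≤ QQ (VV L K G C₀ ρ R r₁) (T i) := by
    intro i
    obtain ⟨t1, t2, t3⟩ := hT i
    exact a4q_one hMO hPY hGX hXN hN3 b f V _ M (fun θ => G * ir θ) (T i) i hb0 bf hV bW bM
      (br.const_mul _) t1 t2 t3 hg1 hpt hVP'
  have hsum := Finset.sum_le_sum fun i (_ : i ∈ (Finset.univ : Finset (Fin N))) => hone i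
  refine le_trans ?_ hsum
  rw [Finset.sum_add_distrib, Finset.sum_sub_distrib, Finset.sum_neg_distrib, ← Finset.mul_sum,
    ← Finset.mul_sum, Finset.sum_add_distrib, ← Finset.sum_div, ← Finset.sum_div,
    Finset.sum_sub_distrib]
  have s0 : ∑ _i : Fin N, 1 / (N : ℝ) = 1 := by
    rw [Finset.sum_const, Finset.card_univ, Fintype.card_fin, nsmul_eq_mul]
    have : (N : ℝ) ≠ 0 := by
      have : 0 < N := by omega
      exact_mod_cast this.ne'
    field_simp
  rw [s0]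
  have s1 : ∑ i : Fin N, av (fun θ => M θ * (θ : E N) i ^ 2) = av M := by
    rw [← av_sum Finset.univ fun i _ => bM.mul ((BM_coord i).pow 2)]
    congr 1
    funext θ
    rw [← Finset.mul_sum, sum_sq_sp, mul_one]
  have s2 : ∑ i : Fin N, av (fun θ => (f θ * (θ : E N) i) ^ 2) = av (fun θ => f θ ^ 2) := by
    rw [← av_sum Finset.univ fun i _ => (bf.mul (BM_coord i)).pow 2]
    congr 1
    funext θ
    simp only [mul_pow]
    rw [← Finset.mul_sum, sum_sq_sp, mul_one]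
  have s3 : ∑ i : Fin N, (n2 (fun θ => f θ * (θ : E N) i) + n3 (fun θ => f θ * (θ : E N) i)) ≤
      av (fun θ => f θ ^ 2) := by
    rw [← s2]
    apply Finset.sum_le_sum
    intro i _
    obtain ⟨p1, -⟩ := hPY N _ hN2' (bf.mul (BM_coord i))
    rw [p1]
    have q0 := n0_nonneg fun θ : Sp N => f θ * (θ : E N) i
    have q1 := n1_nonneg fun θ : Sp N => f θ * (θ : E N) i
    linarith
  rw [Finset.sum_add_distrib] at s3
  have s4 := hN2 N f (1 / 100) hN2' bf (by norm_num)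
  set S2 : ℝ := ∑ i : Fin N, n2 (fun θ => f θ * (θ : E N) i) with hS2
  set S3 : ℝ := ∑ i : Fin N, n3 (fun θ => f θ * (θ : E N) i) with hS3
  set A : ℝ := av (fun θ => f θ ^ 2) with hA
  have hA0 : 0 ≤ A := av_sq_nonneg _
  have hn1 : 0 ≤ n1 f := n1_nonneg f
  have hS20 : 0 ≤ S2 := Finset.sum_nonneg fun i _ => n2_nonneg _
  have hNr : (60000 : ℝ) ≤ N := by exact_mod_cast hNN₄
  have s5 : (1 + 1 / (1 / 100)) * (3 / ((N : ℝ) + 4)) * A ≤ 1 / 100 * A := by
    apply mul_le_mul_of_nonneg_right _ hA0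
    rw [← mul_div_assoc, div_le_iff₀ (by linarith)]
    linarith
  have s6 : S2 / (98 / 100) + S3 / (197 / 100) ≤ 52 / 100 * (A + n1 f) := by
    have : S3 ≤ A - S2 := by linarith
    have e : (1 + 1 / 100) * n1 f = 101 / 100 * n1 f := by ring
    rw [e] at s4
    have h7 : S2 ≤ 1 / 100 * A + 101 / 100 * n1 f := by linarith
    rw [div_add_div _ _ (by norm_num) (by norm_num), div_le_iff₀ (by norm_num)]
    linarith
  have s7 : b ^ 2 * (S2 / (98 / 100) + S3 / (197 / 100)) ≤ b * ((1 / 4 + 1 / 50) * (A + n1 f)) := by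
    have e1 : b ^ 2 * (S2 / (98 / 100) + S3 / (197 / 100)) ≤
        b ^ 2 * (52 / 100 * (A + n1 f)) :=
      mul_le_mul_of_nonneg_left s6 (sq_nonneg b)
    have e2 : b ^ 2 * (52 / 100 * (A + n1 f)) = b * (b * (52 / 100 * (A + n1 f))) := by ring
    rw [e2] at e1
    refine e1.trans (mul_le_mul_of_nonneg_left ?_ hb0)
    have e3 : b * (52 / 100 * (A + n1 f)) ≤ 51 / 100 * (52 / 100 * (A + n1 f)) :=
      mul_le_mul_of_nonneg_right hb2 (by positivity)
    linarith
  have aM : av M = b * av iψ + (b / 500 * av iht + (-(G / 2) * av ir +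
      (1 / 2 * av il + 50 * av (fun θ => il θ ^ 2)))) := by
    rw [hM, av_add (bψ.const_mul _) ((bht.const_mul _).add ((br.const_mul _).add
      ((bl.const_mul _).add ((bl.pow 2).const_mul _)))),
      av_add (bht.const_mul _) ((br.const_mul _).add
      ((bl.const_mul _).add ((bl.pow 2).const_mul _))), av_add (br.const_mul _)
      ((bl.const_mul _).add ((bl.pow 2).const_mul _)), av_add (bl.const_mul _)
      ((bl.pow 2).const_mul _)]
    simp only [av_const_mul]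
  have hil0 : ∀ θ, 0 ≤ il θ := by
    intro θ
    by_cases h : θ ∈ Gk K ρ
    · have h2 : θ ∉ (Gk K ρ)ᶜ := fun h' => h' h
      rw [hil, indicator_of_notMem h2]
    · have h2 : θ ∈ (Gk K ρ)ᶜ := h
      rw [hil, indicator_of_mem h2]
      have h3 := not_mem_Gk.mp h
      have h4 : 0 ≤ Real.log (ρ θ) := by
        apply Real.log_nonneg
        exact (Real.one_le_exp (by linarith)).trans h3.le
      show 0 ≤ Real.log (ρ θ) + C₀
      linarith
  have hl0 : 0 ≤ av il := av_nonneg hil0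
  have hl2 : 0 ≤ av (fun θ => il θ ^ 2) := av_sq_nonneg _
  have hir0 : 0 ≤ av ir := av_ind_nonneg fun θ _ => (hrN θ).1
  have hMM : MM K C₀ ρ R = -av iψ - (1 / 4 + 1 / 50) * (A + n1 f) - 1 / 500 * av iht -
      (av il + 100 * av (fun θ => il θ ^ 2)) := by
    unfold MM
    have e1 : (Gk K ρ).indicator (fun θ => phi (hR R θ) ^ 2) = fun θ => f θ ^ 2 := by
      rw [hf, ind_sq]
    have e2 : ((Gk K ρ)ᶜ.indicator fun θ =>
        (Real.log (ρ θ) + C₀) + 100 * (Real.log (ρ θ) + C₀) ^ 2) =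
        fun θ => il θ + 100 * il θ ^ 2 := by
      funext θ
      by_cases h : θ ∈ Gk K ρ
      · have h2 : θ ∉ (Gk K ρ)ᶜ := fun h' => h' h
        simp only [hil, indicator_of_notMem h2]; norm_num
      · have h2 : θ ∈ (Gk K ρ)ᶜ := h
        simp only [hil, indicator_of_mem h2]
    rw [e1, e2, av_add bl ((bl.pow 2).const_mul _), av_const_mul]
  rw [hMM, s1, aM]
  have k1 : b * (G / 2 * av ir) ≤ G / 2 * av ir := by
    have : 0 ≤ G / 2 * av ir := by positivity
    exact mul_le_of_le_one_left this (by linarith)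
  have k2 : 1 / 2 * av il + 50 * av (fun θ => il θ ^ 2) ≤
      b * (av il + 100 * av (fun θ => il θ ^ 2)) := by
    have : 1 / 2 * (av il + 100 * av (fun θ => il θ ^ 2)) ≤
      b * (av il + 100 * av (fun θ => il θ ^ 2)) :=
      mul_le_mul_of_nonneg_right hb1 (by positivity)
    linarith
  linarith [s7, k1, k2]

end Pool.Agent.H69.LNN
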