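import Pool.Agent.H69.LNN.C2b

set_option autoImplicit false

/-!
# MP_8f7db2_an, all dimensions: the path of polarizations
-/

open MeasureTheory Metric Set Filter
open scoped ENNReal Topology

namespace Pool.Agent.H69.LNN

open Pool.Agent.H85.LK (E adm lam Phi)

variable {N : ℕ}

theorem ball_vol (hN : 1 ≤ N) {r : ℝ} (hr : 0 < r) :
    volume.real (ball (0 : E N) r) = r ^ N * vB N := by
  haveI : Nonempty (Fin N) := ⟨⟨0, hN⟩⟩
  have h1 := Measure.addHaar_ball_of_pos (volume : Measure (E N)) (0 : E N) hr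
  rw [finrank_euclideanSpace_fin] at h1
  unfold vB Measure.real
  rw [h1, ENNReal.toReal_mul, ENNReal.toReal_ofReal (by positivity)]

/-- a ball with a given volume -/
theorem exists_ball (hN : 1 ≤ N) {V : ℝ} (hV : 0 < V) (hV1 : V ≤ vB N) :
    ∃ r : ℝ, 0 < r ∧ r ≤ 1 ∧ volume.real (ball (0 : E N) r) = V := by
  have hv : 0 < vB N := ENNReal.toReal_pos (measure_ball_pos _ _ one_pos).ne'
    measure_ball_lt_top.ne
  have hN0 : (N : ℝ) ≠ 0 := by
    have : N ≠ 0 := by omega
    exact_mod_cast this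
  have h1 : 0 < V / vB N := div_pos hV hv
  have h2 : V / vB N ≤ 1 := (div_le_one hv).mpr hV1
  have hr0 : 0 < (V / vB N) ^ (1 / N : ℝ) := Real.rpow_pos_of_pos h1 _
  refine ⟨(V / vB N) ^ (1 / N : ℝ), hr0, Real.rpow_le_one h1.le h2 (by positivity), ?_⟩
  rw [ball_vol hN hr0, ← Real.rpow_natCast, ← Real.rpow_mul h1.le]
  rw [one_div, inv_mul_cancel₀ hN0, Real.rpow_one, div_mul_cancel₀ _ hv.ne']

theorem symm_le_of_sub {A B : Set (E N)} (hAB : A ⊆ B) (hA : MeasurableSet A)
    (hB : volume B ≠ ⊤) : volume.real (symmDiff B A) = volume.real B - volume.real A := by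
  have h1 : symmDiff B A = B \ A := by
    ext x
    constructor
    · rintro (h | h)
      · exact h
      · exact absurd (hAB h.1) h.2
    · intro h
      exact Or.inl h
  rw [h1, measureReal_diff hAB hA hB]

theorem pf_C2 : T_C2 := by
  intro N d z Ω hN hd hz hΩ hvol hfar
  have hv : 0 < vB N := ENNReal.toReal_pos (measure_ball_pos _ _ one_pos).ne'
    measure_ball_lt_top.ne
  have hfin : volume Ω ≠ ⊤ := by rw [hvol]; exact measure_ball_lt_top.ne
  have hΩr : volume.real Ω = vB N := by unfold vB Measure.real; rw [hvol]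
  -- the small volume
  obtain ⟨ε, hε⟩ : ∃ ε : ℝ, ε = min (min z d) 1 / 8 * vB N := ⟨_, rfl⟩
  have hm : 0 < min (min z d) 1 := lt_min (lt_min hz hd) one_pos
  have hε0 : 0 < ε := by rw [hε]; positivity
  have hεz : 8 * ε ≤ z * vB N := by
    rw [hε]
    have : min (min z d) 1 * vB N ≤ z * vB N :=
      mul_le_mul_of_nonneg_right ((min_le_left _ _).trans (min_le_left _ _)) hv.le
    linarith
  have hεd : 8 * ε ≤ d * vB N := by
    rw [hε]
    have : min (min z d) 1 * vB N ≤ d * vB N :=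
      mul_le_mul_of_nonneg_right ((min_le_left _ _).trans (min_le_right _ _)) hv.le
    linarith
  have hε1 : 8 * ε ≤ vB N := by
    rw [hε]
    have : min (min z d) 1 * vB N ≤ 1 * vB N :=
      mul_le_mul_of_nonneg_right (min_le_right _ _) hv.le
    linarith
  -- the test function
  have hΩne : Ω.Nonempty := by
    rw [nonempty_iff_ne_empty]
    intro h
    rw [h, measureReal_empty] at hΩr
    linarith
  have hne := Pool.Agent.H85.LNN.ne_all N 1 Ω hN hΩ hΩne
  obtain ⟨c, hc, hcl⟩ := exists_lt_of_csInf_lt hne (show lam N 1 Ω < lam N 1 Ω + z by linarith)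
  obtain ⟨V, hVdim, hV⟩ := hc
  obtain ⟨v, hvV, hv0⟩ : ∃ v ∈ V, v ≠ 0 := by
    by_contra hcon
    push Not at hcon
    have : V = ⊥ := (Submodule.eq_bot_iff V).mpr fun x hx => hcon x hx
    rw [this, finrank_bot] at hVdim
    omega
  obtain ⟨v1, v2, v3, v4⟩ := hV v hvV
  have hI0 : 0 < ∫ x, v x ^ 2 := by
    have hcs : HasCompactSupport fun x => v x ^ 2 :=
      v2.comp_left (g := fun z : ℝ => z ^ 2) (by norm_num)
    have hI : Integrable fun x => v x ^ 2 :=
      (v1.continuous.pow 2).integrable_of_hasCompactSupport hcs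
    rcases (integral_nonneg fun x => sq_nonneg (v x) : 0 ≤ ∫ x, v x ^ 2).lt_or_eq with h' | h'
    · exact h'
    · exfalso
      have h0 := h'.symm
      rw [integral_eq_zero_iff_of_nonneg (fun x => sq_nonneg _) hI] at h0
      have h1 : (fun x => v x ^ 2) = fun _ => (0 : ℝ) :=
        (Continuous.ae_eq_iff_eq volume (v1.continuous.pow 2) continuous_const).1 h0
      apply hv0
      funext x
      have := congrFun h1 x
      simpa using this
  -- the compact set
  obtain ⟨K, hK1, hK2, hK3⟩ := hΩ.exists_lt_isCompact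
    (show volume Ω - ENNReal.ofReal ε < volume Ω from by
      apply ENNReal.sub_lt_self hfin
      · rw [hvol]; exact (measure_ball_pos _ _ one_pos).ne'
      · exact (ENNReal.ofReal_pos.mpr hε0).ne')
  obtain ⟨A, hAd⟩ : ∃ A : Set (E N), A = K ∪ tsupport v := ⟨_, rfl⟩
  have hAc : IsCompact A := by rw [hAd]; exact hK2.union v2
  have hAΩ : A ⊆ Ω := by rw [hAd]; exact union_subset hK1 v3
  have hAfin : volume A ≠ ⊤ := hAc.measure_lt_top.ne
  have hAup : volume.real A ≤ vB N := by
    rw [← hΩr]; exact measureReal_mono hAΩ hfin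
  have hAlow : vB N - ε ≤ volume.real A := by
    have h1 : volume Ω ≤ volume A + ENNReal.ofReal ε := by
      have h2 : volume Ω ≤ volume K + ENNReal.ofReal ε := tsub_le_iff_right.mp hK3.le
      exact h2.trans (add_le_add_left (measure_mono (by rw [hAd]; exact subset_union_left)) _)
    have h3 := ENNReal.toReal_mono (ENNReal.add_ne_top.mpr ⟨hAfin, ENNReal.ofReal_ne_top⟩) h1
    rw [ENNReal.toReal_add hAfin ENNReal.ofReal_ne_top, ENNReal.toReal_ofReal hε0.le] at h3
    have h4 : (volume Ω).toReal = vB N := hΩr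
    have h5 : (volume A).toReal = volume.real A := rfl
    linarith
  obtain ⟨ρ0, hρ0⟩ := hAc.isBounded.subset_ball (0 : E N)
  obtain ⟨ρ, hρd⟩ : ∃ ρ : ℝ, ρ = max ρ0 1 := ⟨_, rfl⟩
  have hρ1 : 1 ≤ ρ := hρd ▸ le_max_right _ _
  have hρA : A ⊆ ball (0 : E N) ρ := hρ0.trans (ball_subset_ball (hρd ▸ le_max_left _ _))
  obtain ⟨r, hr, hr1, hrv⟩ := exists_ball (N := N) hN (V := volume.real A) (by linarith) hAup
  have hvolr : volume A = volume (ball (0 : E N) r) := by
    have h1 : (volume A).toReal = (volume (ball (0 : E N) r)).toReal := hrv.symm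
    rw [← ENNReal.ofReal_toReal hAfin, h1, ENNReal.ofReal_toReal measure_ball_lt_top.ne]
  -- the distance of `A`
  have hDΩ : d * vB N ≤ Dm Ω := le_Dm fun o => (hfar o).le
  have hΩA : volume.real (symmDiff Ω A) ≤ ε := by
    rw [symm_le_of_sub hAΩ hAc.measurableSet hfin]
    linarith
  have hDA : d * vB N - ε ≤ Dm A := by
    have := Dm_lip hfin hAfin
    linarith
  obtain ⟨t, ht⟩ : ∃ t : ℝ, t = d * vB N - 2 * ε := ⟨_, rfl⟩
  obtain ⟨A', hA', hDA'⟩ := reach (x₀ := ε) hN (by linarith) hr (hr1.trans hρ1)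
    (A := A) (t := t) ⟨hAc, hρA, rfl, fun _ _ _ => le_rfl⟩ hvolr hε0 (by linarith) (by
      intro B hB htB
      have hBfin : volume B ≠ ⊤ := hB.cpt.measure_lt_top.ne
      have hb1 : volume (ball (0 : E N) 1) ≠ ⊤ := measure_ball_lt_top.ne
      have hbr : volume (ball (0 : E N) r) ≠ ⊤ := measure_ball_lt_top.ne
      have e1 := Dm_le B 0
      have e2 := symm_tri hBfin hbr hb1
      have e3 : volume.real (symmDiff (ball (0 : E N) r) (ball 0 1)) =
          vB N - volume.real A := by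
        rw [symmDiff_comm, symm_le_of_sub (ball_subset_ball hr1) measurableSet_ball hb1, hrv]
        rfl
      have e4 : volume.real (symmDiff B (ball (0 : E N) r)) ≤
          volume.real (B \ ball (0 : E N) r) + volume.real (ball (0 : E N) r \ B) :=
        measureReal_union_le _ _
      have e5 : volume.real (B \ ball (0 : E N) r) = volume.real (ball (0 : E N) r \ B) :=
        diff_eq_diff hB.cpt.measurableSet measurableSet_ball hBfin (hB.vol.trans hvolr)
      linarith)
  -- the open set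
  have hA'fin : volume A' ≠ ⊤ := hA'.cpt.measure_lt_top.ne
  obtain ⟨U, hU1, hU2, hU3⟩ := A'.exists_isOpen_lt_add hA'fin
    (ENNReal.ofReal_pos.mpr hε0).ne'
  obtain ⟨Ω', hΩ'd⟩ : ∃ Ω' : Set (E N), Ω' = U ∩ ball 0 ρ := ⟨_, rfl⟩
  have hΩ'o : IsOpen Ω' := by rw [hΩ'd]; exact hU2.inter isOpen_ball
  have hA'Ω' : A' ⊆ Ω' := by rw [hΩ'd]; exact subset_inter hU1 hA'.sub
  have hΩ'b : Bornology.IsBounded Ω' := by
    rw [hΩ'd]; exact isBounded_ball.subset inter_subset_right
  have hΩ'fin : volume Ω' ≠ ⊤ := hΩ'b.measure_lt_top.ne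
  have hA'r : volume.real A' = volume.real A := by unfold Measure.real; rw [hA'.vol]
  have hΩ'v : volume.real Ω' ≤ volume.real A + ε := by
    rw [← hA'r]
    have h1 : volume Ω' ≤ volume A' + ENNReal.ofReal ε :=
      (measure_mono (by rw [hΩ'd]; exact inter_subset_left)).trans hU3.le
    have h2 := ENNReal.toReal_mono (ENNReal.add_ne_top.mpr ⟨hA'fin, ENNReal.ofReal_ne_top⟩) h1
    rw [ENNReal.toReal_add hA'fin ENNReal.ofReal_ne_top, ENNReal.toReal_ofReal hε0.le] at h2
    exact h2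
  have hsd : volume.real (symmDiff Ω' A') ≤ ε := by
    rw [symm_le_of_sub hA'Ω' hA'.cpt.measurableSet hΩ'fin]
    linarith
  refine ⟨Ω', hΩ'o, hΩ'b, by linarith, ?_, ?_, ?_⟩
  · intro o
    have h1 := Dm_lip hA'fin hΩ'fin
    have h2 := Dm_le Ω' o
    rw [symmDiff_comm] at h1
    linarith
  · obtain ⟨o, ho⟩ := Dm_near A' hε0
    refine ⟨o, ?_⟩
    have h1 := symm_tri hΩ'fin hA'fin (measure_ball_lt_top (x := o) (r := 1)).ne
    linarith
  · have h1 := Pool.Agent.H85.LNN.clo hN hAc.measurableSet hAc.isBounded hA'.cpt hΩ'o hA'Ω' v1 v2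
      (fun x hx => image_eq_zero_of_notMem_tsupport fun h => hx (by rw [hAd]; exact Or.inr h))
      hA'.phi
    have h2 : lam N 1 Ω' * ∫ x, v x ^ 2 ≤ c * ∫ x, v x ^ 2 := h1.trans v4
    have h3 : lam N 1 Ω' ≤ c := le_of_mul_le_mul_right h2 hI0
    linarith

end Pool.Agent.H69.LNN
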