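import Pool.Agent.H69.LNN.LM0

set_option autoImplicit false

/-!
# MP_8f7db2_an, all dimensions: local minimality for centred sets, the proof
-/

open MeasureTheory Metric Set
open scoped ENNReal

namespace Pool.Agent.H69.LNN

open Pool.Agent.H85.LK (E adm lam Ann)
open Pool.Agent.H69.LQ

/-- linearity of the coefficients -/
theorem TT_lin (hTS : T_TS) {N : ℕ} (hN : 3 ≤ N) (L : ℝ) :
    (∀ v w : E N → ℝ, ContDiff ℝ (⊤ : ℕ∞) v → ContDiff ℝ (⊤ : ℕ∞) w →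
      rs (TT L (v + w)) 1 = fun θ => rs (TT L v) 1 θ + rs (TT L w) 1 θ) ∧
    (∀ (k : ℝ) (v : E N → ℝ), rs (TT L (k • v)) 1 = fun θ => k * rs (TT L v) 1 θ) := by
  obtain ⟨-, h2, h3, -⟩ := hTS N L hN
  constructor
  · intro v w hv hw
    funext θ
    exact h2 v w hv.continuous hw.continuous _
  · intro k v
    funext θ
    exact h3 k v _

theorem BM_TT (hTS : T_TS) {N : ℕ} (hN : 3 ≤ N) (L : ℝ) {v : E N → ℝ}
    (hv : ContDiff ℝ (⊤ : ℕ∞) v) : BM (rs (TT L v) 1) := by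
  obtain ⟨h1, -⟩ := hTS N L hN
  apply BM_cont
  unfold rs
  exact (h1 v hv).continuous.comp (by fun_prop)

theorem pf_LM0 (hMP : T_MP) (hL2 : T_L2) (hNB : T_NB) (hTS : T_TS) (hRT2 : T_RT2)
    (hMI : T_MI) (hA4 : T_A4) (hA5 : T_A5) (hVE : T_VE) (hVR : T_VR) (hVM : T_VM)
    (hMD : T_MD) (hDI : T_DI) : T_LM0 := by
  obtain ⟨C₀, hC₀, h1⟩ := hRT2
  obtain ⟨K₃, hK₃, h2⟩ := hMI C₀ hC₀
  obtain ⟨K₄, hK₄, h3⟩ := hMD
  obtain ⟨K, hK⟩ : ∃ K : ℝ, K = max K₃ K₄ := ⟨_, rfl⟩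
  have hKK₃ : K₃ ≤ K := by rw [hK]; exact le_max_left _ _
  have hKK₄ : K₄ ≤ K := by rw [hK]; exact le_max_right _ _
  have hK1 : 1 ≤ K := hK₃.trans hKK₃
  obtain ⟨κa, Na, hκa, hNa, h2'⟩ := h2 K hKK₃
  obtain ⟨κb, Nb, hκb, hNb, h3'⟩ := h3 K κa hKK₄ hκa
  obtain ⟨Ka, hKa, h1'⟩ := h1 K 20 hK1 (by norm_num)
  obtain ⟨Kb, hKb, h4'⟩ := hA4 C₀ K 20 hC₀ hK1 (by norm_num)
  obtain ⟨Kc, hKc, h5'⟩ := hA5 C₀ K 20 hC₀ hK1 (by norm_num)
  obtain ⟨K₁, hK₁⟩ : ∃ K₁ : ℝ, K₁ = max (max Ka Kb) Kc := ⟨_, rfl⟩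
  have hK1a : Ka ≤ K₁ := by rw [hK₁]; exact (le_max_left _ _).trans (le_max_left _ _)
  have hK1b : Kb ≤ K₁ := by rw [hK₁]; exact (le_max_right _ _).trans (le_max_left _ _)
  have hK1c : Kc ≤ K₁ := by rw [hK₁]; exact le_max_right _ _
  have hK10 : 0 ≤ K₁ := by linarith
  obtain ⟨κc, Nc, hκc, hNc, h1''⟩ := h1' K₁ hK1a
  obtain ⟨κd, Nd, hκd, hNd, h4''⟩ := h4' K₁ hK1b
  obtain ⟨κe, Ne, hκe, hNe, h5''⟩ := h5' K₁ hK1c
  obtain ⟨Nf, hNf, hB⟩ := be_bounds hL2 hNB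
  refine ⟨min (min κb κc) (min κd κe), max (max (max Na Nb) (max Nc Nd)) (max Ne Nf),
    lt_min (lt_min hκb hκc) (lt_min hκd hκe),
    hNa.trans ((le_max_left _ _).trans ((le_max_left _ _).trans (le_max_left _ _))), ?_⟩
  intro N L γ Ω hN hL hΩ hvol hsd hcen h0 hγ
  have hNNa : Na ≤ N := by omega
  have hNNb : Nb ≤ N := by omega
  have hNNc : Nc ≤ N := by omega
  have hNNd : Nd ≤ N := by omega
  have hNNe : Ne ≤ N := by omega
  have hNNf : Nf ≤ N := by omega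
  have hN3 : 3 ≤ N := by omega
  have hN2 : 2 ≤ N := by omega
  obtain ⟨hprob, har, -, -⟩ := hMP N hN2
  haveI : Nonempty (Fin N) := ⟨⟨0, by omega⟩⟩
  have hv := vB_pos N
  obtain ⟨hNP, hb1, hb2⟩ := hB N L hNNf hL
  by_contra hlt
  rw [not_le] at hlt
  have hfin : volume Ω ≠ ⊤ := by rw [hvol]; exact measure_ball_lt_top.ne
  have ha := aa_pos N K₁
  have ha1 := aa_le_one N hK10
  obtain ⟨R, r₁, hE⟩ := hVE N Ω (aa N K₁) hN3 hΩ ha ha1
  have hsdc : volume.real (symmDiff Ω (ball 0 1)) ≤ κc * vB N :=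
    hsd.trans (mul_le_mul_of_nonneg_right ((min_le_left _ _).trans (min_le_right _ _)) hv.le)
  have hsdb : volume.real (symmDiff Ω (ball 0 1)) ≤ κb * vB N :=
    hsd.trans (mul_le_mul_of_nonneg_right ((min_le_left _ _).trans (min_le_left _ _)) hv.le)
  have hsdd : volume.real (symmDiff Ω (ball 0 1)) ≤ κd * vB N :=
    hsd.trans (mul_le_mul_of_nonneg_right ((min_le_right _ _).trans (min_le_left _ _)) hv.le)
  have hsde : volume.real (symmDiff Ω (ball 0 1)) ≤ κe * vB N :=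
    hsd.trans (mul_le_mul_of_nonneg_right ((min_le_right _ _).trans (min_le_right _ _)) hv.le)
  obtain ⟨d1, d2, d3, d4, d5, d6, d7, d8, d9, d10, d11, d12⟩ :=
    loc_data hVR hVM hN3 hΩ hfin ha ha1 hE hsdd
  obtain ⟨-, -, -, -, -, -, -, -, -, -, e11, e12⟩ :=
    loc_data hVR hVM hN3 hΩ hfin ha ha1 hE hsde
  have hr1 : ∀ θ, 0 ≤ r₁ θ ∧ r₁ θ ≤ aa N K₁ := fun θ => ⟨hE.nn θ, hE.le θ⟩
  -- the main inequality on the sphere
  have hvolr : volume.real Ω ≤ (1 + 0) * vB N := by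
    rw [add_zero, one_mul]
    unfold vB Measure.real
    rw [hvol]
  obtain ⟨k₀, k, kf, hM⟩ := h3' N Ω (aa N K₁) 0 R r₁ hNNb hΩ hfin ha ha1 hE hcen hsdb le_rfl
    hκb.le hvolr
  have hmi := h2' N 0 _ k₀ _ _ _ _ _ k kf hNNa hM
  have hfar : 0 ≤ volume.real (Ω \ ball 0 (bb N)) / vB N := hM.far0
  have hDst : 0 ≤ Dst K (rho Ω) R (ds Ω R) := by
    unfold Dst
    have a1 : 0 ≤ av ((Gk K (rho Ω)).indicator fun θ => min (hR R θ ^ 2) 1) :=
      av_ind_nonneg fun θ _ => le_min (sq_nonneg _) zero_le_one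
    have a2 : 0 ≤ av ((Gk K (rho Ω)).indicator (ds Ω R)) := av_ind_nonneg fun θ _ => d8 θ
    have a3 : 0 ≤ av ((Gk K (rho Ω))ᶜ.indicator (rho Ω)) := av_ind_nonneg fun θ _ => (d10 θ).1
    linarith
  have hpos : 0 ≤ MM K C₀ (rho Ω) R + 20 / 2 *
      av ((Gk K (rho Ω)).indicator fun θ => r₁ θ ^ N) := by linarith
  -- the test space
  obtain ⟨V, hVdim, hV⟩ := hγ
  obtain ⟨l, hl⟩ : ∃ l : (E N → ℝ) → ℝ, ∀ v, l v = av (rs (TT L v) 1) := ⟨_, fun _ => rfl⟩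
  obtain ⟨T, hT⟩ : ∃ T : (E N → ℝ) → E N, ∀ v j, T v j = c1 (rs (TT L v) 1) j :=
    ⟨fun v => WithLp.toLp 2 fun j => c1 (rs (TT L v) 1) j, fun _ _ => rfl⟩
  have hEV : ∀ v ∈ V, EL L v ≤ (γ - L) * ∫ x, v x ^ 2 := fun v hv => by
    have := (hV v hv).2.2.2
    unfold EL
    linarith
  have hsq : ∀ v : E N → ℝ, 0 ≤ ∫ x, v x ^ 2 := fun v => integral_nonneg fun x => sq_nonneg _
  have hRT : ∀ v ∈ V, ∃ W : ℝ, 0 ≤ W ∧
      ∫ x, v x ^ 2 ≤ 4 * ar N * (NP N L * av (fun θ => rs (TT L v) 1 θ ^ 2) + W) ∧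
      ar N * (N * NP N L * QQ (VV L K 20 C₀ (rho Ω) R r₁) (TT L v) + N / 2 * W) ≤ EL L v := by
    intro v hv
    obtain ⟨t1, t2, t3, -⟩ := hV v hv
    exact h1'' N L Ω R r₁ v hNNc hL hΩ hfin hsdc hE t1 t2 t3 (near_zero h0 t3)
  have hN0 : (0 : ℝ) < N := by
    have : 0 < N := by omega
    exact_mod_cast this
  have hker : ∀ v ∈ V, l v = 0 → T v = 0 → v = 0 := by
    intro v hv hlv hTv
    obtain ⟨t1, t2, t3, -⟩ := hV v hv
    obtain ⟨W, hW0, hW1, hW2⟩ := hRT v hv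
    have hc : ∀ j, c1 (rs (TT L v) 1) j = 0 := fun j => by
      rw [← hT, hTv]
      rfl
    have hq := h5'' N L (rho Ω) R (ds Ω R) (Hh Ω (aa N K₁)) r₁ (TT L v) hNNe hL d1 d2 d3 d4 d5 d6
      d7 d8 d9 d10 hr1 e11 e12 ((hTS N L hN3).1 v t1) (by rw [← hl]; exact hlv) hc
    have hA : 0 ≤ av (fun θ => rs (TT L v) 1 θ ^ 2) := av_sq_nonneg _
    have h6 : (γ - L) * ∫ x, v x ^ 2 ≤ 0 :=
      mul_nonpos_of_nonpos_of_nonneg (by linarith) (hsq v)
    have h7 := hEV v hv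
    have hNNP : 0 < (N : ℝ) * NP N L := mul_pos hN0 hNP
    have h8 : ar N * (N * NP N L * QQ (VV L K 20 C₀ (rho Ω) R r₁) (TT L v) + N / 2 * W) ≤ 0 := by
      linarith
    have h9 : N * NP N L * QQ (VV L K 20 C₀ (rho Ω) R r₁) (TT L v) + N / 2 * W ≤ 0 :=
      nonpos_of_mul_nonpos_right h8 har
    have h10 : N * NP N L * (1 / 2 * av (fun θ => rs (TT L v) 1 θ ^ 2)) ≤
        N * NP N L * QQ (VV L K 20 C₀ (rho Ω) R r₁) (TT L v) :=
      mul_le_mul_of_nonneg_left hq hNNP.le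
    have h11 : 0 ≤ N * NP N L * (1 / 2 * av (fun θ => rs (TT L v) 1 θ ^ 2)) := by positivity
    have h12 : 0 ≤ N / 2 * W := by positivity
    have h13 : W = 0 := by
      have : (N : ℝ) / 2 * W = 0 := by linarith
      rcases mul_eq_zero.mp this with h | h
      · linarith
      · exact h
    have h14 : av (fun θ => rs (TT L v) 1 θ ^ 2) = 0 := by
      have : N * NP N L * (1 / 2 * av (fun θ => rs (TT L v) 1 θ ^ 2)) = 0 := by linarith
      rcases mul_eq_zero.mp this with h | h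
      · linarith
      · linarith
    rw [h13, h14] at hW1
    exact sq_int_zero v t1.continuous t2 (by linarith)
  obtain ⟨lin1, lin2⟩ := TT_lin hTS hN3 L
  have hadd : ∀ v ∈ V, ∀ w ∈ V, l (v + w) = l v + l w ∧ T (v + w) = T v + T w := by
    intro v hv w hw
    have b1 := BM_TT hTS hN3 L (hV v hv).1
    have b2 := BM_TT hTS hN3 L (hV w hw).1
    constructor
    · rw [hl, hl, hl, lin1 v w (hV v hv).1 (hV w hw).1, av_add b1 b2]
    · ext j
      rw [PiLp.add_apply, hT, hT, hT, lin1 v w (hV v hv).1 (hV w hw).1]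
      unfold c1
      rw [← mul_add, ← av_add (b1.mul (BM_coord j)) (b2.mul (BM_coord j))]
      congr 2
      funext θ
      ring
  have hsmul : ∀ v ∈ V, ∀ k : ℝ, l (k • v) = k * l v ∧ T (k • v) = k • T v := by
    intro v hv k
    constructor
    · rw [hl, hl, lin2, av_const_mul]
    · ext j
      rw [PiLp.smul_apply, hT, hT, lin2, smul_eq_mul, c1_const_mul]
  have hex : ∀ i : Fin N, ∃ v ∈ V, l v = 0 ∧ T v = EuclideanSpace.single i (1 : ℝ) := fun i =>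
    hDI N V l T hVdim hadd hsmul hker _
  choose v hvV hvl hvT using hex
  have hvne : ∀ i, 0 < ∫ x, v i x ^ 2 := by
    intro i
    rcases (hsq (v i)).lt_or_eq with h | h
    · exact h
    · exfalso
      have h4 : v i = 0 := sq_int_zero (v i) (hV _ (hvV i)).1.continuous (hV _ (hvV i)).2.1 h.ge
      have h5 : T (v i) = 0 := by
        have := (hsmul (v i) (hvV i) 0).2
        rw [zero_smul, zero_smul] at this
        rw [h4]; exact this
      rw [hvT i] at h5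
      have h6 : (EuclideanSpace.single i (1 : ℝ) : E N) i = 0 := by rw [h5]; rfl
      simp at h6
  have h4s := h4'' N L (rho Ω) R (ds Ω R) (Hh Ω (aa N K₁)) r₁ (fun i => TT L (v i)) hNNd hL d1 d2 d3
    d4 d5 d6 d7 d8 d9 d10 hr1 d11 d12 (fun i => ⟨(hTS N L hN3).1 _ (hV _ (hvV i)).1,
      by rw [← hl]; exact hvl i, fun j => by
        rw [← hT, hvT i, EuclideanSpace.single_apply]
        by_cases hij : i = j
        · rw [if_pos hij, if_pos hij.symm]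
        · rw [if_neg hij, if_neg fun h => hij h.symm]⟩)
  have h5s : 0 ≤ ∑ i, QQ (VV L K 20 C₀ (rho Ω) R r₁) (TT L (v i)) :=
    le_trans (mul_nonneg (by linarith) hpos) h4s
  have h6s : ∀ i, ar N * (N * NP N L) * QQ (VV L K 20 C₀ (rho Ω) R r₁) (TT L (v i)) < 0 := by
    intro i
    obtain ⟨W, hW0, hW1, hW2⟩ := hRT (v i) (hvV i)
    have h7 := hEV (v i) (hvV i)
    have h8 : (γ - L) * ∫ x, v i x ^ 2 < 0 := mul_neg_of_neg_of_pos (by linarith) (hvne i)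
    have h9 : 0 ≤ ar N * (N / 2 * W) := by positivity
    linarith
  have h7s : ∑ i, ar N * (N * NP N L) * QQ (VV L K 20 C₀ (rho Ω) R r₁) (TT L (v i)) < 0 :=
    Finset.sum_neg (fun i _ => h6s i) Finset.univ_nonempty
  rw [← Finset.mul_sum] at h7s
  have h8s : 0 ≤ ar N * (N * NP N L) *
      ∑ i, QQ (VV L K 20 C₀ (rho Ω) R r₁) (TT L (v i)) :=
    mul_nonneg (by positivity) h5s
  linarith

end Pool.Agent.H69.LNN
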