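import Pool.Agent.H69.LNN.LS0b

set_option autoImplicit false

/-!
# MP_8f7db2_an, all dimensions: local stability of the first eigenvalue, conclusion
-/

open MeasureTheory Metric Set
open scoped ENNReal

namespace Pool.Agent.H69.LNN

open Pool.Agent.H85.LK (E adm lam Ann)
open Pool.Agent.H69.LQ

/-- algebra: the case distinction -/
theorem ls0_alg {N NP be MM' t2 A Q W t I EL' Y a c ε : ℝ} (hN : 0 < N) (hNP : 0 < NP)
    (ha : 0 < a) (hA : t2 ≤ A) (ht2 : 0 ≤ t2) (hW : 0 ≤ W)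
    (hQ : be * MM' * t2 + 1 / 1000 * (A - t2) ≤ Q + (N - 1) / N * A)
    (hR : a * (N * NP * Q + N / 2 * W) ≤ EL')
    (hE : EL' ≤ -(1 - c) * N * I) (hY : Y = a * (NP * A)) (hI : (1 - ε) * Y ≤ I)
    (hc : 0 ≤ c) (hc1 : c ≤ 1) (hε : 0 ≤ ε) (ht : t = c + ε) (ht1 : t ≤ 1 / 2000) :
    be * MM' * t2 + 1 / 2000 * (A - t2) + W / (2 * NP) ≤ t * t2 := by
  have h1 : (1 - c) * N * ((1 - ε) * Y) ≤ (1 - c) * N * I :=
    mul_le_mul_of_nonneg_left hI (mul_nonneg (by linarith) hN.le)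
  have hY0 : 0 ≤ Y := by rw [hY]; exact mul_nonneg ha.le (mul_nonneg hNP.le (ht2.trans hA))
  have h2 : (1 - t) * N * Y ≤ (1 - c) * N * ((1 - ε) * Y) := by
    have : 0 ≤ c * ε * N * Y := by positivity
    rw [ht]
    linarith
  have h3 : a * (N * NP * Q + N / 2 * W) ≤ -((1 - t) * N * Y) := by linarith
  rw [hY] at h3
  have h4 : N * NP * Q + N / 2 * W ≤ -((1 - t) * N * (NP * A)) := by
    apply le_of_mul_le_mul_left _ ha
    linarith
  have h5 : N * NP * (Q + W / (2 * NP)) = N * NP * Q + N / 2 * W := by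
    field_simp
  rw [← h5] at h4
  have h6 : Q + W / (2 * NP) ≤ -((1 - t) * A) := by
    apply le_of_mul_le_mul_left _ (mul_pos hN hNP)
    linarith
  have h7 : (N - 1) / N * A ≤ A := by
    have : (N - 1) / N ≤ 1 := by rw [div_le_one hN]; linarith
    have hA0 : 0 ≤ A := ht2.trans hA
    nlinarith
  have h8 : t * (A - t2) ≤ 1 / 2000 * (A - t2) := mul_le_mul_of_nonneg_right ht1 (by linarith)
  linarith

theorem ls0_mul {c b X : ℝ} (hc : 0 ≤ c) (hb : 1 / 2 ≤ b) (hX : 4 * c < X) : 2 * c < b * X := by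
  have h1 : 1 / 2 * X ≤ b * X := mul_le_mul_of_nonneg_right hb (by linarith)
  linarith

theorem pf_LS0 (hMP : T_MP) (hPY : T_PY) (hL2 : T_L2) (hNB : T_NB) (hCF : T_CF) (hTS : T_TS)
    (hFC : T_FC) (hRT2 : T_RT2) (hMI : T_MI) (hA3 : T_A3) (hVE : T_VE) (hVR : T_VR)
    (hVM : T_VM) (hVS : T_VS) (hMD : T_MD) : T_LS0 := by
  obtain ⟨C₀, hC₀, h1⟩ := hRT2
  obtain ⟨K₃, hK₃, h2⟩ := hMI C₀ hC₀
  obtain ⟨K₄, hK₄, h3⟩ := hMD
  obtain ⟨K, hK⟩ : ∃ K : ℝ, K = max K₃ K₄ := ⟨_, rfl⟩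
  have hKK₃ : K₃ ≤ K := by rw [hK]; exact le_max_left _ _
  have hKK₄ : K₄ ≤ K := by rw [hK]; exact le_max_right _ _
  have hK1 : 1 ≤ K := hK₃.trans hKK₃
  obtain ⟨κa, Na, hκa, hNa, h2'⟩ := h2 K hKK₃
  obtain ⟨κb, Nb, hκb, hNb, h3'⟩ := h3 K κa hKK₄ hκa
  obtain ⟨Ka, hKa, h1'⟩ := h1 K 40 hK1 (by norm_num)
  obtain ⟨Kb, hKb, h4'⟩ := hA3 C₀ K 40 hC₀ hK1 (by norm_num)
  obtain ⟨K₁, hK₁⟩ : ∃ K₁ : ℝ, K₁ = max Ka Kb := ⟨_, rfl⟩
  have hK1a : Ka ≤ K₁ := by rw [hK₁]; exact le_max_left _ _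
  have hK1b : Kb ≤ K₁ := by rw [hK₁]; exact le_max_right _ _
  have hK10 : 0 ≤ K₁ := by linarith
  obtain ⟨κc, Nc, hκc, hNc, h1''⟩ := h1' K₁ hK1a
  obtain ⟨κd, Nd, hκd, hNd, h4''⟩ := h4' K₁ hK1b
  obtain ⟨κe, Ne, hκe, hNe, h5''⟩ := hFC
  obtain ⟨Nf, hNf, hB⟩ := be_bounds hL2 hNB
  obtain ⟨δ₀, hδ₀⟩ : ∃ δ₀ : ℝ, δ₀ = min (min (min κb κc) (min κd κe)) 1 := ⟨_, rfl⟩
  have hδb : δ₀ ≤ κb := by
    rw [hδ₀]; exact ((min_le_left _ _).trans (min_le_left _ _)).trans (min_le_left _ _)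
  have hδc : δ₀ ≤ κc := by
    rw [hδ₀]; exact ((min_le_left _ _).trans (min_le_left _ _)).trans (min_le_right _ _)
  have hδd : δ₀ ≤ κd := by
    rw [hδ₀]; exact ((min_le_left _ _).trans (min_le_right _ _)).trans (min_le_left _ _)
  have hδe : δ₀ ≤ κe := by
    rw [hδ₀]; exact ((min_le_left _ _).trans (min_le_right _ _)).trans (min_le_right _ _)
  have hδ1 : δ₀ ≤ 1 := by rw [hδ₀]; exact min_le_right _ _
  have hδ00 : 0 < δ₀ := by
    rw [hδ₀]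
    exact lt_min (lt_min (lt_min hκb hκc) (lt_min hκd hκe)) one_pos
  refine ⟨δ₀, hδ00, fun δ hδ hδδ => ?_⟩
  obtain ⟨c, hc⟩ : ∃ c : ℝ, c = δ ^ 2 / 60000 := ⟨_, rfl⟩
  obtain ⟨z, hz⟩ : ∃ z : ℝ, z = δ ^ 2 / 30000 := ⟨_, rfl⟩
  have hδle : δ ≤ 1 := hδδ.trans hδ1
  have hδsq : δ ^ 2 ≤ δ := by nlinarith
  have hc0 : 0 < c := by rw [hc]; positivity
  have hz0 : 0 < z := by rw [hz]; positivity
  have hc1 : c ≤ 1 / 60000 := by rw [hc]; linarith
  obtain ⟨Ng, hNg, hH⟩ := hardy_const hL2 hc0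
  refine ⟨c, z, max (max (max Na Nb) (max Nc Nd)) (max (max Ne Nf) Ng), hc0, hz0,
    hNa.trans ((le_max_left _ _).trans ((le_max_left _ _).trans (le_max_left _ _))), ?_⟩
  intro N L γ Ω hN hL hΩ hfin hvol hsd hsd2 hcen h0 hγ
  have hNNa : Na ≤ N := by omega
  have hNNb : Nb ≤ N := by omega
  have hNNc : Nc ≤ N := by omega
  have hNNd : Nd ≤ N := by omega
  have hNNe : Ne ≤ N := by omega
  have hNNf : Nf ≤ N := by omega
  have hNNg : Ng ≤ N := by omega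
  have hN3 : 3 ≤ N := by omega
  have hN2 : 2 ≤ N := by omega
  obtain ⟨hprob, har, -, -⟩ := hMP N hN2
  have hv := vB_pos N
  obtain ⟨hNP, hb1, hb2⟩ := hB N L hNNf hL
  have hN0 : (0 : ℝ) < N := by
    have : 0 < N := by omega
    exact_mod_cast this
  by_contra hlt
  rw [not_le] at hlt
  have ha := aa_pos N K₁
  have ha1 := aa_le_one N hK10
  obtain ⟨R, r₁, hE⟩ := hVE N Ω (aa N K₁) hN3 hΩ ha ha1
  have hsdc : volume.real (symmDiff Ω (ball 0 1)) ≤ κc * vB N :=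
    hsd.trans (mul_le_mul_of_nonneg_right hδc hv.le)
  have hsdb : volume.real (symmDiff Ω (ball 0 1)) ≤ κb * vB N :=
    hsd.trans (mul_le_mul_of_nonneg_right hδb hv.le)
  have hsdd : volume.real (symmDiff Ω (ball 0 1)) ≤ κd * vB N :=
    hsd.trans (mul_le_mul_of_nonneg_right hδd hv.le)
  have hsde : volume.real (symmDiff Ω (ball 0 1)) ≤ κe * vB N :=
    hsd.trans (mul_le_mul_of_nonneg_right hδe hv.le)
  obtain ⟨d1, d2, d3, d4, d5, d6, d7, d8, d9, d10, d11, d12⟩ :=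
    loc_data hVR hVM hN3 hΩ hfin ha ha1 hE hsdd
  have hr1 : ∀ θ, 0 ≤ r₁ θ ∧ r₁ θ ≤ aa N K₁ := fun θ => ⟨hE.nn θ, hE.le θ⟩
  have hzb : z ≤ κb := by
    rw [hz]; linarith
  obtain ⟨k₀, k, kf, hM⟩ := h3' N Ω (aa N K₁) z R r₁ hNNb hΩ hfin ha ha1 hE hcen hsdb hz0.le
    hzb hvol
  have hmi := h2' N z _ k₀ _ _ _ _ _ k kf hNNa hM
  have hfar : 0 ≤ volume.real (Ω \ ball 0 (bb N)) / vB N := hM.far0
  obtain ⟨D, hD⟩ : ∃ D, D = Dst K (rho Ω) R (ds Ω R) := ⟨_, rfl⟩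
  obtain ⟨h, hh⟩ : ∃ h, h = av ((Gk K (rho Ω)).indicator fun θ => r₁ θ ^ N) := ⟨_, rfl⟩
  have hh0 : 0 ≤ h := by
    rw [hh]; exact av_ind_nonneg fun θ _ => pow_nonneg (hr1 θ).1 _
  have hD0 : 0 ≤ D := by
    rw [hD]
    unfold Dst
    have a1 : 0 ≤ av ((Gk K (rho Ω)).indicator fun θ => min (hR R θ ^ 2) 1) :=
      av_ind_nonneg fun θ _ => le_min (sq_nonneg _) zero_le_one
    have a2 : 0 ≤ av ((Gk K (rho Ω)).indicator (ds Ω R)) := av_ind_nonneg fun θ _ => d8 θ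
    have a3 : 0 ≤ av ((Gk K (rho Ω))ᶜ.indicator (rho Ω)) := av_ind_nonneg fun θ _ => (d10 θ).1
    linarith
  rw [← hD, ← hh] at hmi
  -- the missing volume
  have hvs := hVS N Ω (aa N K₁) K R r₁ hN3 hΩ hfin ha ha1 hK1 hE
  rw [← hD, ← hh] at hvs
  have hvd := vol_diff hΩ hfin hvol hsd2
  have hsum : (δ - z) / 2 ≤ Real.sqrt D + D + h := by
    have : vB N * ((δ - z) / 2) ≤ vB N * (Real.sqrt D + D + h) := by linarith
    exact le_of_mul_le_mul_left this hv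
  -- the test function
  obtain ⟨V, hVdim, hV⟩ := hγ
  obtain ⟨u, huV, hu0⟩ : ∃ u ∈ V, u ≠ 0 := by
    by_contra hcon
    push Not at hcon
    have : V = ⊥ := (Submodule.eq_bot_iff V).mpr fun x hx => hcon x hx
    rw [this, finrank_bot] at hVdim
    omega
  obtain ⟨t1, t2, t3, t4⟩ := hV u huV
  have hI0 : 0 < ∫ x, u x ^ 2 := by
    rcases (integral_nonneg fun x => sq_nonneg (u x) : 0 ≤ ∫ x, u x ^ 2).lt_or_eq with h' | h'
    · exact h'
    · exact absurd (sq_int_zero u t1.continuous t2 h'.ge) hu0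
  have hEL : EL L u ≤ -(1 - c) * N * ∫ x, u x ^ 2 := by
    have e1 : EL L u ≤ (γ - L) * ∫ x, u x ^ 2 := by unfold EL; linarith
    have e2 : (γ - L) * (∫ x, u x ^ 2) ≤ (-(1 - c) * N) * ∫ x, u x ^ 2 :=
      mul_le_mul_of_nonneg_right (by linarith) hI0.le
    linarith
  have hEL0 : EL L u ≤ 0 := by
    have : 0 ≤ (1 - c) * N * ∫ x, u x ^ 2 :=
      mul_nonneg (mul_nonneg (by linarith) hN0.le) hI0.le
    linarith
  have hnear := near_zero h0 t3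
  obtain ⟨W, hW0, hW1, hW2⟩ := h1'' N L Ω R r₁ u hNNc hL hΩ hfin hsdc hE t1 t2 t3 hnear
  -- the comparison of the masses
  have hsube : volume.real (Ω \ ball 0 1) ≤ κe * vB N := by
    refine le_trans ?_ hsde
    apply measureReal_mono
    · intro x hx
      exact Or.inl hx
    · refine measure_ne_top_of_subset (fun x hx => ?_)
        (measure_union_lt_top hfin.lt_top (measure_ball_lt_top (x := (0 : E N)) (r := 1))).ne
      rcases hx with hx | hx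
      · exact Or.inl hx.1
      · exact Or.inr hx.1
  obtain ⟨u₁, y, f1, f2, f3, f4, f5, f6⟩ := h5'' N L Ω u hNNe hL hΩ hsube hfin t1 t2 t3 hnear
  have f1' : TF univ u₁ := ⟨f1.smooth, f1.near, f1.far, fun x hx => absurd (mem_univ x) hx⟩
  have hmass := ls0_mass hCF hTS hN3 hNP har hL.pos hc0.le (hH N L hNNg hL) t1 t2 f1' f2 f3 f4 f5
    f6 hEL0
  -- the form on the sphere
  have hq := h4'' N L (rho Ω) R (ds Ω R) (Hh Ω (aa N K₁)) r₁ (TT L u) hNNd hL d1 d2 d3 d4 d5 d6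
      d7 d8 d9 d10 hr1 d11 d12 ((hTS N L hN3).1 u t1)
  obtain ⟨A, hA⟩ : ∃ A, A = av (fun θ => rs (TT L u) 1 θ ^ 2) := ⟨_, rfl⟩
  obtain ⟨s, hs⟩ : ∃ s, s = av (rs (TT L u) 1) := ⟨_, rfl⟩
  have hAs : s ^ 2 ≤ A := by
    rw [hA, hs]
    obtain ⟨p1, -⟩ := hPY N (rs (TT L u) 1) hN2 (BM_TT hTS hN3 L t1)
    rw [p1]
    have q1 := n1_nonneg (rs (TT L u) 1)
    have q2 := n2_nonneg (rs (TT L u) 1)
    have q3 := n3_nonneg (rs (TT L u) 1)
    unfold n0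
    linarith
  rw [← hh, ← hA, ← hs] at hq
  rw [← hA] at hW1 hmass
  have hAlg := ls0_alg (N := (N : ℝ)) (NP := NP N L) (be := be N L)
    (MM' := MM K C₀ (rho Ω) R + 40 / 2 * h) (t2 := s ^ 2) (A := A)
    (Q := QQ (VV L K 40 C₀ (rho Ω) R r₁) (TT L u)) (W := W) (t := c + c)
    (I := ∫ x, u x ^ 2) (EL' := EL L u) (Y := ar N * (NP N L * A)) (a := ar N) (c := c) (ε := c)
    hN0 hNP har hAs (sq_nonneg s) hW0 hq hW2 hEL rfl hmass hc0.le (by linarith) hc0.le rfl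
    (by linarith)
  have hWn : 0 ≤ W / (2 * NP N L) := by positivity
  have hX : D / 100 - z + 10 * h ≤ MM K C₀ (rho Ω) R + 40 / 2 * h := by linarith
  have hfin2 : D / 100 + 10 * h ≤ 3 * (δ ^ 2 / 30000) := by
    by_contra hcon
    rw [not_le] at hcon
    have hX2 : 4 * c < MM K C₀ (rho Ω) R + 40 / 2 * h := by
      rw [hc]; rw [hz] at hX; linarith
    have hX3 : 2 * c < be N L * (MM K C₀ (rho Ω) R + 40 / 2 * h) := ls0_mul hc0.le hb1 hX2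
    have hs0 : s ^ 2 = 0 := by
      by_contra hne
      have hpos : 0 < s ^ 2 := lt_of_le_of_ne (sq_nonneg s) fun h' => hne h'.symm
      have h7 : 2 * c * s ^ 2 < be N L * (MM K C₀ (rho Ω) R + 40 / 2 * h) * s ^ 2 :=
        mul_lt_mul_of_pos_right hX3 hpos
      have h8 : 0 ≤ 1 / 2000 * (A - s ^ 2) := by
        have : 0 ≤ A - s ^ 2 := by linarith
        positivity
      linarith
    rw [hs0] at hAlg hAs
    have hA0 : A = 0 := by linarith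
    have hWW : W / (2 * NP N L) ≤ 0 := by
      rw [hA0] at hAlg; linarith
    have hW00 : W = 0 := by
      have h9 : W / (2 * NP N L) = 0 := le_antisymm hWW hWn
      rcases div_eq_zero_iff.mp h9 with h10 | h10
      · exact h10
      · linarith
    rw [hA0, hW00] at hW1
    linarith
  exact ls0_num hδ hδle hD0 hz hfin2 hsum hh0

end Pool.Agent.H69.LNN
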