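import Pool.Agent.H69.LNN.Lib

set_option autoImplicit false

/-!
# MP_8f7db2_an, all dimensions: the main inequality on the sphere
-/

open MeasureTheory Metric Set
open scoped ENNReal

namespace Pool.Agent.H69.LNN

open Pool.Agent.H85.LK (E adm lam Ann)
open Pool.Agent.H69.LQ

theorem MD.mono {N : ℕ} {K κ κ₂ κ' far k₀ : ℝ} {ρ R d H Hb k kf : Sp N → ℝ}
    (h : MD K κ κ' far k₀ ρ R d H Hb k kf) (hκ : κ ≤ κ₂) :
    MD K κ₂ κ' far k₀ ρ R d H Hb k kf where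
  bρ := h.bρ
  bR := h.bR
  bd := h.bd
  bH := h.bH
  bHb := h.bHb
  bk := h.bk
  bkf := h.bkf
  Rlb := h.Rlb
  rel := h.rel
  d0 := h.d0
  H0 := h.H0
  H1 := h.H1
  cl := h.cl.trans hκ
  clH := h.clH.trans hκ
  vol := h.vol
  far0 := h.far0
  far1 := h.far1.trans hκ
  k'0 := h.k'0
  k'1 := h.k'1.trans hκ
  cen := h.cen
  kf0 := h.kf0
  kf1 := h.kf1
  ka := h.ka
  kb := h.kb

theorem pf_MI (hMI1 : T_MI1) (hMI2 : T_MI2) : T_MI := by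
  intro C₀ hC₀
  obtain ⟨K₁, hK₁, h1⟩ := hMI1 C₀ hC₀
  obtain ⟨K₂, hK₂, h2⟩ := hMI2 C₀ hC₀
  refine ⟨max K₁ K₂, hK₁.trans (le_max_left _ _), fun K hK => ?_⟩
  obtain ⟨κ₂, z, N₂, hκ₂, hz, hN₂, h2'⟩ := h2 K ((le_max_right _ _).trans hK)
  obtain ⟨κ₁, N₁, hκ₁, hN₁, h1'⟩ := h1 K z ((le_max_left _ _).trans hK) hz
  refine ⟨min κ₁ κ₂, max N₁ N₂, lt_min hκ₁ hκ₂, hN₁.trans (le_max_left _ _), ?_⟩
  intro N κ' far k₀ ρ R d H Hb k kf hN h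
  rcases le_total (av ((Gk K ρ).indicator d) + av ((Gk K ρ)ᶜ.indicator ρ)) z with hc | hc
  · exact h2' N κ' far k₀ ρ R d H Hb k kf ((le_max_right _ _).trans hN)
      (h.mono (min_le_right _ _)) hc
  · exact h1' N κ' far k₀ ρ R d H Hb k kf ((le_max_left _ _).trans hN)
      (h.mono (min_le_left _ _)) hc

end Pool.Agent.H69.LNN
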