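import Pool.Agent.H18.LK.AP
import Pool.Agent.H19.LK.NE
import Pool.Agent.H84.LK.HK
import Pool.Agent.H17.LK.INT
import Pool.Agent.H67.LK.QID
import Pool.Agent.H65.LK.ENL
import Pool.Agent.H66.LK.PLR
import Pool.Agent.H3.LK.SCL
import Pool.Agent.H59.LK.PI
import Pool.Agent.H7.LK.RPS
import Pool.Agent.H59.LK.RPA
import Pool.Agent.H17.LK.RPT
import Pool.Agent.H65.LK.LA
import Pool.Agent.H68.LK.RP
import Pool.Agent.H77.LK.POL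
import Pool.Agent.H58.LK.PVO
import Pool.Agent.H27.LK.GRD
import Pool.Agent.H77.LK.CNT
import Pool.Agent.H81.LK.CNV
import Pool.Agent.H77.LK.PWR
import Pool.Agent.H3.LK.SCQ
import Pool.Agent.H58.LK.FKL
import Pool.Agent.H90.LK.FK
import Pool.Agent.H1.LQ.CO
import Pool.Agent.H1.LQ.QU
import Pool.Agent.H10.LQ.I1
import Pool.Agent.H10.LQ.O2
import Pool.Agent.H11.LNN.PE
import Pool.Agent.H11.LQ.EX
import Pool.Agent.H11.LQ1.PG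
import Pool.Agent.H13.LQ.SW
import Pool.Agent.H14.LNN.IN
import Pool.Agent.H14.LNN.N2
import Pool.Agent.H14.LQ.KP
import Pool.Agent.H14.LQ.PH
import Pool.Agent.H15.LQ1.DC
import Pool.Agent.H16.LQ.PR
import Pool.Agent.H2.LNN.MD
import Pool.Agent.H21.LNN.MI2
import Pool.Agent.H21.LQ.KI
import Pool.Agent.H21.LQ1.H0
import Pool.Agent.H26.LNN.CAP
import Pool.Agent.H26.LNN.VM
import Pool.Agent.H26.LQ.DI
import Pool.Agent.H30.LQ.H2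
import Pool.Agent.H30.LQ.M0
import Pool.Agent.H30.LQ.ST
import Pool.Agent.H30.LQ1.PX
import Pool.Agent.H30.LQ1.VD
import Pool.Agent.H33.LQ.AS
import Pool.Agent.H33.LQ.M1
import Pool.Agent.H34.LQ.IM
import Pool.Agent.H34.LQ1.H1
import Pool.Agent.H35.LQ.JP
import Pool.Agent.H36.LQ.GP
import Pool.Agent.H36.LQ.PY
import Pool.Agent.H37.LQ.GR
import Pool.Agent.H37.LQ.MP
import Pool.Agent.H37.LQ1.K1
import Pool.Agent.H38.LNN.GX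
import Pool.Agent.H39.LQ.MC
import Pool.Agent.H4.LQ.UA
import Pool.Agent.H4.LQ1.HS
import Pool.Agent.H4.LQ1.I3
import Pool.Agent.H40.LNN.CF
import Pool.Agent.H40.LNN.RT
import Pool.Agent.H40.LNN.RT2
import Pool.Agent.H40.LQ.RI
import Pool.Agent.H41.LNN.BL
import Pool.Agent.H42.LQ.ME
import Pool.Agent.H42.LQ1.SF
import Pool.Agent.H45.LQ.CM
import Pool.Agent.H46.LNN.A3
import Pool.Agent.H46.LQ.CD
import Pool.Agent.H48.LQ.P1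
import Pool.Agent.H48.LQ.Z0
import Pool.Agent.H49.LNN.NB
import Pool.Agent.H49.LQ.UB
import Pool.Agent.H49.LQ1.SU1
import Pool.Agent.H5.LNN.CG
import Pool.Agent.H5.LNN.CV
import Pool.Agent.H5.LNN.HY
import Pool.Agent.H51.LNN.TS
import Pool.Agent.H52.LQ.U2
import Pool.Agent.H54.LQ.M2
import Pool.Agent.H55.LQ.AN
import Pool.Agent.H55.LQ1.K3
import Pool.Agent.H55.LQ1.K5
import Pool.Agent.H58.LQ1.K2
import Pool.Agent.H58.LQ1.VA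
import Pool.Agent.H58.LQ1.VC
import Pool.Agent.H60.LNN.A5
import Pool.Agent.H60.LNN.L2
import Pool.Agent.H60.LNN.LM
import Pool.Agent.H60.LNN.VS
import Pool.Agent.H60.LNN.XN
import Pool.Agent.H60.LQ.CU
import Pool.Agent.H60.LQ.LF
import Pool.Agent.H60.LQ.MO
import Pool.Agent.H61.LQ.H6
import Pool.Agent.H63.LQ.JZ
import Pool.Agent.H64.LNN.FC
import Pool.Agent.H64.LQ.GF
import Pool.Agent.H64.LQ1.K4
import Pool.Agent.H66.LQ.BV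
import Pool.Agent.H68.LNN.VP
import Pool.Agent.H68.LQ.SE
import Pool.Agent.H68.LQ1.QN
import Pool.Agent.H69.LNN.A4b
import Pool.Agent.H69.LNN.C2
import Pool.Agent.H69.LNN.LM0b
import Pool.Agent.H69.LNN.LS0c
import Pool.Agent.H69.LNN.MI
import Pool.Agent.H69.LQ.CR1
import Pool.Agent.H69.LQ.CS
import Pool.Agent.H69.LQ.EN1
import Pool.Agent.H7.LNN.KC
import Pool.Agent.H7.LQ.FA
import Pool.Agent.H7.LQ.I2
import Pool.Agent.H70.LNN.CN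
import Pool.Agent.H70.LQ.PV
import Pool.Agent.H72.LNN.HA
import Pool.Agent.H72.LNN.L1
import Pool.Agent.H72.LNN.RG
import Pool.Agent.H72.LNN.SI
import Pool.Agent.H72.LNN.VR
import Pool.Agent.H73.LNN.ZB
import Pool.Agent.H74.LQ.OU
import Pool.Agent.H75.LNN.OX
import Pool.Agent.H75.LNN.PW
import Pool.Agent.H75.LNN.WI
import Pool.Agent.H75.LQ.RA
import Pool.Agent.H77.LNN.RB
import Pool.Agent.H77.LNN.VT
import Pool.Agent.H77.LQ.H3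
import Pool.Agent.H77.LQ.SG
import Pool.Agent.H78.LQ.FZ
import Pool.Agent.H78.LQ.JS
import Pool.Agent.H81.LNN.L4
import Pool.Agent.H81.LNN.TRU
import Pool.Agent.H81.LNN.VI
import Pool.Agent.H81.LQ.CP
import Pool.Agent.H81.LQ1.HG
import Pool.Agent.H83.LSD.A5
import Pool.Agent.H85.LNN.AG
import Pool.Agent.H85.LNN.C1T
import Pool.Agent.H85.LNN.LNN
import Pool.Agent.H85.LNN.LS
import Pool.Agent.H85.LNN.MI1
import Pool.Agent.H85.LNN.PN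
import Pool.Agent.H86.LQ.LB
import Pool.Agent.H86.LQ.S1
import Pool.Agent.H86.LQ1.GQ
import Pool.Agent.H86.LQ1.XI
import Pool.Agent.H90.LQ1.SA1
import Pool.Agent.H90.LQ1.VB
import Pool.Agent.H91.LQ.SM
import Pool.Agent.H91.LQ.U1
import Pool.Agent.H94.LNN.VE
import Pool.Agent.H94.LQ.TA
import Pool.Agent.H94.LQ.TR
import Pool.Agent.H96.LQ.JI
import Pool.Agent.H98.LQ.JC

/-!
# MP_8f7db2_an, Theorem LNN: the composition

In all sufficiently large dimensions the ball minimises the Dirichlet eigenvalue of index `N + 1`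
among all open sets of the same volume.
-/

set_option autoImplicit false

open MeasureTheory Metric Set
open scoped ENNReal
open Pool.Agent.H85.LK (E adm lam Ann)
open Pool.Agent.H69.LQ Pool.Agent.H69.LNN

namespace Pool.Agent.H69.LNN

theorem all_lnn : T_LNN := by
  have hAP : H85.LK.T_AP := Pool.Agent.H18.LK.pf_AP
  have hNE : H85.LK.T_NE := Pool.Agent.H19.LK.pf_NE
  have hHK : H85.LK.T_HK := Pool.Agent.H84.LK.pf_HK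
  have hINT : H85.LK.T_INT := Pool.Agent.H17.LK.pf_INT hHK
  have hQID : H85.LK.T_QID := Pool.Agent.H67.LK.pf_QID hHK hINT
  have hENL : H85.LK.T_ENL := Pool.Agent.H65.LK.pf_ENL hHK hQID
  have hPLR : H85.LK.T_PLR := Pool.Agent.H66.LK.pf_PLR
  have hSCL : H85.LK.T_SCL := Pool.Agent.H3.LK.pf_SCL
  have hPI : H85.LK.T_PI := Pool.Agent.H59.LK.pf_PI hHK hINT hENL hNE
  have hRPS : H85.LK.T_RPS := Pool.Agent.H7.LK.pf_RPS
  have hRPA : H85.LK.T_RPA := Pool.Agent.H59.LK.pf_RPA hHK hINT hRPS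
  have hRPT : H85.LK.T_RPT := Pool.Agent.H17.LK.pf_RPT hHK hINT
  have hLA : H85.LK.T_LA := Pool.Agent.H65.LK.pf_LA hAP
  have hRP : H85.LK.T_RP := Pool.Agent.H68.LK.pf_RP hHK hRPS hRPA hRPT hLA hSCL
  have hPOL : H85.LK.T_POL := Pool.Agent.H77.LK.pf_POL hHK hINT
  have hPVO : H85.LK.T_PVO := Pool.Agent.H58.LK.pf_PVO
  have hGRD : H85.LK.T_GRD := Pool.Agent.H27.LK.pf_GRD hPVO hPLR
  have hCNT : H85.LK.T_CNT := Pool.Agent.H77.LK.pf_CNT hHK hINT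
  have hCNV : H85.LK.T_CNV := Pool.Agent.H81.LK.cnv hHK hINT hPOL hPVO hGRD hCNT
  have hPWR : H85.LK.T_PWR := Pool.Agent.H77.LK.pf_PWR hHK hINT
  have hSCQ : H85.LK.T_SCQ := Pool.Agent.H3.LK.pf_SCQ
  have hFKL : H85.LK.T_FKL := Pool.Agent.H58.LK.pf_FKL hRP hPWR hCNV hSCQ
  have hFK : H85.LK.T_FK := Pool.Agent.H90.LK.fk hFKL hENL
  have hJS : T_JS := Pool.Agent.H78.LQ.pf_JS
  have hJI : T_JI := Pool.Agent.H96.LQ.pf_JI hJS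
  have hJZ : T_JZ := Pool.Agent.H63.LQ.pf_JZ hJS hJI
  have hFZ : T_FZ := Pool.Agent.H78.LQ.pf_FZ hJS hJZ
  have hPH : T_PH := Pool.Agent.H14.LQ.pf_PH hJS
  have hJP : T_JP := Pool.Agent.H35.LQ.pf_JP hJS hJI
  have hPV : T_PV := Pool.Agent.H70.LQ.pf_PV hJS hJP hPH
  have hUA : T_UA := Pool.Agent.H4.LQ.pf_UA hPH hPV
  have hUB : T_UB := Pool.Agent.H49.LQ.pf_UB hUA
  have hC1 : T_C1 := Pool.Agent.H85.LNN.pf_C1 hUB hFZ hPH hPV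
  have hC2 : T_C2 := Pool.Agent.H69.LNN.pf_C2
  have hMP : T_MP := Pool.Agent.H37.LQ.pf_MP
  have hMC : T_MC := Pool.Agent.H39.LQ.MC.pf_MC hMP
  have hAN : T_AN := Pool.Agent.H55.LQ.pf_AN hMP hMC
  have hST : T_ST := Pool.Agent.H30.LQ.pf_ST hAN
  have hMO : T_MO := Pool.Agent.H60.LQ.pf_MO hMP hST
  have hPY : T_PY := Pool.Agent.H36.LQ.pf_PY hMO
  have hJC : T_JC := Pool.Agent.H98.LQ.pf_JC hPH
  have hM1 : T_M1 := Pool.Agent.H33.LQ.pf_M1 hJS hJC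
  have hSI : T_SI := Pool.Agent.H72.LNN.pf_SI hM1 hPV
  have hCV : T_CV := Pool.Agent.H5.LNN.pf_CV
  have hL2 : T_L2 := Pool.Agent.H60.LNN.pf_L2 hSI hCV
  have hNB : T_NB := Pool.Agent.H49.LNN.pf_NB hPH hPV
  have hGR : T_GR := Pool.Agent.H37.LQ.pf_GR
  have hCO : T_CO := Pool.Agent.H1.LQ.pf_CO
  have hHY : T_HY := Pool.Agent.H5.LNN.pf_HY
  have hCF : T_CF := Pool.Agent.H40.LNN.pf_CF hPH hMC hGR hCO hHY
  have hTS : T_TS := Pool.Agent.H51.LNN.pf_TS hPH hCO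
  have hPE : T_PE := Pool.Agent.H11.LNN.pf_PE hPH hPV
  have hL1 : T_L1 := Pool.Agent.H72.LNN.pf_L1 hPH hPE
  have hTA : T_TA := Pool.Agent.H94.LQ.pf_TA
  have hAS : T_AS := Pool.Agent.H33.LQ.pf_AS hPH hPV hTA
  have hVA : T_VA := Pool.Agent.H58.LQ1.pf_VA hMP
  have hVB : T_VB := Pool.Agent.H90.LQ1.pf_VB hMP hMO
  have hVD : T_VD := Pool.Agent.H30.LQ1.pf_VD hMP
  have hPG : T_PG := Pool.Agent.H11.LQ1.pf_PG
  have hQN : T_QN := Pool.Agent.H68.LQ1.pf_QN hJS hPH hPV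
  have hLF : T_LF := Pool.Agent.H60.LQ.pf_LF hMO
  have hBV : T_BV := Pool.Agent.H66.LQ.pf_BV hPH hPV
  have hEX : T_EX := Pool.Agent.H11.LQ.pf_EX
  have hVC : T_VC := Pool.Agent.H58.LQ1.pf_VC hMP hMO
  have hLB : T_LB := Pool.Agent.H86.LQ.pf_LB hJS
  have hQU : T_QU := Pool.Agent.H1.LQ.pf_QU
  have hU1 : T_U1 := Pool.Agent.H91.LQ.pf_U1 hPY hQU
  have hH6 : T_H6 := Pool.Agent.H61.LQ.pf_H6 hMP hST hMO
  have hH2 : T_H2 := Pool.Agent.H30.LQ.pf_H2 hMP hMO hH6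
  have hH3 : T_H3 := Pool.Agent.H77.LQ.pf_H3 hMP hMO hPY hQU hH2
  have hU2 : T_U2 := Pool.Agent.H52.LQ.pf_U2 hMP hMO hPY hQU hH3
  have hSA1 : T_SA1 := Pool.Agent.H90.LQ1.pf_SA1 hMP hMO hPH hPV hAS
  have hSU1 : T_SU1 := Pool.Agent.H49.LQ1.pf_SU1 hMP hMO hPY hPH hPV hLB hU1 hU2 hSA1
  have hDI : T_DI := Pool.Agent.H26.LQ.pf_DI
  have hP1 : T_P1 := Pool.Agent.H48.LQ.pf_P1
  have hM0 : T_M0 := Pool.Agent.H30.LQ.pf_M0 hPH hPV hJC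
  have hM2 : T_M2 := Pool.Agent.H54.LQ.pf_M2 hPH hPV hM1
  have hCP : T_CP := Pool.Agent.H81.LQ.pf_CP hMO hCO
  have hKI : T_KI := Pool.Agent.H21.LQ.pf_KI
  have hKP : T_KP := Pool.Agent.H14.LQ.pf_KP hAN hKI
  have hPR : T_PR := Pool.Agent.H16.LQ.pf_PR hMP
  have hSW : T_SW := Pool.Agent.H13.LQ.pf_SW
  have hGF : T_GF := Pool.Agent.H64.LQ.pf_GF hMP hPR hKP
  have hGP : T_GP := Pool.Agent.H36.LQ.pf_GP hMP hPR hSW hKP hGF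
  have hS1 : T_S1 := Pool.Agent.H86.LQ.pf_S1 hMP hMO
  have hSE : T_SE := Pool.Agent.H68.LQ.pf_SE hMP hMO hPY hKP hGP hS1
  have hI1 : T_I1 := Pool.Agent.H10.LQ.pf_I1 hMP hMC hGR hPY hSE hCO hCP
  have hI2 : T_I2 := Pool.Agent.H7.LQ.pf_I2 hMP hMO hMC hPY hLF hM0 hM1 hM2 hPH hPV hCO hCP hI1
  have hGQ : T_GQ := Pool.Agent.H86.LQ1.pf_GQ hJS hMC hLF hMO hPH
  have hI3 : T_I3 := Pool.Agent.H4.LQ1.pf_I3 hMP hMO hLF hI2 hGQ hCO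
  have hRI : T_RI := Pool.Agent.H40.LQ.pf_RI hPH
  have hRA : T_RA := Pool.Agent.H75.LQ.pf_RA hPH hPV hRI hP1 hAS
  have hME : T_ME := Pool.Agent.H42.LQ.pf_ME hMO hPH hAS
  have hSG : T_SG := Pool.Agent.H77.LQ.pf_SG hMP hGP
  have hO2 : T_O2 := Pool.Agent.H10.LQ.pf_O2 hMP hMC hGR hSG hCO
  have hOU : T_OU := Pool.Agent.H74.LQ.pf_OU hMP hMC hMO hPH hP1 hRA hME hO2 hCO
  have hSM : T_SM := Pool.Agent.H91.LQ.pf_SM hFK hPI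
  have hCU : T_CU := Pool.Agent.H60.LQ.pf_CU
  have hIM : T_IM := Pool.Agent.H34.LQ.pf_IM
  have hFA : T_FA := Pool.Agent.H7.LQ.pf_FA hSM hCU hIM
  have hEN1 : T_EN1 := Pool.Agent.H69.LQ.pf_EN1 hJS hMP hMO hMC hPY hLF hPH hP1 hI3 hOU hFA hCO
  have hPX : T_PX := Pool.Agent.H30.LQ1.pf_PX
  have hDC : T_DC := Pool.Agent.H15.LQ1.pf_DC
  have hSF : T_SF := Pool.Agent.H42.LQ1.pf_SF
  have hK1 : T_K1 := Pool.Agent.H37.LQ1.pf_K1 hMP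
  have hK2 : T_K2 := Pool.Agent.H58.LQ1.pf_K2 hK1
  have hK3 : T_K3 := Pool.Agent.H55.LQ1.pf_K3 hMP hK2
  have hK4 : T_K4 := Pool.Agent.H64.LQ1.pf_K4 hMP hMC hAN hK2
  have hK5 : T_K5 := Pool.Agent.H55.LQ1.pf_K5 hMP hK1 hK2
  have hXI : T_XI := Pool.Agent.H86.LQ1.pf_XI hCU hK2 hK3 hK4 hK5
  have hH0 : T_H0 := Pool.Agent.H21.LQ1.pf_H0 hMP hMO hGQ hI3 hPX hDC hSF hXI hCU
  have hHS : T_HS := Pool.Agent.H4.LQ1.pf_HS hCU hSM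
  have hH1 : T_H1 := Pool.Agent.H34.LQ1.pf_H1 hPV hHS
  have hHG : T_HG := Pool.Agent.H81.LQ1.pf_HG hI3 hH0 hH1
  have hZ0 : T_Z0 := Pool.Agent.H48.LQ.pf_Z0 hJS hJP
  have hCS1 : T_CS1 := Pool.Agent.H69.LQ.pf_CS1 hMP hMO hPY hLF hPV hBV hEX hVA hVC hSU1 hDI hEN1 hI3 hHG hZ0 hCO
  have hCR1 : T_CR1 := Pool.Agent.H69.LQ.pf_CR1 hMP hMO hAS hVA hVB hVD hPG hQN hCS1
  have hBL : T_BL := Pool.Agent.H41.LNN.pf_BL hUA hCR1
  have hFC : T_FC := Pool.Agent.H64.LNN.pf_FC hL1 hL2 hBL hIM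
  have hPW : T_PW := Pool.Agent.H75.LNN.pf_PW
  have hWI : T_WI := Pool.Agent.H75.LNN.pf_WI
  have hRB : T_RB := Pool.Agent.H77.LNN.pf_RB hL2 hCV hSI hPW hWI
  have hPN : T_PN := Pool.Agent.H85.LNN.pf_PN hL1 hL2 hPE
  have hHA : T_HA := Pool.Agent.H72.LNN.pf_HA hJS hJP hPE hPN
  have hIN : T_IN := Pool.Agent.H14.LNN.pf_IN hJS hJC hM1 hPH hPV hSI hHY hHA
  have hOX : T_OX := Pool.Agent.H75.LNN.pf_OX hL1 hL2 hPE hCV hPW hWI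
  have hZB : T_ZB := Pool.Agent.H73.LNN.pf_ZB hPE hCV hNB hPN hPH
  have hRG : T_RG := Pool.Agent.H72.LNN.pf_RG hL2 hPE hPV hNB hPN hIN hOX hZB
  have hLSD : T_LSD := Pool.Agent.H83.LSD.pf_LSD
  have hAG : T_AG := Pool.Agent.H85.LNN.pf_AG hCO hLSD hPH hNB hTS
  have hVR : T_VR := Pool.Agent.H72.LNN.pf_VR
  have hRT : T_RT := Pool.Agent.H40.LNN.RT.pf_RT hMP hNB hRB hRG hCF hAG hVR
  have hVE : T_VE := Pool.Agent.H94.LNN.pf_VE hMP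
  have hVM : T_VM := Pool.Agent.H26.LNN.pf_VM hMP hVR hVE
  have hRT2 : T_RT2 := Pool.Agent.H40.LNN.pf_RT2 hMP hPH hNB hCF hTS hRT hFC hVR hVM
  have hL4 : T_L4 := Pool.Agent.H81.LNN.pf_L4 hMP hMO
  have hVI : T_VI := Pool.Agent.H81.LNN.pf_VI hMP hMO
  have hMI1 : T_MI1 := Pool.Agent.H85.LNN.pf_MI1 hL4 hVI
  have hMI2 : T_MI2 := Pool.Agent.H21.LNN.pf_MI2 hMP hMO hPY hQU hL4 hVI
  have hMI : T_MI := Pool.Agent.H69.LNN.pf_MI hMI1 hMI2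
  have hTRU : T_TRU := Pool.Agent.H81.LNN.pf_TRU
  have hVP : T_VP := Pool.Agent.H68.LNN.pf_VP hMO hPY hQU hSE hLSD hTRU
  have hXN : T_XN := Pool.Agent.H60.LNN.pf_XN hPY
  have hVT : T_VT := Pool.Agent.H77.LNN.pf_VT hL2 hNB
  have hA3 : T_A3 := Pool.Agent.H46.LNN.pf_A3 hMP hMO hPY hQU hPV hL1 hL2 hNB hVP hXN hVT hL4
  have hVS : T_VS := Pool.Agent.H60.LNN.pf_VS hMP hMO hVR
  have hKC : T_KC := Pool.Agent.H7.LNN.pf_KC hMP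
  have hMD : T_MD := Pool.Agent.H2.LNN.pf_MD hMP hMO hVE hVR hVM hKC
  have hLS0 : T_LS0 := Pool.Agent.H69.LNN.pf_LS0 hMP hPY hL2 hNB hCF hTS hFC hRT2 hMI hA3 hVE hVR hVM hVS hMD
  have hCD : T_CD := Pool.Agent.H46.LQ.pf_CD
  have hCM : T_CM := Pool.Agent.H45.LQ.pf_CM
  have hCG : T_CG := Pool.Agent.H5.LNN.pf_CG hCD hCM
  have hCN : T_CN := Pool.Agent.H70.LNN.pf_CN hCG
  have hTR : T_TR := Pool.Agent.H94.LQ.pf_TR
  have hCAP : T_CAP := Pool.Agent.H26.LNN.pf_CAP hTR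
  have hLS : T_LS := Pool.Agent.H85.LNN.pf_LS hLS0 hCN hCAP hBL hFZ hTR
  have hCL : T_CL := Pool.Agent.H85.LNN.pf_CL hC1 hC2 hLS
  have hGX : T_GX := Pool.Agent.H38.LNN.pf_GX hMO hKP
  have hN2 : T_N2 := Pool.Agent.H14.LNN.pf_N2 hMP hMO hPY hQU hH2
  have hA4 : T_A4 := Pool.Agent.H69.LNN.pf_A4 hMO hPY hL2 hNB hGX hVP hN2 hXN hVT
  have hA5 : T_A5 := Pool.Agent.H60.LNN.pf_A5 hPY hNB hVP hVT
  have hLM0 : T_LM0 := Pool.Agent.H69.LNN.pf_LM0 hMP hL2 hNB hTS hRT2 hMI hA4 hA5 hVE hVR hVM hMD hDI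
  have hLM : T_LM := Pool.Agent.H60.LNN.pf_LM hLM0 hCN hCAP hTR
  have hLNN : T_LNN := Pool.Agent.H85.LNN.pf_LNN hFZ hUB hCL hLM
  exact hLNN

end Pool.Agent.H69.LNN
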