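import Pool.Agent.H58.LK.PVO
import Pool.Agent.H85.LK.Targets

set_option autoImplicit false

/-!
# MP_8f7db2_an, all dimensions: polarizations of compact sets depend continuously on the level
-/

open MeasureTheory Metric Set Filter
open scoped ENNReal Topology

namespace Pool.Agent.H69.LNN

open Pool.Agent.H85.LK

variable {N : ℕ}

/-- membership for closed sets: the hyperplane may be added to the lower half space -/
theorem mem_pol_iff {e : E N} (he : ‖e‖ = 1) {h : ℝ} {A : Set (E N)} {x : E N} :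
    x ∈ pol e h A ↔ (inner ℝ x e ≤ h ∧ (x ∈ A ∨ refl e h x ∈ A)) ∨
      (h ≤ inner ℝ x e ∧ x ∈ A ∧ refl e h x ∈ A) := by
  have hfix : inner ℝ x e = h → refl e h x = x := by
    intro hx
    unfold H85.LK.refl
    rw [hx, sub_self, mul_zero, zero_smul, sub_zero]
  constructor
  · rintro (⟨h1, h2⟩ | h1)
    · exact Or.inl ⟨h1.le, h2⟩
    · exact Or.inr h1
  · rintro (⟨h1, h2⟩ | h1)
    · rcases h1.lt_or_eq with h3 | h3
      · exact Or.inl ⟨h3, h2⟩
      · have h4 := hfix h3
        rw [h4, or_self] at h2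
        exact Or.inr ⟨h3.ge, h2, by rw [h4]; exact h2⟩
    · exact Or.inr h1

theorem refl_cont2 (e : E N) : Continuous fun p : ℝ × E N => refl e p.1 p.2 := by
  unfold H85.LK.refl
  fun_prop

/-- the graph of the polarizations of a closed set is closed -/
theorem graph_closed {e : E N} (he : ‖e‖ = 1) {A : Set (E N)} (hA : IsClosed A) :
    IsClosed {p : ℝ × E N | p.2 ∈ pol e p.1 A} := by
  have h0 : {p : ℝ × E N | p.2 ∈ pol e p.1 A} =
      ({p : ℝ × E N | inner ℝ p.2 e ≤ p.1} ∩
        ((fun p : ℝ × E N => p.2) ⁻¹' A ∪ (fun p : ℝ × E N => refl e p.1 p.2) ⁻¹' A)) ∪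
      ({p : ℝ × E N | p.1 ≤ inner ℝ p.2 e} ∩
        ((fun p : ℝ × E N => p.2) ⁻¹' A ∩ (fun p : ℝ × E N => refl e p.1 p.2) ⁻¹' A)) := by
    ext p
    exact mem_pol_iff he
  rw [h0]
  have c1 : Continuous fun p : ℝ × E N => (inner ℝ p.2 e : ℝ) := by fun_prop
  have a1 : IsClosed {p : ℝ × E N | inner ℝ p.2 e ≤ p.1} := isClosed_le c1 continuous_fst
  have a2 : IsClosed {p : ℝ × E N | p.1 ≤ inner ℝ p.2 e} := isClosed_le continuous_fst c1
  have a3 := hA.preimage (continuous_snd : Continuous fun p : ℝ × E N => p.2)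
  have a4 := hA.preimage (refl_cont2 e)
  exact (a1.inter (a3.union a4)).union (a2.inter (a3.inter a4))

theorem pol_closed {e : E N} (he : ‖e‖ = 1) {h : ℝ} {A : Set (E N)} (hA : IsClosed A) :
    IsClosed (pol e h A) :=
  (graph_closed he hA).preimage (f := fun x : E N => (h, x)) (by fun_prop)

theorem pol_compact {e : E N} (he : ‖e‖ = 1) {h ρ : ℝ} (hh : 0 < h) {A : Set (E N)}
    (hA : IsCompact A) (hρ : A ⊆ ball 0 ρ) : IsCompact (pol e h A) := by
  obtain ⟨-, h2, -⟩ := Pool.Agent.H58.LK.pf_PVO N e h ρ A he hh hA.measurableSet hρ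
  exact Metric.isCompact_of_isClosed_isBounded (pol_closed he hA.isClosed)
    (isBounded_ball.subset h2)

/-- upper semicontinuity -/
theorem pol_usc {e : E N} (he : ‖e‖ = 1) {h ρ : ℝ} (hh : 0 < h) {A U : Set (E N)}
    (hA : IsCompact A) (hρ : A ⊆ ball 0 ρ) (hU : IsOpen U) (hsub : pol e h A ⊆ U) :
    ∀ᶠ h' in 𝓝 h, pol e h' A ⊆ U := by
  have hK : IsCompact (closedBall (0 : E N) ρ \ U) :=
    (isCompact_closedBall _ _).diff hU
  have h1 : ∀ᶠ h' in 𝓝 h, ∀ x ∈ closedBall (0 : E N) ρ \ U, (h', x) ∉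
      {p : ℝ × E N | p.2 ∈ pol e p.1 A} := by
    apply hK.eventually_forall_of_forall_eventually
    intro x hx
    apply (graph_closed he hA.isClosed).isOpen_compl.mem_nhds
    intro h2
    exact hx.2 (hsub h2)
  filter_upwards [h1, lt_mem_nhds hh] with h' h2 h3 x hx
  by_contra hxU
  obtain ⟨-, h4, -⟩ := Pool.Agent.H58.LK.pf_PVO N e h' ρ A he h3 hA.measurableSet hρ
  exact h2 x ⟨ball_subset_closedBall (h4 hx), hxU⟩ hx

/-- sets of equal finite volume -/
theorem diff_eq_diff {A B : Set (E N)} (hA : MeasurableSet A) (hB : MeasurableSet B)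
    (hfin : volume A ≠ ⊤) (h : volume A = volume B) :
    volume.real (A \ B) = volume.real (B \ A) := by
  have hfB : volume B ≠ ⊤ := h ▸ hfin
  have e1 : volume.real (A ∩ B) + volume.real (A \ B) = volume.real A :=
    measureReal_inter_add_diff hB hfin
  have e2 : volume.real (B ∩ A) + volume.real (B \ A) = volume.real B :=
    measureReal_inter_add_diff hA hfB
  have e3 : volume.real A = volume.real B := by unfold Measure.real; rw [h]
  rw [inter_comm] at e2
  linarith

/-- continuity in measure -/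
theorem pol_cont {e : E N} (he : ‖e‖ = 1) {h ρ : ℝ} (hh : 0 < h) {A : Set (E N)}
    (hA : IsCompact A) (hρ : A ⊆ ball 0 ρ) {ε : ℝ} (hε : 0 < ε) :
    ∀ᶠ h' in 𝓝 h, volume.real (symmDiff (pol e h' A) (pol e h A)) ≤ ε := by
  have hP := pol_compact he hh hA hρ
  obtain ⟨hm, hs, hv⟩ := Pool.Agent.H58.LK.pf_PVO N e h ρ A he hh hA.measurableSet hρ
  have hfin : volume (pol e h A) ≠ ⊤ := hP.measure_lt_top.ne
  obtain ⟨U, hU1, hU2, hU3⟩ := (pol e h A).exists_isOpen_lt_add hfin
    (ENNReal.ofReal_pos.mpr (half_pos hε)).ne'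
  filter_upwards [pol_usc he hh hA hρ hU2 hU1, lt_mem_nhds hh] with h' h1 h2
  obtain ⟨hm', hs', hv'⟩ := Pool.Agent.H58.LK.pf_PVO N e h' ρ A he h2 hA.measurableSet hρ
  have hP' := pol_compact he h2 hA hρ
  have hfU : volume U ≠ ⊤ := (hU3.trans_le le_top).ne
  have e1 : volume.real (pol e h' A \ pol e h A) ≤ ε / 2 := by
    have e2 : volume.real (pol e h' A \ pol e h A) ≤ volume.real (U \ pol e h A) :=
      measureReal_mono (diff_subset_diff_left h1) (measure_ne_top_of_subset diff_subset hfU)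
    have e3 : volume.real (U \ pol e h A) = volume.real U - volume.real (pol e h A) :=
      measureReal_diff hU1 hm hfU
    have e4 : volume.real U ≤ volume.real (pol e h A) + ε / 2 := by
      unfold Measure.real
      have := ENNReal.toReal_mono (ENNReal.add_ne_top.mpr ⟨hfin, ENNReal.ofReal_ne_top⟩) hU3.le
      rwa [ENNReal.toReal_add hfin ENNReal.ofReal_ne_top,
        ENNReal.toReal_ofReal (half_pos hε).le] at this
    linarith
  have e5 : volume.real (pol e h A \ pol e h' A) = volume.real (pol e h' A \ pol e h A) :=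
    diff_eq_diff hm hm' hfin (by rw [hv, hv'])
  have e6 : volume.real (symmDiff (pol e h' A) (pol e h A)) ≤
      volume.real (pol e h' A \ pol e h A) + volume.real (pol e h A \ pol e h' A) :=
    measureReal_union_le _ _
  linarith

/-- high levels do not change the set -/
theorem pol_high {e : E N} (he : ‖e‖ = 1) {h ρ : ℝ} (hρh : ρ ≤ h) {A : Set (E N)}
    (hρ : A ⊆ ball 0 ρ) : pol e h A = A := by
  have hlt : ∀ y ∈ A, inner ℝ y e < h := by
    intro y hy
    have h1 : ‖y‖ < ρ := by simpa using hρ hy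
    have h2 : inner ℝ y e ≤ ‖y‖ * ‖e‖ := real_inner_le_norm y e
    rw [he, mul_one] at h2
    linarith
  ext x
  constructor
  · rintro (⟨h1, h2 | h2⟩ | ⟨h1, h2, h3⟩)
    · exact h2
    · have h3 := hlt _ h2
      rw [Pool.Agent.H58.LK.refl_inner e he h x] at h3
      linarith
    · exact h2
  · intro hx
    exact Or.inl ⟨hlt x hx, Or.inl hx⟩

end Pool.Agent.H69.LNN
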