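import Pool.Agent.H69.LNN.C2a
import Pool.Agent.H69.LNN.Targets
import Pool.Agent.H85.LNN.CLO
import Pool.Agent.H27.LK.GRD

set_option autoImplicit false

/-!
# MP_8f7db2_an, all dimensions: the distance from the unit balls along a path of polarizations
-/

open MeasureTheory Metric Set Filter
open scoped ENNReal Topology

namespace Pool.Agent.H69.LNN

open Pool.Agent.H85.LK (E adm lam pol Phi T_POL T_PVO T_PLR T_GRD)

variable {N : ℕ}

/-- the distance from the unit balls -/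
noncomputable def Dm (A : Set (E N)) : ℝ := ⨅ o : E N, volume.real (symmDiff A (ball o 1))

theorem Dm_bdd (A : Set (E N)) :
    BddBelow (range fun o : E N => volume.real (symmDiff A (ball o 1))) :=
  ⟨0, by rintro _ ⟨o, rfl⟩; exact measureReal_nonneg⟩

theorem Dm_le (A : Set (E N)) (o : E N) : Dm A ≤ volume.real (symmDiff A (ball o 1)) :=
  ciInf_le (Dm_bdd A) o

theorem Dm_near (A : Set (E N)) {ε : ℝ} (hε : 0 < ε) :
    ∃ o : E N, volume.real (symmDiff A (ball o 1)) ≤ Dm A + ε := by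
  obtain ⟨o, ho⟩ := exists_lt_of_ciInf_lt (show Dm A < Dm A + ε by linarith)
  exact ⟨o, ho.le⟩

theorem le_Dm {A : Set (E N)} {t : ℝ} (h : ∀ o, t ≤ volume.real (symmDiff A (ball o 1))) :
    t ≤ Dm A := le_ciInf h

theorem symm_tri {A B C : Set (E N)} (hA : volume A ≠ ⊤) (hB : volume B ≠ ⊤)
    (hC : volume C ≠ ⊤) :
    volume.real (symmDiff A C) ≤ volume.real (symmDiff A B) + volume.real (symmDiff B C) := by
  refine le_trans (measureReal_mono ?_ ?_) (measureReal_union_le _ _)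
  · intro x hx
    by_cases hb : x ∈ B
    · rcases hx with ⟨h1, h2⟩ | ⟨h1, h2⟩
      · exact Or.inr (Or.inl ⟨hb, h2⟩)
      · exact Or.inl (Or.inr ⟨hb, h2⟩)
    · rcases hx with ⟨h1, h2⟩ | ⟨h1, h2⟩
      · exact Or.inl (Or.inl ⟨h1, hb⟩)
      · exact Or.inr (Or.inr ⟨h1, hb⟩)
  · refine measure_ne_top_of_subset (fun x hx => ?_)
      (measure_union_lt_top (measure_union_lt_top hA.lt_top hB.lt_top) hC.lt_top).ne
    rcases hx with (⟨h1, h2⟩ | ⟨h1, h2⟩) | (⟨h1, h2⟩ | ⟨h1, h2⟩)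
    · exact Or.inl (Or.inl h1)
    · exact Or.inl (Or.inr h1)
    · exact Or.inl (Or.inr h1)
    · exact Or.inr h1

theorem Dm_lip {A B : Set (E N)} (hA : volume A ≠ ⊤) (hB : volume B ≠ ⊤) :
    Dm A ≤ Dm B + volume.real (symmDiff A B) := by
  apply le_of_forall_pos_le_add
  intro ε hε
  obtain ⟨o, ho⟩ := Dm_near B hε
  have h1 := symm_tri hA hB (measure_ball_lt_top (x := o) (r := 1)).ne
  have h2 := Dm_le A o
  linarith

/-- the intermediate value along the levels -/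
theorem Dm_ivt {e : E N} (he : ‖e‖ = 1) {h ρ t : ℝ} (hh : 0 < h) {A : Set (E N)}
    (hA : IsCompact A) (hρ : A ⊆ ball 0 ρ) (h1 : t ≤ Dm A) (h2 : Dm (pol e h A) ≤ t) :
    ∃ h' : ℝ, 0 < h' ∧ Dm (pol e h' A) = t := by
  have hf : ContinuousOn (fun h' => Dm (pol e h' A)) (Ioi 0) := by
    intro h₀ hh₀
    apply ContinuousAt.continuousWithinAt
    rw [Metric.continuousAt_iff]
    intro ε hε
    have h3 := pol_cont he hh₀ hA hρ (half_pos hε)
    obtain ⟨δ, hδ, h4⟩ := Metric.eventually_nhds_iff.mp (h3.and (lt_mem_nhds hh₀))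
    refine ⟨δ, hδ, fun {x} hx => ?_⟩
    obtain ⟨h5, h6⟩ := h4 hx
    have f1 : volume (pol e x A) ≠ ⊤ := (pol_compact he h6 hA hρ).measure_lt_top.ne
    have f2 : volume (pol e h₀ A) ≠ ⊤ := (pol_compact he hh₀ hA hρ).measure_lt_top.ne
    have h7 := Dm_lip f1 f2
    have h8 := Dm_lip f2 f1
    rw [symmDiff_comm] at h8
    rw [Real.dist_eq, abs_lt]
    constructor
    · linarith
    · linarith
  have hhm : h ≤ max h ρ := le_max_left _ _
  have hend : Dm (pol e (max h ρ) A) = Dm A := by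
    rw [pol_high he (le_max_right h ρ) hρ]
  have hiv := intermediate_value_Icc hhm
    (hf.mono fun x (hx : x ∈ Icc h (max h ρ)) => lt_of_lt_of_le hh hx.1)
  obtain ⟨h', hh', he'⟩ := hiv ⟨h2, by rw [hend]; exact h1⟩
  exact ⟨h', lt_of_lt_of_le hh hh'.1, he'⟩

/-- sets reached from `A` by polarizations -/
structure Rch (ρ : ℝ) (A A' : Set (E N)) : Prop where
  cpt : IsCompact A'
  sub : A' ⊆ ball 0 ρ
  vol : volume A' = volume A
  phi : ∀ s : ℝ, 0 < s → ∀ m, Phi N s A m ≤ Phi N s A' m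

theorem pol_all : T_POL :=
  Pool.Agent.H77.LK.pf_POL Pool.Agent.H85.LNN.hk_all Pool.Agent.H85.LNN.int_all

theorem Rch.pol {ρ : ℝ} {A A' : Set (E N)} (hA : Rch ρ A A') {e : E N} (he : ‖e‖ = 1) {h : ℝ}
    (hh : 0 < h) : Rch ρ A (Pool.Agent.H85.LK.pol e h A') := by
  obtain ⟨h1, h2, h3⟩ :=
    Pool.Agent.H58.LK.pf_PVO N e h ρ A' he hh hA.cpt.measurableSet hA.sub
  exact ⟨pol_compact he hh hA.cpt hA.sub, h2, h3.trans hA.vol, fun s hs m =>
    (hA.phi s hs m).trans (pol_all N s e h A' m hs he hh hA.cpt.measurableSet hA.cpt.isBounded)⟩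

/-- the path reaches every level -/
theorem reach (hN : 1 ≤ N) {ρ r t x₀ : ℝ} (hρ : 0 < ρ) (hr : 0 < r) (hrρ : r ≤ ρ)
    {A : Set (E N)} (hA : Rch ρ A A) (hvol : volume A = volume (ball (0 : E N) r))
    (hx₀ : 0 < x₀) (ht : t ≤ Dm A)
    (hlow : ∀ A' : Set (E N), Rch ρ A A' → t ≤ Dm A' → x₀ ≤ volume.real (A' \ ball 0 r)) :
    ∃ A' : Set (E N), Rch ρ A A' ∧ Dm A' = t := by
  obtain ⟨c, hc, hgrd⟩ := Pool.Agent.H27.LK.pf_GRD Pool.Agent.H58.LK.pf_PVO
    Pool.Agent.H66.LK.pf_PLR N ρ hN hρ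
  by_contra hcon
  push Not at hcon
  have hind : ∀ n : ℕ, ∃ A' : Set (E N), Rch ρ A A' ∧ t ≤ Dm A' ∧
      volume.real (A' \ ball 0 r) ≤ volume.real (A \ ball 0 r) - n * (c * x₀ ^ 2) := by
    intro n
    induction n with
    | zero => exact ⟨A, hA, ht, by simp⟩
    | succ n ih =>
      obtain ⟨A', h1, h2, h3⟩ := ih
      obtain ⟨e, h, he, hh, h4⟩ := hgrd r A' hr hrρ h1.cpt.measurableSet h1.sub (h1.vol.trans hvol)
      refine ⟨Pool.Agent.H85.LK.pol e h A', h1.pol he hh, ?_, ?_⟩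
      · by_contra h5
        rw [not_le] at h5
        obtain ⟨h', hh', h6⟩ := Dm_ivt he hh h1.cpt h1.sub h2 h5.le
        exact hcon _ (h1.pol he hh') h6
      · have h5 := hlow A' h1 h2
        have h6 : x₀ ^ 2 ≤ volume.real (A' \ ball 0 r) ^ 2 := pow_le_pow_left₀ hx₀.le h5 2
        have h7 : c * x₀ ^ 2 ≤ c * volume.real (A' \ ball 0 r) ^ 2 :=
          mul_le_mul_of_nonneg_left h6 hc.le
        push_cast
        linarith
  have hcx : 0 < c * x₀ ^ 2 := by positivity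
  obtain ⟨n, hn⟩ := exists_nat_gt (volume.real (A \ ball 0 r) / (c * x₀ ^ 2))
  rw [div_lt_iff₀ hcx] at hn
  obtain ⟨A', h1, h2, h3⟩ := hind n
  have h4 : 0 ≤ volume.real (A' \ ball 0 r) := measureReal_nonneg
  linarith

end Pool.Agent.H69.LNN
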