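import Pool.Agent.H69.LNN.Pt
import Pool.Agent.H69.LNN.A4
import Pool.Agent.H69.LNN.A4b
import Pool.Agent.H69.LQ.CS

set_option autoImplicit false

/-!
# MP_8f7db2_an, all dimensions: local minimality for centred sets
-/

open MeasureTheory Metric Set
open scoped ENNReal

namespace Pool.Agent.H69.LNN

open Pool.Agent.H85.LK (E adm lam Ann)
open Pool.Agent.H69.LQ

theorem vB_pos (N : ℕ) : 0 < vB N :=
  ENNReal.toReal_pos (measure_ball_pos _ _ one_pos).ne' measure_ball_lt_top.ne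

theorem aa_pos (N : ℕ) (K₁ : ℝ) : 0 < aa N K₁ := Real.exp_pos _

theorem aa_le_one (N : ℕ) {K₁ : ℝ} (h : 0 ≤ K₁) : aa N K₁ ≤ 1 := by
  unfold aa
  rw [Real.exp_le_one_iff, neg_div]
  have : 0 ≤ K₁ / N := div_nonneg h (Nat.cast_nonneg N)
  linarith

variable {N : ℕ}

/-- data of a set close to the unit ball -/
theorem loc_data (hVR : T_VR) (hVM : T_VM) (hN : 3 ≤ N) {Ω : Set (E N)} {a κ : ℝ} {R r₁ : Sp N → ℝ}
    (hΩ : IsOpen Ω) (hfin : volume Ω ≠ ⊤) (ha : 0 < a) (ha1 : a ≤ 1) (hE : Ey Ω a R r₁)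
    (hsd : volume.real (symmDiff Ω (ball 0 1)) ≤ κ * vB N) :
    BM (rho Ω) ∧ BM R ∧ BM (ds Ω R) ∧ BM (Hh Ω a) ∧ BM r₁ ∧ (∃ δ : ℝ, 0 < δ ∧ ∀ θ, δ ≤ R θ) ∧
      (∀ θ, R θ ^ N + ds Ω R θ = rho Ω θ + Hh Ω a θ) ∧ (∀ θ, 0 ≤ ds Ω R θ) ∧
      (∀ θ, 0 ≤ Hh Ω a θ ∧ Hh Ω a θ ≤ 1) ∧ (∀ θ, 0 ≤ rho Ω θ ∧ rho Ω θ ≤ bb N ^ N) ∧
      av (fun θ => |rho Ω θ - 1|) ≤ κ ∧ av (Hh Ω a) ≤ κ := by
  obtain ⟨b1, b2, b3, b4, b5, hp⟩ := hVR N Ω a R r₁ hN hΩ ha ha1 hE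
  obtain ⟨-, m2, m3⟩ := hVM N Ω a hN hΩ hfin ha ha1
  have hv := vB_pos N
  have hsub : volume.real (ball (0 : E N) 1 \ Ω) ≤ volume.real (symmDiff Ω (ball 0 1)) := by
    apply measureReal_mono
    · intro x hx
      exact Or.inr hx
    · refine measure_ne_top_of_subset (fun x hx => ?_)
        (measure_union_lt_top hfin.lt_top (measure_ball_lt_top (x := (0 : E N)) (r := 1))).ne
      rcases hx with hx | hx
      · exact Or.inl hx.1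
      · exact Or.inr hx.1
  refine ⟨b1, b2, b4, b5, b3, ⟨a, ha, hE.lo⟩, fun θ => (hp θ).1, fun θ => (hp θ).2.1,
    fun θ => ⟨(hp θ).2.2.2.1, (hp θ).2.2.2.2.1.trans ?_⟩,
    fun θ => ⟨(hp θ).2.1.trans (hp θ).2.2.1, (hp θ).2.2.2.2.2⟩, ?_, ?_⟩
  · exact pow_le_one₀ (hE.nn θ) ((hE.le θ).trans ha1)
  · have := m2.trans hsd
    rw [mul_comm κ] at this
    exact le_of_mul_le_mul_left this hv
  · have := (m3.trans hsub).trans hsd
    rw [mul_comm κ] at this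
    exact le_of_mul_le_mul_left this hv

/-- test functions of a set which does not contain the origin vanish near the origin -/
theorem near_zero {Ω : Set (E N)} (h0 : (0 : E N) ∉ Ω) {v : E N → ℝ} (hv : tsupport v ⊆ Ω) :
    ∃ δ : ℝ, 0 < δ ∧ ∀ x, ‖x‖ ≤ δ → v x = 0 := by
  have h1 : (tsupport v)ᶜ ∈ nhds (0 : E N) :=
    (isClosed_tsupport v).isOpen_compl.mem_nhds fun h => h0 (hv h)
  obtain ⟨ε, hε, h2⟩ := Metric.mem_nhds_iff.mp h1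
  refine ⟨ε / 2, by linarith, fun x hx => ?_⟩
  have h3 : x ∈ ball (0 : E N) ε := by rw [mem_ball_zero_iff]; linarith
  exact image_eq_zero_of_notMem_tsupport (h2 h3)

end Pool.Agent.H69.LNN
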