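import Pool.Agent.H69.LNN.LM0b

set_option autoImplicit false

/-!
# MP_8f7db2_an, all dimensions: local stability of the first eigenvalue for centred sets
-/

open MeasureTheory Metric Set
open scoped ENNReal

namespace Pool.Agent.H69.LNN

open Pool.Agent.H85.LK (E adm lam Ann)
open Pool.Agent.H69.LQ

/-- the constant in Hardy's inequality -/
theorem hardy_const (hL2 : T_L2) {ε : ℝ} (hε : 0 < ε) : ∃ N₀ : ℕ, 3 ≤ N₀ ∧ ∀ (N : ℕ) (L : ℝ),
    N₀ ≤ N → Fz N L → (1 - ε) * (L + N / 8) ≤ ((N : ℝ) - 2) ^ 2 / 4 := by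
  obtain ⟨C, N₁, hC, hN₁, h2⟩ := hL2
  obtain ⟨M, hM⟩ := exists_nat_ge (((C + 5) / ε) ^ 2 + 1)
  refine ⟨max N₁ M, le_trans hN₁ (le_max_left _ _), fun N L hN hL => ?_⟩
  have hNN₁ : N₁ ≤ N := le_trans (le_max_left _ _) hN
  have h3 := h2 N L hNN₁ hL
  have hN3 : 3 ≤ N := hN₁.trans hNN₁
  have hN3r : (3 : ℝ) ≤ N := by exact_mod_cast hN3
  have hN0 : (0 : ℝ) < N := by linarith
  have hMN : (M : ℝ) ≤ N := by exact_mod_cast (le_trans (le_max_right _ _) hN)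
  have hs : (C + 5) / ε ≤ Real.sqrt N := by
    apply Real.le_sqrt_of_sq_le
    linarith
  have hs0 : 0 < Real.sqrt N := Real.sqrt_pos.mpr hN0
  have hs1 : 1 ≤ Real.sqrt N := by
    rw [Real.one_le_sqrt]; linarith
  have hsq : Real.sqrt N * Real.sqrt N = N := Real.mul_self_sqrt hN0.le
  have h4 : C + 5 ≤ ε * Real.sqrt N := by
    rw [div_le_iff₀ hε] at hs; linarith
  obtain ⟨S, hS⟩ : ∃ S : ℝ, S = Real.sqrt N := ⟨_, rfl⟩
  rw [← hS] at h3 h4 hs1 hs0 hsq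
  have hN' : (N : ℝ) = S * S := hsq.symm
  have h5 : (N : ℝ) ^ 2 / 4 * (1 + C / S) = S ^ 4 / 4 + C * S ^ 3 / 4 := by
    rw [hN']
    field_simp
  rw [h5] at h3
  rcases le_or_gt 1 ε with he | he
  · have hL0 := hL.pos
    have : (1 - ε) * (L + N / 8) ≤ 0 :=
      mul_nonpos_of_nonpos_of_nonneg (by linarith) (by positivity)
    have h6 : 0 ≤ ((N : ℝ) - 2) ^ 2 / 4 := by positivity
    linarith
  · have h6 : (1 - ε) * (L + N / 8) ≤ (1 - ε) * (S ^ 4 / 4 + C * S ^ 3 / 4 + S ^ 2 / 8) := by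
      apply mul_le_mul_of_nonneg_left _ (by linarith)
      have : (N : ℝ) / 8 = S ^ 2 / 8 := by rw [hN']; ring
      linarith
    refine h6.trans ?_
    have h7 : ((N : ℝ) - 2) ^ 2 / 4 = S ^ 4 / 4 - S ^ 2 + 1 := by rw [hN']; ring
    rw [h7]
    have h8 : (C + 5) * S ^ 3 ≤ ε * S * S ^ 3 := mul_le_mul_of_nonneg_right h4 (by positivity)
    have h9 : S ^ 2 ≤ S ^ 3 := by nlinarith [sq_nonneg S]
    have h10 : 0 ≤ ε * (C * S ^ 3 / 4 + S ^ 2 / 8) := by positivity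
    nlinarith

/-- volumes -/
theorem vol_diff {N : ℕ} {Ω : Set (E N)} {δ z : ℝ} (hΩ : IsOpen Ω) (hfin : volume Ω ≠ ⊤)
    (h1 : volume.real Ω ≤ (1 + z) * vB N)
    (h2 : δ * vB N ≤ volume.real (symmDiff Ω (ball 0 1))) :
    (δ - z) / 2 * vB N ≤ volume.real (ball (0 : E N) 1 \ Ω) := by
  have hB : volume (ball (0 : E N) 1) ≠ ⊤ := measure_ball_lt_top.ne
  have e1 : volume.real (symmDiff Ω (ball 0 1)) ≤
      volume.real (Ω \ ball (0 : E N) 1) + volume.real (ball (0 : E N) 1 \ Ω) :=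
    measureReal_union_le _ _
  have e2 : volume.real (Ω ∩ ball (0 : E N) 1) + volume.real (Ω \ ball (0 : E N) 1) =
      volume.real Ω := measureReal_inter_add_diff measurableSet_ball hfin
  have e3 : volume.real (ball (0 : E N) 1 ∩ Ω) + volume.real (ball (0 : E N) 1 \ Ω) =
      volume.real (ball (0 : E N) 1) := measureReal_inter_add_diff hΩ.measurableSet hB
  rw [inter_comm] at e3
  have e4 : vB N = volume.real (ball (0 : E N) 1) := rfl
  rw [← e4] at e3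
  linarith

end Pool.Agent.H69.LNN
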