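import Pool.Agent.H69.LNN.LM0b
import Pool.Agent.H69.LNN.LS0
import Pool.Agent.H69.LNN.Targets2

set_option autoImplicit false

/-!
# MP_8f7db2_an, all dimensions: quantitative local minimality for centred sets
-/

open MeasureTheory Metric Set
open scoped ENNReal

namespace Pool.Agent.H69.LNN

open Pool.Agent.H85.LK (E adm lam Ann)
open Pool.Agent.H69.LQ

/-- the kernel -/
theorem lmq_ker {N NP a Q W I A EL' g : ℝ} (hN : 0 < N) (hNP : 0 < NP) (ha : 0 < a)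
    (hA : 0 ≤ A) (hW : 0 ≤ W) (hI0 : 0 ≤ I) (hI : I ≤ 4 * a * (NP * A + W))
    (hQ : 1 / 2 * A ≤ Q) (hR : a * (N * NP * Q + N / 2 * W) ≤ EL') (hE : EL' ≤ g * I)
    (hg : g ≤ N / 1000) : W = 0 ∧ A = 0 := by
  have h1 : g * I ≤ N / 1000 * (4 * a * (NP * A + W)) :=
    (mul_le_mul_of_nonneg_right hg hI0).trans (mul_le_mul_of_nonneg_left hI (by positivity))
  have h2 : N * NP * (1 / 2 * A) ≤ N * NP * Q := mul_le_mul_of_nonneg_left hQ (by positivity)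
  have h3 : a * (N * NP * (1 / 2 * A) + N / 2 * W) ≤ a * (N * NP * Q + N / 2 * W) :=
    mul_le_mul_of_nonneg_left (by linarith) ha.le
  have h4 : a * (N * (NP * A + W) * (496 / 1000)) ≤ 0 := by linarith
  have h5 : NP * A + W ≤ 0 := by
    by_contra hcon
    rw [not_le] at hcon
    have : 0 < a * (N * (NP * A + W) * (496 / 1000)) := by positivity
    linarith
  have h6 : 0 ≤ NP * A := mul_nonneg hNP.le hA
  have h7 : NP * A = 0 := by linarith
  refine ⟨by linarith, ?_⟩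
  rcases mul_eq_zero.mp h7 with h | h
  · linarith
  · exact h

/-- the sum -/
theorem lmq_main {N NP a Q W I S EL' g t be X : ℝ} (hN : 0 < N) (hNP : 0 < NP) (ha : 0 < a)
    (hS : 1 ≤ S) (hW : 0 ≤ W) (hI0 : 0 < I) (hI : I ≤ 4 * a * (NP * S + W))
    (hQ : be * X + 1 / 200 * (S - 1) ≤ Q) (hR : a * (N * NP * Q + N / 2 * W) ≤ EL')
    (hE : EL' ≤ g * I) (hg : g < t * N) (ht0 : 0 ≤ t) (ht : t ≤ 1 / 10000) (hb : 1 / 2 ≤ be)
    (hX : 0 ≤ X) : X < 8 * t := by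
  have h1 : g * I < t * N * I := mul_lt_mul_of_pos_right hg hI0
  have h1' : t * N * I ≤ t * N * (4 * a * (NP * S + W)) :=
    mul_le_mul_of_nonneg_left hI (by positivity)
  have h2 : a * (N * NP * Q + N / 2 * W) < a * (4 * t * N * (NP * S + W)) := by linarith
  have h3 : N * NP * Q + N / 2 * W < 4 * t * N * (NP * S + W) := lt_of_mul_lt_mul_left h2 ha.le
  have h4 : N * NP * (be * X + 1 / 200 * (S - 1)) ≤ N * NP * Q :=
    mul_le_mul_of_nonneg_left hQ (by positivity)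
  have h5 : 4 * t * N * W ≤ N / 2 * W := by
    have : 4 * t * N ≤ N / 2 := by nlinarith
    exact mul_le_mul_of_nonneg_right this hW
  have h6 : N * NP * (be * X + 1 / 200 * (S - 1)) < N * NP * (4 * t * S) := by linarith
  have h7 : be * X + 1 / 200 * (S - 1) < 4 * t * S :=
    lt_of_mul_lt_mul_left h6 (by positivity)
  have h8 : 4 * t * (S - 1) ≤ 1 / 200 * (S - 1) :=
    mul_le_mul_of_nonneg_right (by linarith) (by linarith)
  have h9 : 1 / 2 * X ≤ be * X := mul_le_mul_of_nonneg_right hb hX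
  linarith

/-- the final estimate -/
theorem lmq_num {A D h X : ℝ} (hA0 : 0 ≤ A) (hA1 : A ≤ 1) (hD : 0 ≤ D) (hh : 0 ≤ h)
    (hX : D / 100 + 10 * h ≤ X) (hX1 : X < 8 * (1 / 10000 * A ^ 2))
    (h1 : A / 2 ≤ Real.sqrt D + D + h) : False := by
  have hA : 0 < A := by
    rcases hA0.lt_or_eq with h' | h'
    · exact h'
    · rw [← h'] at hX1
      have : D / 100 + 10 * h < 0 := by linarith
      have : 0 ≤ D / 100 + 10 * h := by positivity
      linarith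
  have h3 : D ≤ (A * (3 / 10)) ^ 2 := by nlinarith
  have h4 : Real.sqrt D ≤ A * (3 / 10) := by
    rw [show A * (3 / 10) = Real.sqrt ((A * (3 / 10)) ^ 2) by rw [Real.sqrt_sq (by positivity)]]
    exact Real.sqrt_le_sqrt h3
  have h5 : A ^ 2 ≤ A := by nlinarith
  nlinarith

theorem pf_LMQ0 (hMP : T_MP) (hPY : T_PY) (hL2 : T_L2) (hNB : T_NB) (hTS : T_TS) (hRT2 : T_RT2)
    (hMI : T_MI) (hA4 : T_A4Q) (hA5 : T_A5) (hVE : T_VE) (hVR : T_VR) (hVM : T_VM)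
    (hVS : T_VS) (hMD : T_MD) (hDI : T_DI) : T_LMQ0 := by
  obtain ⟨C₀, hC₀, h1⟩ := hRT2
  obtain ⟨K₃, hK₃, h2⟩ := hMI C₀ hC₀
  obtain ⟨K₄, hK₄, h3⟩ := hMD
  obtain ⟨K, hK⟩ : ∃ K : ℝ, K = max K₃ K₄ := ⟨_, rfl⟩
  have hKK₃ : K₃ ≤ K := by rw [hK]; exact le_max_left _ _
  have hKK₄ : K₄ ≤ K := by rw [hK]; exact le_max_right _ _
  have hK1 : 1 ≤ K := hK₃.trans hKK₃
  obtain ⟨κa, Na, hκa, hNa, h2'⟩ := h2 K hKK₃
  obtain ⟨κb, Nb, hκb, hNb, h3'⟩ := h3 K κa hKK₄ hκa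
  obtain ⟨Ka, hKa, h1'⟩ := h1 K 40 hK1 (by norm_num)
  obtain ⟨Kb, hKb, h4'⟩ := hA4 C₀ K 40 hC₀ hK1 (by norm_num)
  obtain ⟨Kc, hKc, h5'⟩ := hA5 C₀ K 40 hC₀ hK1 (by norm_num)
  obtain ⟨K₁, hK₁⟩ : ∃ K₁ : ℝ, K₁ = max (max Ka Kb) Kc := ⟨_, rfl⟩
  have hK1a : Ka ≤ K₁ := by rw [hK₁]; exact (le_max_left _ _).trans (le_max_left _ _)
  have hK1b : Kb ≤ K₁ := by rw [hK₁]; exact (le_max_right _ _).trans (le_max_left _ _)
  have hK1c : Kc ≤ K₁ := by rw [hK₁]; exact le_max_right _ _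
  have hK10 : 0 ≤ K₁ := by linarith
  obtain ⟨κc, Nc, hκc, hNc, h1''⟩ := h1' K₁ hK1a
  obtain ⟨κd, Nd, hκd, hNd, h4''⟩ := h4' K₁ hK1b
  obtain ⟨κe, Ne, hκe, hNe, h5''⟩ := h5' K₁ hK1c
  obtain ⟨Nf, hNf, hB⟩ := be_bounds hL2 hNB
  refine ⟨min (min (min κb κc) (min κd κe)) 1, 1 / 10000,
    max (max (max Na Nb) (max Nc Nd)) (max Ne Nf),
    lt_min (lt_min (lt_min hκb hκc) (lt_min hκd hκe)) one_pos, by norm_num,
    hNa.trans ((le_max_left _ _).trans ((le_max_left _ _).trans (le_max_left _ _))), ?_⟩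
  intro N L γ Ω hN hL hΩ hvol hsd hcen h0 hγ
  have hNNa : Na ≤ N := by omega
  have hNNb : Nb ≤ N := by omega
  have hNNc : Nc ≤ N := by omega
  have hNNd : Nd ≤ N := by omega
  have hNNe : Ne ≤ N := by omega
  have hNNf : Nf ≤ N := by omega
  have hN3 : 3 ≤ N := by omega
  have hN2 : 2 ≤ N := by omega
  obtain ⟨hprob, har, -, -⟩ := hMP N hN2
  haveI : Nonempty (Fin N) := ⟨⟨0, by omega⟩⟩
  have hv := vB_pos N
  obtain ⟨hNP, hb1, hb2⟩ := hB N L hNNf hL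
  obtain ⟨A, hA⟩ : ∃ A, A = volume.real (symmDiff Ω (ball 0 1)) / vB N := ⟨_, rfl⟩
  have hA0 : 0 ≤ A := by rw [hA]; exact div_nonneg measureReal_nonneg hv.le
  have hA1 : A ≤ 1 := by
    rw [hA, div_le_one hv]
    have := hsd.trans (mul_le_mul_of_nonneg_right (min_le_right _ 1) hv.le)
    linarith
  rw [← hA]
  by_contra hlt
  rw [not_le] at hlt
  have hN0 : (0 : ℝ) < N := by
    have : 0 < N := by omega
    exact_mod_cast this
  have hAsq : A ^ 2 ≤ 1 := pow_le_one₀ hA0 hA1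
  have ht0 : 0 ≤ 1 / 10000 * A ^ 2 := by positivity
  have ht1 : 1 / 10000 * A ^ 2 ≤ 1 / 10000 := by linarith
  have hγt : γ - L < 1 / 10000 * A ^ 2 * N := by linarith
  have hγN : γ - L ≤ N / 1000 := by
    have : 1 / 10000 * A ^ 2 * N ≤ 1 / 10000 * N := mul_le_mul_of_nonneg_right ht1 hN0.le
    linarith
  have hfin : volume Ω ≠ ⊤ := by rw [hvol]; exact measure_ball_lt_top.ne
  have ha := aa_pos N K₁
  have ha1 := aa_le_one N hK10
  obtain ⟨R, r₁, hE⟩ := hVE N Ω (aa N K₁) hN3 hΩ ha ha1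
  have hsdc : volume.real (symmDiff Ω (ball 0 1)) ≤ κc * vB N :=
    hsd.trans (mul_le_mul_of_nonneg_right (((min_le_left _ _).trans (min_le_left _ _)).trans (min_le_right _ _)) hv.le)
  have hsdb : volume.real (symmDiff Ω (ball 0 1)) ≤ κb * vB N :=
    hsd.trans (mul_le_mul_of_nonneg_right (((min_le_left _ _).trans (min_le_left _ _)).trans (min_le_left _ _)) hv.le)
  have hsdd : volume.real (symmDiff Ω (ball 0 1)) ≤ κd * vB N :=
    hsd.trans (mul_le_mul_of_nonneg_right (((min_le_left _ _).trans (min_le_right _ _)).trans (min_le_left _ _)) hv.le)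
  have hsde : volume.real (symmDiff Ω (ball 0 1)) ≤ κe * vB N :=
    hsd.trans (mul_le_mul_of_nonneg_right (((min_le_left _ _).trans (min_le_right _ _)).trans (min_le_right _ _)) hv.le)
  obtain ⟨d1, d2, d3, d4, d5, d6, d7, d8, d9, d10, d11, d12⟩ :=
    loc_data hVR hVM hN3 hΩ hfin ha ha1 hE hsdd
  obtain ⟨-, -, -, -, -, -, -, -, -, -, e11, e12⟩ :=
    loc_data hVR hVM hN3 hΩ hfin ha ha1 hE hsde
  have hr1 : ∀ θ, 0 ≤ r₁ θ ∧ r₁ θ ≤ aa N K₁ := fun θ => ⟨hE.nn θ, hE.le θ⟩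
  -- the main inequality on the sphere
  have hvolr : volume.real Ω ≤ (1 + 0) * vB N := by
    rw [add_zero, one_mul]
    unfold vB Measure.real
    rw [hvol]
  obtain ⟨k₀, k, kf, hM⟩ := h3' N Ω (aa N K₁) 0 R r₁ hNNb hΩ hfin ha ha1 hE hcen hsdb le_rfl
    hκb.le hvolr
  have hmi := h2' N 0 _ k₀ _ _ _ _ _ k kf hNNa hM
  have hfar : 0 ≤ volume.real (Ω \ ball 0 (bb N)) / vB N := hM.far0
  have hDst : 0 ≤ Dst K (rho Ω) R (ds Ω R) := by
    unfold Dst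
    have a1 : 0 ≤ av ((Gk K (rho Ω)).indicator fun θ => min (hR R θ ^ 2) 1) :=
      av_ind_nonneg fun θ _ => le_min (sq_nonneg _) zero_le_one
    have a2 : 0 ≤ av ((Gk K (rho Ω)).indicator (ds Ω R)) := av_ind_nonneg fun θ _ => d8 θ
    have a3 : 0 ≤ av ((Gk K (rho Ω))ᶜ.indicator (rho Ω)) := av_ind_nonneg fun θ _ => (d10 θ).1
    linarith
  obtain ⟨D, hD⟩ : ∃ D, D = Dst K (rho Ω) R (ds Ω R) := ⟨_, rfl⟩
  obtain ⟨h, hh⟩ : ∃ h, h = av ((Gk K (rho Ω)).indicator fun θ => r₁ θ ^ N) := ⟨_, rfl⟩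
  have hh0 : 0 ≤ h := by
    rw [hh]; exact av_ind_nonneg fun θ _ => pow_nonneg (hr1 θ).1 _
  rw [← hD, ← hh] at hmi
  rw [← hD] at hDst
  have hXX : D / 100 + 10 * h ≤ MM K C₀ (rho Ω) R + 40 / 2 * h := by linarith
  have hX0 : 0 ≤ MM K C₀ (rho Ω) R + 40 / 2 * h := by
    have : 0 ≤ D / 100 + 10 * h := by positivity
    linarith
  -- the missing volume
  have hvs := hVS N Ω (aa N K₁) K R r₁ hN3 hΩ hfin ha ha1 hK1 hE
  rw [← hD, ← hh] at hvs
  have hvd := vol_diff (δ := A) (z := 0) hΩ hfin hvolr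
    (by rw [hA, div_mul_cancel₀ _ hv.ne'])
  have hsum : A / 2 ≤ Real.sqrt D + D + h := by
    have : vB N * (A / 2) ≤ vB N * (Real.sqrt D + D + h) := by linarith
    exact le_of_mul_le_mul_left this hv
  -- the test space
  obtain ⟨V, hVdim, hV⟩ := hγ
  obtain ⟨l, hl⟩ : ∃ l : (E N → ℝ) → ℝ, ∀ v, l v = av (rs (TT L v) 1) := ⟨_, fun _ => rfl⟩
  obtain ⟨T, hT⟩ : ∃ T : (E N → ℝ) → E N, ∀ v j, T v j = c1 (rs (TT L v) 1) j :=
    ⟨fun v => WithLp.toLp 2 fun j => c1 (rs (TT L v) 1) j, fun _ _ => rfl⟩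
  have hEV : ∀ v ∈ V, EL L v ≤ (γ - L) * ∫ x, v x ^ 2 := fun v hv => by
    have := (hV v hv).2.2.2
    unfold EL
    linarith
  have hsq : ∀ v : E N → ℝ, 0 ≤ ∫ x, v x ^ 2 := fun v => integral_nonneg fun x => sq_nonneg _
  have hRT : ∀ v ∈ V, ∃ W : ℝ, 0 ≤ W ∧
      ∫ x, v x ^ 2 ≤ 4 * ar N * (NP N L * av (fun θ => rs (TT L v) 1 θ ^ 2) + W) ∧
      ar N * (N * NP N L * QQ (VV L K 40 C₀ (rho Ω) R r₁) (TT L v) + N / 2 * W) ≤ EL L v := by
    intro v hv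
    obtain ⟨t1, t2, t3, -⟩ := hV v hv
    exact h1'' N L Ω R r₁ v hNNc hL hΩ hfin hsdc hE t1 t2 t3 (near_zero h0 t3)
  have hker : ∀ v ∈ V, l v = 0 → T v = 0 → v = 0 := by
    intro v hv hlv hTv
    obtain ⟨t1, t2, t3, -⟩ := hV v hv
    obtain ⟨W, hW0, hW1, hW2⟩ := hRT v hv
    have hc : ∀ j, c1 (rs (TT L v) 1) j = 0 := fun j => by
      rw [← hT, hTv]
      rfl
    have hq := h5'' N L (rho Ω) R (ds Ω R) (Hh Ω (aa N K₁)) r₁ (TT L v) hNNe hL d1 d2 d3 d4 d5 d6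
      d7 d8 d9 d10 hr1 e11 e12 ((hTS N L hN3).1 v t1) (by rw [← hl]; exact hlv) hc
    obtain ⟨h13, h14⟩ := lmq_ker hN0 hNP har (av_sq_nonneg _) hW0 (hsq v) hW1 hq hW2 (hEV v hv)
      hγN
    rw [h13, h14] at hW1
    exact sq_int_zero v t1.continuous t2 (by linarith)
  obtain ⟨lin1, lin2⟩ := TT_lin hTS hN3 L
  have hadd : ∀ v ∈ V, ∀ w ∈ V, l (v + w) = l v + l w ∧ T (v + w) = T v + T w := by
    intro v hv w hw
    have b1 := BM_TT hTS hN3 L (hV v hv).1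
    have b2 := BM_TT hTS hN3 L (hV w hw).1
    constructor
    · rw [hl, hl, hl, lin1 v w (hV v hv).1 (hV w hw).1, av_add b1 b2]
    · ext j
      rw [PiLp.add_apply, hT, hT, hT, lin1 v w (hV v hv).1 (hV w hw).1]
      unfold c1
      rw [← mul_add, ← av_add (b1.mul (BM_coord j)) (b2.mul (BM_coord j))]
      congr 2
      funext θ
      ring
  have hsmul : ∀ v ∈ V, ∀ k : ℝ, l (k • v) = k * l v ∧ T (k • v) = k • T v := by
    intro v hv k
    constructor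
    · rw [hl, hl, lin2, av_const_mul]
    · ext j
      rw [PiLp.smul_apply, hT, hT, lin2, smul_eq_mul, c1_const_mul]
  have hex : ∀ i : Fin N, ∃ v ∈ V, l v = 0 ∧ T v = EuclideanSpace.single i (1 : ℝ) := fun i =>
    hDI N V l T hVdim hadd hsmul hker _
  choose v hvV hvl hvT using hex
  have hvne : ∀ i, 0 < ∫ x, v i x ^ 2 := by
    intro i
    rcases (hsq (v i)).lt_or_eq with h | h
    · exact h
    · exfalso
      have h4 : v i = 0 := sq_int_zero (v i) (hV _ (hvV i)).1.continuous (hV _ (hvV i)).2.1 h.ge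
      have h5 : T (v i) = 0 := by
        have := (hsmul (v i) (hvV i) 0).2
        rw [zero_smul, zero_smul] at this
        rw [h4]; exact this
      rw [hvT i] at h5
      have h6 : (EuclideanSpace.single i (1 : ℝ) : E N) i = 0 := by rw [h5]; rfl
      simp at h6
  have h4s := h4'' N L (rho Ω) R (ds Ω R) (Hh Ω (aa N K₁)) r₁ (fun i => TT L (v i)) hNNd hL d1 d2 d3
    d4 d5 d6 d7 d8 d9 d10 hr1 d11 d12 (fun i => ⟨(hTS N L hN3).1 _ (hV _ (hvV i)).1,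
      by rw [← hl]; exact hvl i, fun j => by
        rw [← hT, hvT i, EuclideanSpace.single_apply]
        by_cases hij : i = j
        · rw [if_pos hij, if_pos hij.symm]
        · rw [if_neg hij, if_neg fun h => hij h.symm]⟩)
  choose W hW0 hW1 hW2 using fun i => hRT (v i) (hvV i)
  rw [← hh] at h4s
  have hS : 1 ≤ ∑ i, av (fun θ => rs (TT L (v i)) 1 θ ^ 2) := by
    have e1 : ∀ i : Fin N, 1 / (N : ℝ) ≤ av (fun θ => rs (TT L (v i)) 1 θ ^ 2) := by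
      intro i
      obtain ⟨p1, -⟩ := hPY N (rs (TT L (v i)) 1) hN2 (BM_TT hTS hN3 L (hV _ (hvV i)).1)
      rw [p1]
      have q0 := n0_nonneg (rs (TT L (v i)) 1)
      have q2 := n2_nonneg (rs (TT L (v i)) 1)
      have q3 := n3_nonneg (rs (TT L (v i)) 1)
      have q1 : n1 (rs (TT L (v i)) 1) = 1 / N := by
        unfold n1
        have : ∀ j, c1 (rs (TT L (v i)) 1) j ^ 2 = if i = j then 1 else 0 := by
          intro j
          rw [← hT, hvT i, EuclideanSpace.single_apply]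
          by_cases hij : i = j
          · rw [if_pos hij, if_pos hij.symm, one_pow]
          · rw [if_neg hij, if_neg fun h => hij h.symm]; norm_num
        rw [Finset.sum_congr rfl fun j _ => this j]
        simp
      linarith
    have e2 := Finset.sum_le_sum fun i (_ : i ∈ (Finset.univ : Finset (Fin N))) => e1 i
    rw [Finset.sum_const, Finset.card_univ, Fintype.card_fin, nsmul_eq_mul] at e2
    have e3 : (N : ℝ) * (1 / N) = 1 := by field_simp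
    linarith
  have hWs : 0 ≤ ∑ i, W i := Finset.sum_nonneg fun i _ => hW0 i
  have hIs : 0 < ∑ i, ∫ x, v i x ^ 2 := Finset.sum_pos (fun i _ => hvne i) Finset.univ_nonempty
  have hI2 : ∑ i, ∫ x, v i x ^ 2 ≤
      4 * ar N * (NP N L * (∑ i, av (fun θ => rs (TT L (v i)) 1 θ ^ 2)) + ∑ i, W i) := by
    rw [Finset.mul_sum, ← Finset.sum_add_distrib, Finset.mul_sum]
    exact Finset.sum_le_sum fun i _ => hW1 i
  have hR2 : ar N * (N * NP N L * (∑ i, QQ (VV L K 40 C₀ (rho Ω) R r₁) (TT L (v i))) +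
      N / 2 * ∑ i, W i) ≤ ∑ i, EL L (v i) := by
    rw [Finset.mul_sum, Finset.mul_sum, ← Finset.sum_add_distrib, Finset.mul_sum]
    exact Finset.sum_le_sum fun i _ => hW2 i
  have hE2 : ∑ i, EL L (v i) ≤ (γ - L) * ∑ i, ∫ x, v i x ^ 2 := by
    rw [Finset.mul_sum]
    exact Finset.sum_le_sum fun i _ => hEV _ (hvV i)
  have hfinal := lmq_main hN0 hNP har hS hWs hIs hI2 h4s hR2 hE2 hγt ht0 ht1 hb1 hX0
  exact lmq_num hA0 hA1 hDst hh0 hXX hfinal hsum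

end Pool.Agent.H69.LNN
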