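import Pool.Agent.H69.LNN.LS0

set_option autoImplicit false

/-!
# MP_8f7db2_an, all dimensions: local stability of the first eigenvalue, the proof
-/

open MeasureTheory Metric Set
open scoped ENNReal

namespace Pool.Agent.H69.LNN

open Pool.Agent.H85.LK (E adm lam Ann)
open Pool.Agent.H69.LQ

/-- the final estimate -/
theorem ls0_num {δ D h z : ℝ} (hδ : 0 < δ) (hδ1 : δ ≤ 1) (hD : 0 ≤ D) (hz : z = δ ^ 2 / 30000)
    (h1 : D / 100 + 10 * h ≤ 3 * (δ ^ 2 / 30000)) (h2 : (δ - z) / 2 ≤ Real.sqrt D + D + h)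
    (hh : 0 ≤ h) : False := by
  have h3 : D ≤ (δ / 10) ^ 2 := by nlinarith
  have h4 : Real.sqrt D ≤ δ / 10 := by
    rw [show δ / 10 = Real.sqrt ((δ / 10) ^ 2) by rw [Real.sqrt_sq (by positivity)]]
    exact Real.sqrt_le_sqrt h3
  have h5 : δ ^ 2 ≤ δ := by nlinarith
  rw [hz] at h2
  nlinarith

/-- the comparison of the masses -/
theorem ls0_mass (hCF : T_CF) (hTS : T_TS) {N : ℕ} (hN : 3 ≤ N) {L : ℝ} {u u₁ y : E N → ℝ}
    (hNP : 0 < NP N L) (har : 0 < ar N) (hL : 0 < L) {ε : ℝ} (hε : 0 ≤ ε)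
    (hc : (1 - ε) * (L + N / 8) ≤ ((N : ℝ) - 2) ^ 2 / 4)
    (hu : ContDiff ℝ (⊤ : ℕ∞) u) (huc : HasCompactSupport u) (h1 : TF univ u₁)
    (hyc : Continuous y) (hy : HasCompactSupport y)
    (h2 : ∀ x, ‖x‖ ≤ 1 → u₁ x = u x) (h3 : ∀ x, u₁ x ^ 2 + y x ^ 2 = u x ^ 2)
    (h4 : EL L u₁ - N / 8 * (∫ x in {x | 1 ≤ ‖x‖}, u₁ x ^ 2) + N * (∫ x, y x ^ 2) ≤ EL L u)
    (h5 : EL L u ≤ 0) :
    (1 - ε) * (ar N * (NP N L * av (fun θ => rs (TT L u) 1 θ ^ 2))) ≤ ∫ x, u x ^ 2 := by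
  obtain ⟨-, -, b3, b4, b5, b6, -, -, b9⟩ := hCF N L u₁ hN h1
  have hT : ∀ θ : Sp N, rs (TT L u₁) 1 θ = rs (TT L u) 1 θ := by
    intro θ
    unfold rs
    rw [one_smul]
    exact (hTS N L hN).2.2.2 u₁ u h2 _ (by rw [norm_sp])
  have hTr : ∀ θ : Sp N, Tr N L (fun r => rs u₁ r θ) = rs (TT L u₁) 1 θ := by
    intro θ
    unfold rs TT
    simp only [one_smul]
  -- mass on the rays
  have m1 : NP N L * av (fun θ => rs (TT L u) 1 θ ^ 2) ≤
      av (fun θ => Mr N (fun r => rs u₁ r θ)) := by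
    rw [← av_const_mul]
    have bT : BM (rs (TT L u) 1) := BM_TT hTS hN L hu
    apply av_mono ((bT.pow 2).const_mul _) b3
    intro θ
    have := b6 θ hNP
    unfold WT Wr at this
    rw [hTr θ, hT θ] at this
    linarith
  have hI1 : Integrable fun x => u₁ x ^ 2 := by
    have hcs : HasCompactSupport u₁ := by
      apply HasCompactSupport.intro (isCompact_closedBall (0 : E N) (bb N))
      intro x hx
      apply h1.far
      rw [mem_closedBall_zero_iff, not_le] at hx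
      exact hx.le
    have := hcs.comp_left (g := fun z : ℝ => z ^ 2) (by norm_num)
    exact (h1.smooth.continuous.pow 2).integrable_of_hasCompactSupport this
  have hIy : Integrable fun x => y x ^ 2 := by
    have := hy.comp_left (g := fun z : ℝ => z ^ 2) (by norm_num)
    exact (hyc.pow 2).integrable_of_hasCompactSupport this
  have k1 : ∫ x in {x : E N | 1 ≤ ‖x‖}, u₁ x ^ 2 ≤ ∫ x, u₁ x ^ 2 :=
    setIntegral_le_integral hI1 (Filter.Eventually.of_forall fun x => sq_nonneg _)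
  have k2 : ∫ x, u x ^ 2 = (∫ x, u₁ x ^ 2) + ∫ x, y x ^ 2 := by
    rw [← integral_add hI1 hIy]
    congr 1
    funext x
    exact (h3 x).symm
  have k3 : 0 ≤ ∫ x, y x ^ 2 := integral_nonneg fun x => sq_nonneg _
  have k4 : 0 ≤ ∫ x, u₁ x ^ 2 := integral_nonneg fun x => sq_nonneg _
  have hN0 : (0 : ℝ) ≤ N := Nat.cast_nonneg N
  have k5 : ∫ x, ‖fderiv ℝ u₁ x‖ ^ 2 ≤ (L + N / 8) * ∫ x, u₁ x ^ 2 := by
    unfold EL at h4 h5
    have : (N : ℝ) / 8 * (∫ x in {x : E N | 1 ≤ ‖x‖}, u₁ x ^ 2) ≤ N / 8 * ∫ x, u₁ x ^ 2 :=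
      mul_le_mul_of_nonneg_left k1 (by positivity)
    have h7 : 0 ≤ (N : ℝ) * ∫ x, y x ^ 2 := mul_nonneg hN0 k3
    linarith
  obtain ⟨X, hX⟩ : ∃ X, X = ar N * av (fun θ => Mr N (fun r => rs u₁ r θ)) := ⟨_, rfl⟩
  rw [← hX] at b9
  obtain ⟨Y, hY⟩ : ∃ Y, Y = ar N * (NP N L * av (fun θ => rs (TT L u) 1 θ ^ 2)) := ⟨_, rfl⟩
  have m2 : Y ≤ X := by rw [hX, hY]; exact mul_le_mul_of_nonneg_left m1 har.le
  have hY0 : 0 ≤ Y := by
    rw [hY]; exact mul_nonneg har.le (mul_nonneg hNP.le (av_sq_nonneg _))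
  rw [← hY]
  have hLN : 0 < L + N / 8 := by positivity
  have k6 : ((N : ℝ) - 2) ^ 2 / 4 * Y ≤ (L + N / 8) * ∫ x, u x ^ 2 := by
    have e1 : ((N : ℝ) - 2) ^ 2 / 4 * Y ≤ ((N : ℝ) - 2) ^ 2 / 4 * X :=
      mul_le_mul_of_nonneg_left m2 (by positivity)
    have e2 : (L + N / 8) * (∫ x, u₁ x ^ 2) ≤ (L + N / 8) * ∫ x, u x ^ 2 :=
      mul_le_mul_of_nonneg_left (by linarith) hLN.le
    linarith
  have k7 : (1 - ε) * (L + N / 8) * Y ≤ ((N : ℝ) - 2) ^ 2 / 4 * Y :=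
    mul_le_mul_of_nonneg_right hc hY0
  have k8 : (L + N / 8) * ((1 - ε) * Y) ≤ (L + N / 8) * ∫ x, u x ^ 2 := by linarith
  exact le_of_mul_le_mul_left k8 hLN

end Pool.Agent.H69.LNN
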