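import Pool.Agent.H85.LNN.FINQ
import Pool.Agent.H85.LNN.ASM2
import Pool.Agent.H85.LNN.C1

/-! MP_8f7db2_an: minimality, uniqueness and stability of the ball in all dimensions `N ≥ N₀` -/

set_option autoImplicit false

open MeasureTheory Metric Set
open scoped ENNReal

namespace Pool.Agent.H69.LNN

open Pool.Agent.H85.LK (E adm lam)

theorem stab : ∃ (c : ℝ) (N₀ : ℕ), 0 < c ∧ ∀ (N : ℕ) (r : ℝ) (Ω : Set (E N)), N₀ ≤ N →
    0 < r → IsOpen Ω → volume Ω = volume (ball (0 : E N) r) →
    lam N (N + 1) (ball (0 : E N) r) ≤ lam N (N + 1) Ω ∧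
    (lam N (N + 1) Ω = lam N (N + 1) (ball (0 : E N) r) →
      ∃ o : E N, volume (symmDiff Ω (ball o r)) = 0) ∧
    ∃ o : E N, lam N (N + 1) (ball (0 : E N) r) *
      (1 + c / N * (volume.real (symmDiff Ω (ball o r)) / volume.real (ball (0 : E N) r)) ^ 2) ≤
      lam N (N + 1) Ω := by
  obtain ⟨c, N₀, hc, h⟩ := Pool.Agent.H85.LNN.lnq
  refine ⟨c, N₀ + 1, hc, fun N r Ω hN hr hΩ hv => ?_⟩
  obtain ⟨o, ho⟩ := h N r Ω (by omega) hr hΩ hv
  have hN1 : 1 ≤ N := by omega
  have hN0 : (0 : ℝ) < N := by exact_mod_cast hN1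
  have hlpos : 0 < lam N (N + 1) (ball (0 : E N) r) :=
    lt_of_lt_of_le (Pool.Agent.H85.LNN.lam_ball_pos hN1 hr)
      (Pool.Agent.H85.LNN.lam_ge hN1 (by omega) hr isOpen_ball rfl)
  have hvpos : 0 < volume.real (ball (0 : E N) r) :=
    ENNReal.toReal_pos (measure_ball_pos volume _ hr).ne' measure_ball_lt_top.ne
  have hq : 0 ≤ c / N * (volume.real (symmDiff Ω (ball o r)) /
      volume.real (ball (0 : E N) r)) ^ 2 := by positivity
  refine ⟨?_, fun he => ⟨o, ?_⟩, o, ho⟩
  · refine le_trans ?_ ho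
    nlinarith
  · rw [he] at ho
    have h1 : c / N * (volume.real (symmDiff Ω (ball o r)) /
      volume.real (ball (0 : E N) r)) ^ 2 ≤ 0 := by
      by_contra h2
      push Not at h2
      nlinarith
    have h2 : (volume.real (symmDiff Ω (ball o r)) / volume.real (ball (0 : E N) r)) ^ 2 ≤ 0 := by
      by_contra h3
      push Not at h3
      have : 0 < c / N * (volume.real (symmDiff Ω (ball o r)) /
        volume.real (ball (0 : E N) r)) ^ 2 := by positivity
      linarith
    have h3 : volume.real (symmDiff Ω (ball o r)) / volume.real (ball (0 : E N) r) = 0 :=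
      pow_eq_zero_iff (two_ne_zero) |>.1 (le_antisymm h2 (sq_nonneg _))
    have h4 : volume.real (symmDiff Ω (ball o r)) = 0 := by
      rcases div_eq_zero_iff.1 h3 with h | h
      · exact h
      · exact absurd h hvpos.ne'
    have hfin : volume (symmDiff Ω (ball o r)) ≠ ∞ := by
      refine ne_top_of_le_ne_top ?_ (measure_mono (Set.union_subset_union
        (sdiff_subset : Ω \ ball o r ⊆ Ω) (sdiff_subset : ball o r \ Ω ⊆ ball o r)))
      refine ((measure_union_le _ _).trans_lt (ENNReal.add_lt_top.2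
        ⟨hv ▸ measure_ball_lt_top, measure_ball_lt_top⟩)).ne
    rcases (ENNReal.toReal_eq_zero_iff _).1 h4 with h | h
    · exact h
    · exact absurd h hfin

end Pool.Agent.H69.LNN
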